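import Mathlib

/-!
# Fully invariant congruences on words, as lists (for MP_b02441_al)
-/

set_option autoImplicit false
set_option linter.unusedVariables false

namespace Pool.Agent.Lib.MP_b02441_al

/-- A fully invariant congruence on nonempty words over `ℕ` (the empty word is only related to
itself). -/
structure FIC (R : List ℕ → List ℕ → Prop) : Prop where
  refl : ∀ u, R u u
  symm : ∀ {u v}, R u v → R v u
  trans : ∀ {u v w}, R u v → R v w → R u w
  app : ∀ {u v} (a b : List ℕ), R u v → R (a ++ u ++ b) (a ++ v ++ b)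
  sub : ∀ {u v} (s : ℕ → List ℕ), (∀ x, s x ≠ []) → R u v → R (u.flatMap s) (v.flatMap s)
  nil : ∀ {v}, R [] v → v = []

/-- `w` is idempotent modulo `R`. -/
def KK (R : List ℕ → List ℕ → Prop) (w : List ℕ) : Prop := R (w ++ w) w

/-- the substitution of the letter `a` by `t` -/
def s1 (a : ℕ) (t : List ℕ) : ℕ → List ℕ := fun x => if x = a then t else [x]

/-- `u` does not depend on the letter `a` modulo `R`. -/
def Indep (R : List ℕ → List ℕ → Prop) (u : List ℕ) (a : ℕ) : Prop :=
  ∀ t : List ℕ, t ≠ [] → R (u.flatMap (s1 a t)) u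

/-- a bad word -/
def Bad (R : List ℕ → List ℕ → Prop) (w : List ℕ) (a b : ℕ) : Prop :=
  a ≠ b ∧ ¬ KK R w ∧ KK R (w.flatMap (s1 b [a])) ∧ Indep R (w ++ w) a ∧ Indep R (w ++ w) b

/-- isolation of words over `n + 1` letters by substitutions to words over `n` letters -/
def IsoL (R : List ℕ → List ℕ → Prop) (n : ℕ) : Prop :=
  ∀ U : List ℕ, U ≠ [] → (∀ x ∈ U, x ≤ n) → ∃ s : ℕ → List ℕ, (∀ x, s x ≠ []) ∧
    (∀ x ≤ n, ∀ y ∈ s x, y < n) ∧
    ∀ U' : List ℕ, U' ≠ [] → (∀ x ∈ U', x ≤ n) → R (U'.flatMap s) (U.flatMap s) → R U' U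

section lists

theorem s1_ne {a : ℕ} {t : List ℕ} (ht : t ≠ []) : ∀ x, s1 a t x ≠ [] := by
  intro x; unfold s1; split_ifs <;> simp [ht]

theorem s1_self (a : ℕ) (t : List ℕ) : s1 a t a = t := by simp [s1]

theorem s1_of_ne {a x : ℕ} (t : List ℕ) (h : x ≠ a) : s1 a t x = [x] := by simp [s1, h]

theorem flatMap_congr' {s t : ℕ → List ℕ} {w : List ℕ} (h : ∀ x ∈ w, s x = t x) :
    w.flatMap s = w.flatMap t := List.flatMap_congr h

theorem flatMap_id {s : ℕ → List ℕ} {w : List ℕ} (h : ∀ x ∈ w, s x = [x]) :
    w.flatMap s = w := by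
  rw [flatMap_congr' (t := fun x => [x]) h]
  exact List.flatMap_singleton' w

theorem flatMap_sing (w : List ℕ) (g : ℕ → ℕ) : w.flatMap (fun x => [g x]) = w.map g := by
  induction w with
  | nil => rfl
  | cons x w ih => rw [List.flatMap_cons, List.map_cons, ih]; rfl

theorem flatMap_flatMap (w : List ℕ) (s t : ℕ → List ℕ) :
    (w.flatMap s).flatMap t = w.flatMap (fun x => (s x).flatMap t) := List.flatMap_assoc

theorem flatMap_s1_not_mem {a : ℕ} {t w : List ℕ} (h : a ∉ w) : w.flatMap (s1 a t) = w :=
  flatMap_id fun x hx => s1_of_ne t (fun e => h (e ▸ hx))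

theorem flatMap_ne_nil {s : ℕ → List ℕ} (hs : ∀ x, s x ≠ []) {w : List ℕ} (hw : w ≠ []) :
    w.flatMap s ≠ [] := by
  intro h
  rw [List.flatMap_eq_nil_iff] at h
  obtain ⟨x, hx⟩ := List.exists_mem_of_ne_nil w hw
  exact hs x (h x hx)

theorem length_flatMap_ge {s : ℕ → List ℕ} (hs : ∀ x, s x ≠ []) (w : List ℕ) :
    w.length ≤ (w.flatMap s).length := by
  induction w with
  | nil => simp
  | cons x w ih =>
    rw [List.flatMap_cons, List.length_append, List.length_cons]
    have : 0 < (s x).length := List.length_pos_iff.2 (hs x)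
    omega

theorem length_flatMap_gt {s : ℕ → List ℕ} (hs : ∀ x, s x ≠ []) (w : List ℕ) {x : ℕ} (hx : x ∈ w)
    (h2 : 2 ≤ (s x).length) : w.length < (w.flatMap s).length := by
  induction w with
  | nil => simp at hx
  | cons y w ih =>
    rw [List.flatMap_cons, List.length_append, List.length_cons]
    have h1 : 0 < (s y).length := List.length_pos_iff.2 (hs y)
    rcases List.mem_cons.1 hx with rfl | hx
    · have := length_flatMap_ge hs w
      omega
    · have := ih hx
      omega

theorem mem_flatMap_s1 {a : ℕ} {t w : List ℕ} {y : ℕ} (h : y ∈ w.flatMap (s1 a t)) :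
    (y ∈ w ∧ y ≠ a) ∨ y ∈ t := by
  rw [List.mem_flatMap] at h
  obtain ⟨x, hx, hy⟩ := h
  by_cases hxa : x = a
  · subst hxa; rw [s1_self] at hy; exact Or.inr hy
  · rw [s1_of_ne t hxa, List.mem_singleton] at hy
    subst hy; exact Or.inl ⟨hx, hxa⟩

end lists

namespace FIC

variable {R : List ℕ → List ℕ → Prop}

theorem appL (hR : FIC R) {u v : List ℕ} (a : List ℕ) (h : R u v) : R (a ++ u) (a ++ v) := by
  have := hR.app a [] h
  simpa using this

theorem appR (hR : FIC R) {u v : List ℕ} (b : List ℕ) (h : R u v) : R (u ++ b) (v ++ b) := by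
  have := hR.app [] b h
  simpa using this

theorem app2 (hR : FIC R) {u v u' v' : List ℕ} (h : R u v) (h' : R u' v') :
    R (u ++ u') (v ++ v') := hR.trans (hR.appR u' h) (hR.appL v h')

theorem of_eq (hR : FIC R) {u v : List ℕ} (h : u = v) : R u v := h ▸ hR.refl u

theorem KK_congr (hR : FIC R) {u v : List ℕ} (h : R u v) (hu : KK R u) : KK R v :=
  hR.trans (hR.app2 (hR.symm h) (hR.symm h)) (hR.trans hu h)

theorem KK_sub (hR : FIC R) {u : List ℕ} (s : ℕ → List ℕ) (hs : ∀ x, s x ≠ []) (hu : KK R u) :
    KK R (u.flatMap s) := by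
  have := hR.sub s hs hu
  rwa [List.flatMap_append] at this

/-- words that differ by an injective renaming -/
theorem of_map (hR : FIC R) {g : ℕ → ℕ} {u v : List ℕ}
    (hg : ∀ x y, x ∈ u ++ v → y ∈ u ++ v → g x = g y → x = y) (h : R (u.map g) (v.map g)) :
    R u v := by
  classical
  -- a left inverse of g on the letters
  let k : ℕ → List ℕ := fun y => if hy : ∃ x ∈ u ++ v, g x = y then [hy.choose] else [0]
  have hk : ∀ y, k y ≠ [] := by
    intro y
    by_cases hy : ∃ x ∈ u ++ v, g x = y
    · rw [show k y = [hy.choose] from dif_pos hy]; simp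
    · rw [show k y = [0] from dif_neg hy]; simp
  have hk' : ∀ x ∈ u ++ v, k (g x) = [x] := by
    intro x hx
    have hy : ∃ x' ∈ u ++ v, g x' = g x := ⟨x, hx, rfl⟩
    have h1 := hy.choose_spec
    have h2 : hy.choose = x := hg _ _ h1.1 hx h1.2
    have h3 : k (g x) = [hy.choose] := dif_pos hy
    rw [h3, h2]
  have h1 := hR.sub k hk h
  rw [List.flatMap_map, List.flatMap_map] at h1
  have e1 : u.flatMap (fun x => k (g x)) = u :=
    flatMap_id fun x hx => hk' x (List.mem_append_left _ hx)
  have e2 : v.flatMap (fun x => k (g x)) = v :=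
    flatMap_id fun x hx => hk' x (List.mem_append_right _ hx)
  rwa [e1, e2] at h1

theorem map (hR : FIC R) (g : ℕ → ℕ) {u v : List ℕ} (h : R u v) : R (u.map g) (v.map g) := by
  have := hR.sub (fun x => [g x]) (fun x => by simp) h
  rwa [flatMap_sing, flatMap_sing] at this

theorem KK_of_map (hR : FIC R) {g : ℕ → ℕ} {u : List ℕ}
    (hg : ∀ x y, x ∈ u → y ∈ u → g x = g y → x = y) (h : KK R (u.map g)) : KK R u := by
  refine hR.of_map (g := g) ?_ ?_
  · intro x y hx hy
    refine hg x y ?_ ?_
    · simpa using hx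
    · simpa using hy
  · rw [List.map_append]; exact h

theorem indep_congr (hR : FIC R) {u v : List ℕ} {a : ℕ} (h : R u v) (hu : Indep R u a) :
    Indep R v a := fun t ht =>
  hR.trans (hR.symm (hR.sub _ (s1_ne ht) h)) (hR.trans (hu t ht) h)

theorem indep_of_not_mem (hR : FIC R) {u : List ℕ} {a : ℕ} (h : a ∉ u) : Indep R u a :=
  fun t _ => hR.of_eq (flatMap_s1_not_mem h)

theorem indep_of_eq (hR : FIC R) {u v : List ℕ} {a : ℕ} (h : R u v) (hv : a ∉ v) : Indep R u a :=
  hR.indep_congr (hR.symm h) (hR.indep_of_not_mem hv)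

/-- If replacing `a` by another letter changes nothing, `u` is independent of `a`. -/
theorem indep_of_letter (hR : FIC R) {u : List ℕ} {a y : ℕ} (hya : y ≠ a)
    (h : R (u.flatMap (s1 a [y])) u) : Indep R u a := by
  refine hR.indep_of_eq (hR.symm h) ?_
  intro hmem
  rcases mem_flatMap_s1 hmem with h | h
  · exact h.2 rfl
  · rw [List.mem_singleton] at h; exact hya h.symm

/-- Substitutions that only change independent letters. -/
theorem indep_sub (hR : FIC R) {U : List ℕ} {s : ℕ → List ℕ} (hs : ∀ x, s x ≠ [])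
    (h : ∀ x ∈ U, ¬ Indep R U x → s x = [x]) : R (U.flatMap s) U := by
  classical
  -- induction over finite sets of independent letters
  have key : ∀ F : Finset ℕ, (∀ x ∈ F, Indep R U x) →
      ∀ s : ℕ → List ℕ, (∀ x, s x ≠ []) → (∀ x ∉ F, s x = [x]) → R (U.flatMap s) U := by
    intro F
    induction F using Finset.induction_on with
    | empty =>
      intro _ s hs h1
      exact hR.of_eq (flatMap_id fun x _ => h1 x (Finset.notMem_empty x))
    | insert a F ha ih =>
      intro hF s hs h1
      -- a fresh letter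
      obtain ⟨y, hy⟩ := Infinite.exists_notMem_finset (U.toFinset ∪ insert a F)
      simp only [Finset.mem_union, List.mem_toFinset, Finset.mem_insert, not_or] at hy
      obtain ⟨hyU, hya, hyF⟩ := hy
      have h2 : R (U.flatMap (s1 a [y])) U := hF a (Finset.mem_insert_self a F) [y] (by simp)
      let τ : ℕ → List ℕ := fun x => if x = y then s a else if x = a then [a] else s x
      have hτ : ∀ x, τ x ≠ [] := by
        intro x; simp only [τ]; split_ifs
        · exact hs a
        · simp
        · exact hs x
      have h3 := hR.sub τ hτ h2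
      have e1 : (U.flatMap (s1 a [y])).flatMap τ = U.flatMap s := by
        rw [flatMap_flatMap]
        refine flatMap_congr' fun x hx => ?_
        by_cases hxa : x = a
        · subst hxa
          rw [s1_self]; simp [τ]
        · have hxy : x ≠ y := fun e => hyU (e ▸ hx)
          rw [s1_of_ne _ hxa]; simp [τ, hxy, hxa]
      have e2 : R (U.flatMap τ) U := by
        let τ' : ℕ → List ℕ := fun x => if x = y then [y] else if x = a then [a] else s x
        have e3 : U.flatMap τ = U.flatMap τ' := by
          refine flatMap_congr' fun x hx => ?_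
          have hxy : x ≠ y := fun e => hyU (e ▸ hx)
          simp [τ, τ', hxy]
        rw [e3]
        refine ih (fun x hx => hF x (Finset.mem_insert_of_mem hx)) τ' ?_ ?_
        · intro x; simp only [τ']; split_ifs
          · simp
          · simp
          · exact hs x
        · intro x hx
          simp only [τ']
          split_ifs with h4 h5
          · rw [h4]
          · rw [h5]
          · exact h1 x (by simp [h5, hx])
      rw [e1] at h3
      exact hR.trans h3 e2
  let F : Finset ℕ := U.toFinset.filter (fun x => Indep R U x)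
  let s' : ℕ → List ℕ := fun x => if x ∈ F then s x else [x]
  have e : U.flatMap s = U.flatMap s' := by
    refine flatMap_congr' fun x hx => ?_
    by_cases hi : Indep R U x
    · have : x ∈ F := by simp [F, hx, hi]
      simp [s', this]
    · have : x ∉ F := by simp [F, hi]
      simp [s', this, h x hx hi]
  rw [e]
  refine key F (fun x hx => by simp [F] at hx; exact hx.2) s' ?_ ?_
  · intro x; simp only [s']; split_ifs
    · exact hs x
    · simp
  · intro x hx; simp [s', hx]

/-- Two substitutions which agree on the letters on which `U` depends. -/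
theorem indep_sub2 (hR : FIC R) {U : List ℕ} {s t : ℕ → List ℕ} (hs : ∀ x, s x ≠ [])
    (ht : ∀ x, t x ≠ []) (h : ∀ x ∈ U, ¬ Indep R U x → s x = t x) :
    R (U.flatMap s) (U.flatMap t) := by
  classical
  -- rename the independent letters to fresh ones
  obtain ⟨M, hM⟩ : ∃ M : ℕ, ∀ x ∈ U, x < M := by
    refine ⟨(U.foldr max 0) + 1, fun x hx => ?_⟩
    have : ∀ (l : List ℕ), x ∈ l → x ≤ l.foldr max 0 := by
      intro l
      induction l with
      | nil => intro h; simp at h
      | cons y l ih =>
        intro h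
        rw [List.foldr_cons]
        rcases List.mem_cons.1 h with rfl | h
        · exact le_max_left _ _
        · exact (ih h).trans (le_max_right _ _)
    have := this U hx
    omega
  let g : ℕ → List ℕ := fun x => if Indep R U x then [x + M] else [x]
  have hg : ∀ x, g x ≠ [] := by intro x; simp only [g]; split_ifs <;> simp
  have h1 : R (U.flatMap g) U := hR.indep_sub hg fun x _ hx => by simp [g, hx]
  let τ : ℕ → List ℕ := fun x => if x < M then s x else t (x - M)
  have hτ : ∀ x, τ x ≠ [] := by
    intro x; simp only [τ]; split_ifs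
    · exact hs x
    · exact ht _
  have h2 := hR.sub τ hτ h1
  have e1 : (U.flatMap g).flatMap τ = U.flatMap t := by
    rw [flatMap_flatMap]
    refine flatMap_congr' fun x hx => ?_
    by_cases hi : Indep R U x
    · simp [g, hi, τ]
    · simp [g, hi, τ, hM x hx, h x hx hi]
  have e2 : U.flatMap τ = U.flatMap s := flatMap_congr' fun x hx => by simp [τ, hM x hx]
  rw [e1, e2] at h2
  exact hR.symm h2

end FIC

end Pool.Agent.Lib.MP_b02441_al
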