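import Pool.Agent.Lib.MP_b02441_al.Defs
import Pool.Agent.Lib.MP_b02441_al.FIC

/-!
# Basic facts on free semigroups of varieties (for MP_b02441_al)
-/

set_option autoImplicit false
set_option linter.unusedVariables false

namespace Pool.Agent.Lib.MP_b02441_al

variable {E : Set (Word × Word)}

theorem Holds.sub {u v : Word} (h : Holds E u v) (σ : Word →ₙ* Word) : Holds E (σ u) (σ v) :=
  fun S _ hS φ => h S hS (φ.comp σ)

/-- The relatively free semigroups belong to the variety. -/
theorem mem_Fr (E : Set (Word × Word)) (n : ℕ) : Mem E (Fr E n) := by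
  intro p hp φ
  -- lift `φ` to the free semigroup
  have hsurj : ∀ x : Fr E n, ∃ w : FreeSemigroup (Fin n), (w : Fr E n) = x := by
    intro x
    induction x using Con.induction_on with
    | H w => exact ⟨w, rfl⟩
  choose f hf using fun i : ℕ => hsurj (φ (FreeSemigroup.of i))
  have hφ : ∀ w : Word, φ w = ((FreeSemigroup.lift f w : FreeSemigroup (Fin n)) : Fr E n) := by
    intro w
    induction w using FreeSemigroup.recOnMul with
    | ih1 x => rw [FreeSemigroup.lift_of]; exact (hf x).symm
    | ih2 x y hx hy => rw [map_mul, map_mul, hx, hy, Con.coe_mul]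
  rw [hφ, hφ]
  refine (Con.eq _).2 ?_
  intro S _ hS ψ
  exact hS p hp (ψ.comp (FreeSemigroup.lift f))

/-- The universal property of `Fr E n`. -/
def Fr.lift {n : ℕ} {S : Type} [Semigroup S] (hS : Mem E S) (f : Fin n → S) : Fr E n →ₙ* S where
  toFun x := Con.liftOn x (fun w => FreeSemigroup.lift f w) (fun _ _ h => h S hS _)
  map_mul' x y := by
    induction x using Con.induction_on with
    | H x =>
      induction y using Con.induction_on with
      | H y =>
        change FreeSemigroup.lift f (x * y) = FreeSemigroup.lift f x * FreeSemigroup.lift f y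
        rw [map_mul]

/-- the generators -/
def Fr.of {n : ℕ} (i : Fin n) : Fr E n := ((FreeSemigroup.of i : FreeSemigroup (Fin n)) : Fr E n)

@[simp] theorem Fr.lift_of {n : ℕ} {S : Type} [Semigroup S] (hS : Mem E S) (f : Fin n → S)
    (i : Fin n) : Fr.lift hS f (Fr.of i : Fr E n) = f i := by
  change FreeSemigroup.lift f (FreeSemigroup.of i) = f i
  exact FreeSemigroup.lift_of _ _

theorem Fr.induction {n : ℕ} {P : Fr E n → Prop} (h1 : ∀ i, P (Fr.of i))
    (h2 : ∀ x y, P x → P y → P (x * y)) (x : Fr E n) : P x := by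
  induction x using Con.induction_on with
  | H w =>
    induction w using FreeSemigroup.recOnMul with
    | ih1 i => exact h1 i
    | ih2 i y hx hy => exact h2 _ _ hx hy

theorem Fr.hom_ext {n : ℕ} {S : Type} [Semigroup S] {φ ψ : Fr E n →ₙ* S}
    (h : ∀ i, φ (Fr.of i) = ψ (Fr.of i)) : φ = ψ := by
  ext x
  induction x using Fr.induction with
  | h1 i => exact h i
  | h2 x y hx hy => rw [map_mul, map_mul, hx, hy]

end Pool.Agent.Lib.MP_b02441_al
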