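import Pool.Agent.Lib.MP_b02441_al.Basic

/-!
# The fully invariant congruence of a variety, on lists (for MP_b02441_al)
-/

set_option autoImplicit false
set_option linter.unusedVariables false

namespace Pool.Agent.Lib.MP_b02441_al

variable {E : Set (Word × Word)}

/-- value of a list of letters -/
def ev {S : Type} [Semigroup S] (f : ℕ → S) (l : List ℕ) : WithOne S :=
  (l.map (fun i => ((f i : S) : WithOne S))).prod

section

variable {S : Type} [Semigroup S]

@[simp] theorem ev_nil (f : ℕ → S) : ev f [] = 1 := rfl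

theorem ev_append (f : ℕ → S) (a b : List ℕ) : ev f (a ++ b) = ev f a * ev f b := by
  simp [ev]

@[simp] theorem ev_singleton (f : ℕ → S) (i : ℕ) : ev f [i] = (f i : WithOne S) := by
  simp [ev]

theorem ev_cons (f : ℕ → S) (i : ℕ) (l : List ℕ) :
    ev f (i :: l) = (f i : WithOne S) * ev f l := by
  simp [ev]

theorem ev_exists (f : ℕ → S) {l : List ℕ} (hl : l ≠ []) : ∃ s : S, ev f l = (s : WithOne S) := by
  induction l with
  | nil => exact absurd rfl hl
  | cons x l ih =>
    by_cases h : l = []
    · exact ⟨f x, by rw [h, ev_singleton]⟩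
    · obtain ⟨s, hs⟩ := ih h
      exact ⟨f x * s, by rw [ev_cons, hs, WithOne.coe_mul]⟩

theorem ev_flatMap (f g : ℕ → S) (s : ℕ → List ℕ) {u : List ℕ}
    (h : ∀ x ∈ u, ev f (s x) = (g x : WithOne S)) : ev f (u.flatMap s) = ev g u := by
  induction u with
  | nil => rfl
  | cons x u ih =>
    rw [List.flatMap_cons, ev_append, ev_cons, h x (List.mem_cons_self),
      ih fun y hy => h y (List.mem_cons_of_mem _ hy)]

theorem ev_map {T : Type} [Semigroup T] (φ : S →ₙ* T) (f : ℕ → S) (g : ℕ → T) {u : List ℕ}
    (h : ∀ x ∈ u, φ (f x) = g x) : WithOne.mapMulHom φ (ev f u) = ev g u := by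
  induction u with
  | nil => rfl
  | cons x u ih =>
    rw [ev_cons, ev_cons, map_mul, WithOne.mapMulHom_coe, h x (List.mem_cons_self),
      ih fun y hy => h y (List.mem_cons_of_mem _ hy)]

end

/-- the list of letters of a word -/
def toL (w : Word) : List ℕ := w.head :: w.tail

theorem toL_ne (w : Word) : toL w ≠ [] := List.cons_ne_nil _ _

theorem toL_mul (u v : Word) : toL (u * v) = toL u ++ toL v := rfl

theorem toL_of (i : ℕ) : toL (FreeSemigroup.of i) = [i] := rfl

theorem toL_surj {l : List ℕ} (hl : l ≠ []) : ∃ w : Word, toL w = l := by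
  cases l with
  | nil => exact absurd rfl hl
  | cons x l => exact ⟨⟨x, l⟩, rfl⟩

theorem ev_toL {S : Type} [Semigroup S] (φ : Word →ₙ* S) (w : Word) :
    ev (fun i => φ (FreeSemigroup.of i)) (toL w) = (φ w : WithOne S) := by
  induction w using FreeSemigroup.recOnMul with
  | ih1 i => rw [toL_of, ev_singleton]
  | ih2 i w hx hy => rw [toL_mul, ev_append, hx, hy, map_mul, WithOne.coe_mul]

theorem toL_lift (σ : ℕ → Word) (w : Word) :
    toL (FreeSemigroup.lift σ w) = (toL w).flatMap fun i => toL (σ i) := by
  induction w using FreeSemigroup.recOnMul with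
  | ih1 i => rw [FreeSemigroup.lift_of, toL_of]; simp
  | ih2 i w hx hy => rw [map_mul, toL_mul, toL_mul, hx, hy, List.flatMap_append]

/-- the congruence of the variety on lists -/
def RE (E : Set (Word × Word)) (u v : List ℕ) : Prop :=
  ∀ (S : Type) [Semigroup S], Mem E S → ∀ f : ℕ → S, ev f u = ev f v

theorem RE_toL {u v : Word} : RE E (toL u) (toL v) ↔ Holds E u v := by
  constructor
  · intro h S _ hS φ
    have := h S hS fun i => φ (FreeSemigroup.of i)
    rw [ev_toL, ev_toL, WithOne.coe_inj] at this
    exact this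
  · intro h S _ hS f
    have := h S hS (FreeSemigroup.lift f)
    have h1 := ev_toL (FreeSemigroup.lift f) u
    have h2 := ev_toL (FreeSemigroup.lift f) v
    simp only [FreeSemigroup.lift_of] at h1 h2
    rw [h1, h2, this]

theorem RE_fic (E : Set (Word × Word)) : FIC (RE E) where
  refl u S _ hS f := rfl
  symm h S _ hS f := (h S hS f).symm
  trans h h' S _ hS f := (h S hS f).trans (h' S hS f)
  app a b h S _ hS f := by
    rw [ev_append, ev_append, ev_append, ev_append, h S hS f]
  sub s hs h S _ hS f := by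
    choose g hg using fun x => ev_exists f (hs x)
    rw [ev_flatMap f g s fun x _ => hg x, ev_flatMap f g s fun x _ => hg x, h S hS g]
  nil {v} h := by
    by_contra hv
    have hE : Mem E PUnit := fun p _ φ => Subsingleton.elim _ _
    have h1 := h PUnit hE fun _ => PUnit.unit
    obtain ⟨s, hs⟩ := ev_exists (fun _ : ℕ => PUnit.unit) hv
    rw [hs, ev_nil] at h1
    exact WithOne.one_ne_coe h1

theorem KK_toL {w : Word} : KK (RE E) (toL w) ↔ Idem E w := by
  unfold KK Idem
  rw [← toL_mul, RE_toL]

theorem toL_subst (i : ℕ) (t w : Word) : toL (subst i t w) = (toL w).flatMap (s1 i (toL t)) := by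
  unfold subst
  rw [toL_lift]
  refine flatMap_congr' fun x _ => ?_
  by_cases h : x = i
  · rw [if_pos h, h, s1_self]
  · rw [if_neg h, s1_of_ne _ h, toL_of]

theorem Indep_toL {u : Word} {i : ℕ} : Indep (RE E) (toL u) i ↔ IndepOf E u i := by
  constructor
  · intro h t
    rw [← RE_toL, toL_subst]
    exact h _ (toL_ne t)
  · intro h t ht
    obtain ⟨w, rfl⟩ := toL_surj ht
    rw [← toL_subst, RE_toL]
    exact h w

theorem NS2_iff : NS2 E ↔ ∀ w a b, ¬ Bad (RE E) w a b := by
  constructor
  · rintro h w a b ⟨hab, hK, hK', ha, hb⟩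
    by_cases hw : w = []
    · subst hw
      exact hK ((RE_fic E).refl _)
    obtain ⟨w, rfl⟩ := toL_surj hw
    rw [← toL_mul, Indep_toL] at ha hb
    rw [← toL_of a, ← toL_subst, KK_toL] at hK'
    rw [KK_toL] at hK
    exact hK (h w a b hab ha hb hK')
  · intro h w a b hab ha hb hK'
    by_contra hK
    rw [← Indep_toL, toL_mul] at ha hb
    rw [← KK_toL, toL_subst, toL_of] at hK'
    rw [← KK_toL] at hK
    exact h _ a b ⟨hab, hK, hK', ha, hb⟩

theorem toL_lin (m : ℕ) : toL (lin m) = List.range (m + 1) := by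
  rw [List.range_succ_eq_map]; rfl

/-- powers of lists -/
def lp (e : List ℕ) (k : ℕ) : List ℕ := (List.replicate (k + 1) e).flatten

theorem lp_zero (e : List ℕ) : lp e 0 = e := by simp [lp]

theorem lp_succ (e : List ℕ) (k : ℕ) : lp e (k + 1) = e ++ lp e k := by
  simp [lp, List.replicate_succ]

theorem lp_succ' (e : List ℕ) (k : ℕ) : lp e (k + 1) = lp e k ++ e := by
  induction k with
  | zero => rw [lp_succ, lp_zero]
  | succ k ih => rw [lp_succ, ih, ← List.append_assoc, ← lp_succ, ih]

theorem lp_length {e : List ℕ} (he : e ≠ []) (k : ℕ) : k + 1 ≤ (lp e k).length := by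
  have h : 0 < e.length := List.length_pos_iff.2 he
  induction k with
  | zero => rw [lp_zero]; omega
  | succ k ih => rw [lp_succ, List.length_append]; omega

theorem KK_lp {R : List ℕ → List ℕ → Prop} (hR : FIC R) {e : List ℕ} (he : KK R e) (k : ℕ) :
    R (lp e k) e := by
  induction k with
  | zero => rw [lp_zero]; exact hR.refl _
  | succ k ih => rw [lp_succ]; exact hR.trans (hR.appL e ih) he

/-- consequences of `NS1` -/
theorem NS1.list (h : NS1 E) : (∃ m, 1 ≤ m ∧ ∀ w : List ℕ, m ≤ w.length → KK (RE E) w) ∧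
    ∀ e : List ℕ, e ≠ [] → KK (RE E) e → ∀ u, RE E (e ++ u ++ e) e := by
  obtain ⟨m, hm⟩ := h
  have hR := RE_fic E
  rw [← RE_toL, toL_mul, toL_mul, toL_lin, toL_of] at hm
  have h1 : ∀ w y : List ℕ, m + 1 ≤ w.length → y ≠ [] → RE E (w ++ y ++ w) w := by
    intro w y hw hy
    let s : ℕ → List ℕ := fun i =>
      if i < m then [w.getD i 0] else if i = m then w.drop m else y
    have hs : ∀ x, s x ≠ [] := by
      intro x
      simp only [s]
      split_ifs
      · simp
      · intro h0
        rw [List.drop_eq_nil_iff] at h0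
        omega
      · exact hy
    have h2 := hR.sub s hs hm
    have e1 : (List.range (m + 1)).flatMap s = w := by
      rw [List.range_succ, List.flatMap_append]
      have e1 : (List.range m).flatMap s = w.take m := by
        have : ∀ i ∈ List.range m, s i = [w.getD i 0] := by
          intro i hi
          rw [List.mem_range] at hi
          simp [s, hi]
        rw [flatMap_congr' this, flatMap_sing]
        apply List.ext_getElem
        · simp; omega
        · intro i h1 h2
          simp at h1
          have : i < w.length := by omega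
          simp [this]
      have e2 : [m].flatMap s = w.drop m := by
        simp [s]
      rw [e1, e2, List.take_append_drop]
    have e2 : [m + 1].flatMap s = y := by
      simp [s]
    rw [List.flatMap_append, List.flatMap_append, e1, e2] at h2
    exact h2
  have h2 : ∀ w : List ℕ, m + 1 ≤ w.length → KK (RE E) w := by
    intro w hw
    have hw0 : w ≠ [] := by
      rintro rfl; simp at hw
    have h3 := h1 (w ++ w) w (by rw [List.length_append]; omega) hw0
    have h4 : RE E (w ++ w ++ w ++ (w ++ w)) (w ++ w ++ w) := by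
      have h5 := hR.app w w (h1 w w hw hw0)
      have e : w ++ w ++ w ++ (w ++ w) = w ++ (w ++ w ++ w) ++ w := by simp
      rw [e]; exact h5
    exact hR.trans (hR.symm h3) (hR.trans h4 (h1 w w hw hw0))
  refine ⟨⟨m + 1, by omega, h2⟩, fun e he hK u => ?_⟩
  by_cases hu : u = []
  · rw [hu, List.append_nil]; exact hK
  · have h3 := h1 (lp e m) u (lp_length he m) hu
    have h4 := KK_lp hR hK m
    exact hR.trans (hR.symm (hR.app2 (hR.app2 h4 (hR.refl u)) h4)) (hR.trans h3 h4)

theorem NS1_of (h1 : ∃ m, 1 ≤ m ∧ ∀ w : List ℕ, m ≤ w.length → KK (RE E) w)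
    (h2 : ∀ e : List ℕ, e ≠ [] → KK (RE E) e → ∀ u, RE E (e ++ u ++ e) e) : NS1 E := by
  obtain ⟨m, _, hm⟩ := h1
  refine ⟨m, ?_⟩
  rw [← RE_toL, toL_mul, toL_mul]
  refine h2 _ (toL_ne _) (hm _ ?_) _
  rw [toL_lin, List.length_range]
  omega

end Pool.Agent.Lib.MP_b02441_al
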