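import Pool.Agent.Lib.MP_b02441_al.Tri

/-!
# Locally finite varieties with semilattices (for MP_b02441_al)
-/

set_option autoImplicit false
set_option linter.unusedVariables false

namespace Pool.Agent.Lib.MP_b02441_al

variable {E : Set (Word × Word)}

/-- does the letter `i` occur? -/
def chi (hL : Mem E L2) {N : ℕ} (i : Fin N) : Fr E N →ₙ* L2 :=
  Fr.lift hL fun j => if j = i then L2.tt else L2.ff

theorem chi_of_self (hL : Mem E L2) {N : ℕ} (i : Fin N) : chi hL i (Fr.of i) = L2.tt := by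
  rw [chi, Fr.lift_of, if_pos rfl]

theorem chi_of_ne (hL : Mem E L2) {N : ℕ} {i j : Fin N} (h : j ≠ i) :
    chi hL i (Fr.of j) = L2.ff := by
  rw [chi, Fr.lift_of, if_neg h]

theorem chi_minIdem (hL : Mem E L2) {N : ℕ} [Finite (Fr E N)] {g : Fr E N}
    (hg : MinIdem Set.univ g) (i : Fin N) : chi hL i g = L2.tt := by
  obtain ⟨k, hk⟩ := hg.exists_pw (fun _ _ _ _ => Set.mem_univ _) (s := Fr.of i) (Set.mem_univ _)
  rw [← hk, map_pw, map_mul, map_mul, chi_of_self, L2.mul_tt, L2.tt_mul]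
  exact pw_idem (L2.idem _) k

theorem chi_last_up (hL : Mem E L2) {N : ℕ} (x : Fr E N) :
    chi hL (Fin.last N) (Fr.up E (Nat.le_succ N) x) = L2.ff := by
  induction x using Fr.induction with
  | h1 i =>
    rw [Fr.up, Fr.lift_of, chi_of_ne]
    intro h
    have := congrArg Fin.val h
    simp at this
    have := i.isLt
    omega
  | h2 x y hx hy => rw [map_mul, map_mul, hx, hy, L2.idem]

theorem exists_gseq (hLF : LocallyFinite E) : ∃ g : ∀ N, Fr E (N + 1),
    (∀ N, MinIdem Set.univ (g N)) ∧ ∀ N, Fr.up E (Nat.le_succ (N + 1)) (g N) * g (N + 1) = g (N + 1)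
      ∧ g (N + 1) * Fr.up E (Nat.le_succ (N + 1)) (g N) = g (N + 1) := by
  have h0 : ∃ e : Fr E 1, MinIdem Set.univ e := by
    have := hLF 1
    obtain ⟨f, -, hf⟩ := exists_idem_in (S := Fr E 1) Set.univ ⟨Fr.of 0, trivial⟩
      (fun _ _ _ _ => trivial)
    obtain ⟨e, he, -⟩ := exists_minIdem Set.univ (fun _ _ _ _ => trivial) (Set.mem_univ f) hf
    exact ⟨e, he⟩
  have hs : ∀ N (g : Fr E (N + 1)), g * g = g → ∃ e : Fr E (N + 2), MinIdem Set.univ e ∧
      Fr.up E (Nat.le_succ (N + 1)) g * e = e ∧ e * Fr.up E (Nat.le_succ (N + 1)) g = e := by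
    intro N g hg
    have := hLF (N + 2)
    exact exists_minIdem Set.univ (fun _ _ _ _ => trivial)
      (Set.mem_univ (Fr.up E (Nat.le_succ (N + 1)) g)) (by rw [← map_mul, hg])
  obtain ⟨e0, he0⟩ := h0
  choose F hF using hs
  let G : ∀ N, {g : Fr E (N + 1) // MinIdem Set.univ g} := fun N =>
    Nat.rec (motive := fun N => {g : Fr E (N + 1) // MinIdem Set.univ g}) ⟨e0, he0⟩
      (fun N g => ⟨F N g.1 g.2.idem, (hF N g.1 g.2.idem).1⟩) N
  exact ⟨fun N => (G N).1, fun N => (G N).2, fun N => (hF N (G N).1 (G N).2.idem).2⟩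

/-- irredundant sequences -/
def Irr (hL : Mem E L2) (g : ∀ N, Fr E (N + 1)) {S : Type} [Semigroup S] (hS : Mem E S) {N : ℕ}
    (a : Fin (N + 1) → S) : Prop :=
  ∀ i : Fin (N + 1), i ≠ 0 → ∀ w : Fr E (N + 1), chi hL i w = L2.ff →
    Fr.lift hS a w ≠ Fr.lift hS a (g N)

theorem Irr.injective {hL : Mem E L2} {g : ∀ N, Fr E (N + 1)} {S : Type} [Semigroup S]
    {hS : Mem E S} {N : ℕ} {a : Fin (N + 1) → S} (h : Irr hL g hS a) : Function.Injective a := by
  have key : ∀ i j : Fin (N + 1), i ≠ j → i ≠ 0 → a i ≠ a j := by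
    intro i j hij hi hij'
    let σ : Fr E (N + 1) →ₙ* Fr E (N + 1) := Fr.lift (mem_Fr E (N + 1)) fun l =>
      if l = i then Fr.of j else Fr.of l
    have h1 : ∀ w, Fr.lift hS a (σ w) = Fr.lift hS a w := by
      intro w
      have : (Fr.lift hS a).comp σ = Fr.lift hS a := by
        refine Fr.hom_ext fun l => ?_
        change Fr.lift hS a (Fr.lift _ _ (Fr.of l)) = _
        rw [Fr.lift_of, Fr.lift_of]
        by_cases hl : l = i
        · rw [if_pos hl, Fr.lift_of, hl, hij']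
        · rw [if_neg hl, Fr.lift_of]
      exact DFunLike.congr_fun this w
    have h2 : ∀ w, chi hL i (σ w) = L2.ff := by
      intro w
      induction w using Fr.induction with
      | h1 l =>
        change chi hL i (Fr.lift _ _ (Fr.of l)) = _
        rw [Fr.lift_of]
        by_cases hl : l = i
        · rw [if_pos hl, chi_of_ne hL (Ne.symm hij)]
        · rw [if_neg hl, chi_of_ne hL hl]
      | h2 x y hx hy => rw [map_mul, map_mul, hx, hy, L2.idem]
    exact h i hi (σ (g N)) (h2 _) (h1 _)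
  intro i j hij
  by_contra hne
  by_cases hi : i = 0
  · exact key j i (Ne.symm hne) (fun hj => hne (hi.trans hj.symm)) hij.symm
  · exact key i j hne hi hij

theorem Irr.ext {hL : Mem E L2} {g : ∀ N, Fr E (N + 1)} (hg : ∀ N, MinIdem Set.univ (g N))
    (hg2 : ∀ N, Fr.up E (Nat.le_succ (N + 1)) (g N) * g (N + 1) = g (N + 1)
      ∧ g (N + 1) * Fr.up E (Nat.le_succ (N + 1)) (g N) = g (N + 1)) {n N : ℕ}
    [Finite (Fr E (N + 2))]
    {a : Fin (N + 1) → Fr E n} (h : Irr hL g (mem_Fr E n) a) :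
    Irr hL g (mem_Fr E (n + 1)) (N := N + 1)
      (Fin.snoc (α := fun _ => Fr E (n + 1)) (fun i => Fr.up E (Nat.le_succ n) (a i))
        (Fr.of (Fin.last n))) := by
  intro i hi w hw heq
  change Fr.snoc (mem_Fr E (n + 1)) (fun i => Fr.up E (Nat.le_succ n) (a i))
    (Fr.of (Fin.last n)) w = Fr.snoc (mem_Fr E (n + 1)) (fun i => Fr.up E (Nat.le_succ n) (a i))
    (Fr.of (Fin.last n)) (g (N + 1)) at heq
  rcases Fin.eq_castSucc_or_eq_last i with ⟨i0, rfl⟩ | rfl
  · have hi0 : i0 ≠ 0 := fun h0 => hi (by rw [h0]; rfl)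
    let β' : Fr E (n + 1) →ₙ* Fr E n := Fr.snoc (mem_Fr E n) (fun i => Fr.of i) (a 0)
    let β : Fr E (N + 2) →ₙ* Fr E (N + 1) :=
      Fr.snoc (mem_Fr E (N + 1)) (fun i => Fr.of i) (Fr.of 0)
    have h1 : ∀ x, β' (Fr.snoc (mem_Fr E (n + 1)) (fun i => Fr.up E (Nat.le_succ n) (a i))
        (Fr.of (Fin.last n)) x) = Fr.lift (mem_Fr E n) a (β x) := by
      intro x
      have : β'.comp (Fr.snoc (mem_Fr E (n + 1)) (fun i => Fr.up E (Nat.le_succ n) (a i))
          (Fr.of (Fin.last n))) = (Fr.lift (mem_Fr E n) a).comp β := by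
        refine Fr.hom_ext fun j => ?_
        rcases Fin.eq_castSucc_or_eq_last j with ⟨j0, rfl⟩ | rfl
        · change β' (Fr.snoc _ _ _ (Fr.of j0.castSucc)) =
            Fr.lift (mem_Fr E n) a (Fr.snoc _ _ _ _)
          rw [Fr.snoc_castSucc, Fr.snoc_castSucc, Fr.lift_of]
          change Fr.snoc _ _ _ (Fr.up E (Nat.le_succ n) (a j0)) = _
          rw [Fr.snoc_up, Fr.lift_of_self]
        · change β' (Fr.snoc _ _ _ (Fr.of (Fin.last _))) =
            Fr.lift (mem_Fr E n) a (Fr.snoc _ _ _ _)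
          rw [Fr.snoc_last, Fr.snoc_last, Fr.snoc_last, Fr.lift_of]
      exact DFunLike.congr_fun this x
    have h2 : chi hL i0 (β w) = L2.ff := by
      have : (chi hL i0).comp β = chi hL i0.castSucc := by
        refine Fr.hom_ext fun j => ?_
        change chi hL i0 (Fr.snoc _ _ _ (Fr.of j)) = _
        rcases Fin.eq_castSucc_or_eq_last j with ⟨j0, rfl⟩ | rfl
        · rw [Fr.snoc_castSucc, chi, chi, Fr.lift_of, Fr.lift_of]
          simp only [Fin.castSucc_inj]
        · rw [Fr.snoc_last, chi_of_ne hL (Ne.symm hi0), chi_of_ne hL]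
          exact (Fin.castSucc_lt_last i0).ne'
      rw [← hw, ← this]; rfl
    have h3 : β (Fr.up E (Nat.le_succ (N + 1)) (g N)) = g N := by
      change Fr.snoc _ _ _ _ = _
      rw [Fr.snoc_up, Fr.lift_of_self]
    have h4 : β (g (N + 1)) = g N := by
      refine (hg N).min _ trivial ?_ ?_ ?_
      · rw [← map_mul, (hg (N + 1)).idem]
      · conv_lhs => rw [← h3]
        rw [← map_mul, (hg2 N).1]
      · conv_lhs => rw [← h3]
        rw [← map_mul, (hg2 N).2]
    refine h i0 hi0 (β w) h2 ?_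
    rw [← h1, heq, h1, h4]
  · have h1 : (chi hL (Fin.last n)).comp (Fr.snoc (mem_Fr E (n + 1))
        (fun i => Fr.up E (Nat.le_succ n) (a i)) (Fr.of (Fin.last n))) =
        chi hL (Fin.last (N + 1)) := by
      refine Fr.hom_ext fun j => ?_
      rcases Fin.eq_castSucc_or_eq_last j with ⟨j0, rfl⟩ | rfl
      · change chi hL _ (Fr.snoc _ _ _ (Fr.of j0.castSucc)) = _
        rw [Fr.snoc_castSucc, chi_last_up, chi_of_ne hL (Fin.castSucc_lt_last j0).ne]
      · change chi hL _ (Fr.snoc _ _ _ (Fr.of (Fin.last _))) = _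
        rw [Fr.snoc_last, chi_of_self, chi_of_self]
    have h2 := congrArg (chi hL (Fin.last n)) heq
    change ((chi hL (Fin.last n)).comp _) w = ((chi hL (Fin.last n)).comp _) (g (N + 1)) at h2
    rw [h1, hw, chi_minIdem hL (hg (N + 1))] at h2
    exact L2.ne h2

theorem not_isoH_of_L2 (hLF : LocallyFinite E) (hL : Mem E L2) {n : ℕ} (hn : 1 ≤ n) :
    ¬ IsoH E n := by
  intro hiso
  obtain ⟨g, hg, hg2⟩ := exists_gseq hLF
  have key : ∀ N, ∃ a : Fin (N + 1) → Fr E n, Irr hL g (mem_Fr E n) a := by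
    intro N
    induction N with
    | zero =>
      refine ⟨fun _ => Fr.of ⟨0, hn⟩, fun i hi => ?_⟩
      exact absurd (Fin.ext (by have := i.isLt; simp)) hi
    | succ N ih =>
      obtain ⟨a, ha⟩ := ih
      have := hLF (N + 2)
      have ha' := ha.ext hg hg2
      generalize (Fin.snoc (α := fun _ => Fr E (n + 1)) (fun i => Fr.up E (Nat.le_succ n) (a i))
        (Fr.of (Fin.last n)) : Fin (N + 2) → Fr E (n + 1)) = a' at ha'
      obtain ⟨θ, hθ⟩ := hiso (Fr.lift (mem_Fr E (n + 1)) a' (g (N + 1)))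
      refine ⟨fun i => θ (a' i), fun i hi w hw heq => ?_⟩
      have h1 : ∀ x, Fr.lift (mem_Fr E n) (fun i => θ (a' i)) x =
          θ (Fr.lift (mem_Fr E (n + 1)) a' x) := by
        intro x
        have : Fr.lift (mem_Fr E n) (fun i => θ (a' i)) =
            θ.comp (Fr.lift (mem_Fr E (n + 1)) a') := by
          refine Fr.hom_ext fun j => ?_
          change _ = θ (Fr.lift _ _ (Fr.of j))
          rw [Fr.lift_of, Fr.lift_of]
        exact DFunLike.congr_fun this x
      rw [h1, h1] at heq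
      exact ha' i hi w hw (hθ _ heq)
  have := hLF n
  obtain ⟨a, ha⟩ := key (Nat.card (Fr E n))
  have h1 := Nat.card_le_card_of_injective a ha.injective
  rw [Nat.card_eq_fintype_card, Fintype.card_fin] at h1
  omega

end Pool.Agent.Lib.MP_b02441_al
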