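import Pool.Agent.Lib.MP_b02441_al.BddDefs
import Pool.Agent.Lib.MP_b02441_al.SLCase
import Pool.Agent.Lib.MP_b02441_al.Rel

/-!
# Periodic varieties with semilattices and bounded chains of idempotents (for MP_b02441_al)
-/

set_option autoImplicit false
set_option linter.unusedVariables false

namespace Pool.Agent.Lib.MP_b02441_al

variable {E : Set (Word × Word)}

/-- the words `x_0 ^ ω`, `(z x_1 z) ^ ω`, ... -/
def zz (K : ℕ) : ℕ → Word
  | 0 => pw (FreeSemigroup.of 0) K
  | N + 1 => pw (zz K N * FreeSemigroup.of (N + 1) * zz K N) K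

theorem toL_pw_mem (w : Word) (K i : ℕ) : i ∈ toL (pw w K) ↔ i ∈ toL w := by
  induction K with
  | zero => exact Iff.rfl
  | succ K ih =>
    rw [pw_succ, toL_mul, List.mem_append, ih]
    tauto

theorem toL_zz {K N i : ℕ} (hi : i ∈ toL (zz K N)) : i ≤ N := by
  induction N with
  | zero =>
    rw [zz, toL_pw_mem, toL_of, List.mem_singleton] at hi
    omega
  | succ N ih =>
    rw [zz, toL_pw_mem, toL_mul, toL_mul, List.mem_append, List.mem_append, toL_of,
      List.mem_singleton] at hi
    rcases hi with (hi | hi) | hi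
    · have := ih hi; omega
    · omega
    · have := ih hi; omega

/-- value of a word -/
theorem lift_congr {S : Type} [Semigroup S] {a b : ℕ → S} {w : Word}
    (h : ∀ i ∈ toL w, a i = b i) : FreeSemigroup.lift a w = FreeSemigroup.lift b w := by
  induction w using FreeSemigroup.recOnMul with
  | ih1 i =>
    rw [FreeSemigroup.lift_of, FreeSemigroup.lift_of]
    exact h i (by rw [toL_of]; exact List.mem_singleton_self i)
  | ih2 i w hx hy =>
    rw [map_mul, map_mul, hx fun j hj => h j ?_, hy fun j hj => h j ?_]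
    · rw [toL_mul]; exact List.mem_append_right _ hj
    · rw [toL_mul]; exact List.mem_append_left _ hj

section

variable {S : Type} [Semigroup S] {K : ℕ}

/-- the sequence `a_0, ..., a_N` is irredundant -/
def IrrN (K : ℕ) (a : ℕ → S) (N : ℕ) : Prop :=
  ∀ i, 1 ≤ i → i ≤ N → ∀ w : Word, i ∉ toL w → (∀ j ∈ toL w, j ≤ N) →
    FreeSemigroup.lift a w ≠ FreeSemigroup.lift a (zz K N)

variable (hK : ∀ s : S, pw s K * pw s K = pw s K)

include hK

theorem zz_idem (a : ℕ → S) (N : ℕ) :
    FreeSemigroup.lift a (zz K N) * FreeSemigroup.lift a (zz K N) =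
      FreeSemigroup.lift a (zz K N) := by
  cases N with
  | zero => rw [zz, map_pw]; exact hK _
  | succ N => rw [zz, map_pw]; exact hK _

theorem zz_succ (a : ℕ → S) (N : ℕ) : FreeSemigroup.lift a (zz K (N + 1)) =
    pw (FreeSemigroup.lift a (zz K N) * a (N + 1) * FreeSemigroup.lift a (zz K N)) K := by
  rw [zz, map_pw, map_mul, map_mul, FreeSemigroup.lift_of]

theorem zz_le_succ (a : ℕ → S) (N : ℕ) :
    FreeSemigroup.lift a (zz K N) * FreeSemigroup.lift a (zz K (N + 1)) =
      FreeSemigroup.lift a (zz K (N + 1)) ∧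
    FreeSemigroup.lift a (zz K (N + 1)) * FreeSemigroup.lift a (zz K N) =
      FreeSemigroup.lift a (zz K (N + 1)) := by
  rw [zz_succ hK]
  refine ⟨pw_left ?_ _, pw_right ?_ _⟩
  · rw [← mul_assoc, ← mul_assoc, zz_idem hK]
  · rw [mul_assoc, zz_idem hK]

theorem zz_le (a : ℕ → S) {i j : ℕ} (hij : i ≤ j) :
    FreeSemigroup.lift a (zz K i) * FreeSemigroup.lift a (zz K j) =
      FreeSemigroup.lift a (zz K j) ∧
    FreeSemigroup.lift a (zz K j) * FreeSemigroup.lift a (zz K i) =
      FreeSemigroup.lift a (zz K j) := by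
  induction j, hij using Nat.le_induction with
  | base => exact ⟨zz_idem hK a i, zz_idem hK a i⟩
  | succ j hij ih =>
    obtain ⟨h1, h2⟩ := zz_le_succ hK a j
    constructor
    · rw [← h1, ← mul_assoc, ih.1]
    · rw [← h2, mul_assoc, ih.2]

theorem exists_without (a : ℕ → S) {k N : ℕ} (hk : k + 1 ≤ N)
    (h : FreeSemigroup.lift a (zz K k) = FreeSemigroup.lift a (zz K (k + 1))) :
    ∃ w : Word, k + 1 ∉ toL w ∧ (∀ j ∈ toL w, j ≤ N) ∧
      FreeSemigroup.lift a w = FreeSemigroup.lift a (zz K N) := by
  induction N, hk using Nat.le_induction with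
  | base =>
    refine ⟨zz K k, fun h0 => ?_, fun j hj => ?_, h⟩
    · have := toL_zz h0; omega
    · have := toL_zz hj; omega
  | succ N hk ih =>
    obtain ⟨w, h1, h2, h3⟩ := ih
    refine ⟨pw (w * FreeSemigroup.of (N + 1) * w) K, ?_, ?_, ?_⟩
    · rw [toL_pw_mem, toL_mul, toL_mul, List.mem_append, List.mem_append, toL_of,
        List.mem_singleton]
      rintro ((h4 | h4) | h4)
      · exact h1 h4
      · omega
      · exact h1 h4
    · intro j hj
      rw [toL_pw_mem, toL_mul, toL_mul, List.mem_append, List.mem_append, toL_of,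
        List.mem_singleton] at hj
      rcases hj with (h4 | h4) | h4
      · have := h2 j h4; omega
      · omega
      · have := h2 j h4; omega
    · rw [map_pw, map_mul, map_mul, FreeSemigroup.lift_of, h3, zz_succ hK]

theorem IrrN.ne {a : ℕ → S} {N : ℕ} (h : IrrN K a N) {i j : ℕ} (hij : i < j) (hj : j ≤ N) :
    FreeSemigroup.lift a (zz K i) ≠ FreeSemigroup.lift a (zz K j) := by
  intro heq
  have h1 : FreeSemigroup.lift a (zz K i) = FreeSemigroup.lift a (zz K (i + 1)) := by
    have h2 := (zz_le hK a (Nat.le_succ i)).2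
    have h3 := (zz_le hK a (show i + 1 ≤ j from hij)).1
    change FreeSemigroup.lift a (zz K (i + 1)) * FreeSemigroup.lift a (zz K i) =
      FreeSemigroup.lift a (zz K (i + 1)) at h2
    rw [← heq] at h3
    rw [← h2, h3]
  obtain ⟨w, h2, h3, h4⟩ := exists_without hK a (N := N) (show i + 1 ≤ N by omega) h1
  exact h (i + 1) (by omega) (by omega) w h2 h3 h4

end

section

variable {K : ℕ} (hK : ∀ (S : Type) [Semigroup S], Mem E S → ∀ s : S, pw s K * pw s K = pw s K)
  (hL : Mem E L2)

include hK hL

/-- extending an irredundant sequence by a new generator -/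
theorem IrrN.ext {n N : ℕ} {a : ℕ → Fr E n} (h : IrrN K a N) :
    IrrN K (fun j => if j ≤ N then Fr.up E (Nat.le_succ n) (a j) else Fr.of (Fin.last n))
      (N + 1) := by
  set a' : ℕ → Fr E (n + 1) := fun j =>
    if j ≤ N then Fr.up E (Nat.le_succ n) (a j) else Fr.of (Fin.last n) with ha'
  have hup : ∀ w : Word, (∀ j ∈ toL w, j ≤ N) →
      FreeSemigroup.lift a' w = Fr.up E (Nat.le_succ n) (FreeSemigroup.lift a w) := by
    intro w hw
    have h1 : FreeSemigroup.lift a' w =
        FreeSemigroup.lift (fun j => Fr.up E (Nat.le_succ n) (a j)) w := by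
      refine lift_congr fun i hi => ?_
      simp only [a', if_pos (hw i hi)]
    rw [h1]
    have h2 : FreeSemigroup.lift (fun j => Fr.up E (Nat.le_succ n) (a j)) =
        (Fr.up E (Nat.le_succ n)).comp (FreeSemigroup.lift a) := by
      refine FreeSemigroup.hom_ext ?_
      funext j
      change FreeSemigroup.lift _ (FreeSemigroup.of j) =
        Fr.up E _ (FreeSemigroup.lift a (FreeSemigroup.of j))
      rw [FreeSemigroup.lift_of, FreeSemigroup.lift_of]
    rw [h2]
    rfl
  intro i hi1 hi2 w hiw hw heq
  by_cases hi : i ≤ N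
  · -- retraction
    let β' : Fr E (n + 1) →ₙ* Fr E n := Fr.snoc (mem_Fr E n) (fun i => Fr.of i) (pw (a 0) K)
    let β : Word →ₙ* Word := FreeSemigroup.lift fun j =>
      if j ≤ N then FreeSemigroup.of j else pw (FreeSemigroup.of 0) K
    have h1 : ∀ v : Word, β' (FreeSemigroup.lift a' v) = FreeSemigroup.lift a (β v) := by
      intro v
      have h2 : β'.comp (FreeSemigroup.lift a') = (FreeSemigroup.lift a).comp β := by
        refine FreeSemigroup.hom_ext ?_
        funext j
        change β' (FreeSemigroup.lift a' (FreeSemigroup.of j)) =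
          FreeSemigroup.lift a (FreeSemigroup.lift _ (FreeSemigroup.of j))
        rw [FreeSemigroup.lift_of, FreeSemigroup.lift_of]
        by_cases hj : j ≤ N
        · simp only [a', if_pos hj]
          rw [FreeSemigroup.lift_of]
          change Fr.snoc _ _ _ (Fr.up E (Nat.le_succ n) (a j)) = _
          rw [Fr.snoc_up, Fr.lift_of_self]
        · simp only [a', if_neg hj]
          rw [map_pw, FreeSemigroup.lift_of]
          exact Fr.snoc_last _ _ _
      exact DFunLike.congr_fun h2 v
    have hβ : ∀ v : Word, (∀ j ∈ toL v, j ≤ N) → β v = v := by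
      intro v hv
      have h2 : β v = FreeSemigroup.lift FreeSemigroup.of v := by
        refine lift_congr fun j hj => ?_
        rw [if_pos (hv j hj)]
      rw [h2]
      have h3 : FreeSemigroup.lift (FreeSemigroup.of : ℕ → Word) = MulHom.id _ := by
        refine FreeSemigroup.hom_ext ?_
        funext j
        change FreeSemigroup.lift _ (FreeSemigroup.of j) = FreeSemigroup.of j
        rw [FreeSemigroup.lift_of]
      rw [h3]
      rfl
    have hβmem : ∀ (v : Word) (j : ℕ), j ∈ toL (β v) → (j ∈ toL v ∧ j ≤ N) ∨ j = 0 := by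
      intro v
      induction v using FreeSemigroup.recOnMul with
      | ih1 l =>
        intro j hj
        change j ∈ toL (FreeSemigroup.lift _ (FreeSemigroup.of l)) at hj
        rw [FreeSemigroup.lift_of] at hj
        by_cases hl : l ≤ N
        · rw [if_pos hl, toL_of, List.mem_singleton] at hj
          subst hj
          exact Or.inl ⟨by rw [toL_of]; exact List.mem_singleton_self _, hl⟩
        · rw [if_neg hl, toL_pw_mem, toL_of, List.mem_singleton] at hj
          exact Or.inr hj
      | ih2 l v h2 h3 =>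
        intro j hj
        rw [map_mul, toL_mul, List.mem_append] at hj
        rw [toL_mul, List.mem_append]
        rcases hj with hj | hj
        · rcases h2 j hj with h4 | h4
          · exact Or.inl ⟨Or.inl h4.1, h4.2⟩
          · exact Or.inr h4
        · rcases h3 j hj with h4 | h4
          · exact Or.inl ⟨Or.inr h4.1, h4.2⟩
          · exact Or.inr h4
    refine h i hi1 hi (β w) ?_ ?_ ?_
    · intro h2
      rcases hβmem w i h2 with h3 | h3
      · exact hiw h3.1
      · omega
    · intro j hj
      rcases hβmem w j hj with h3 | h3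
      · exact h3.2
      · omega
    · rw [← h1, heq, h1]
      have h2 : β (zz K (N + 1)) = pw (zz K N * pw (FreeSemigroup.of 0) K * zz K N) K := by
        rw [zz, map_pw, map_mul, map_mul, hβ _ fun j hj => toL_zz hj]
        congr 3
        change FreeSemigroup.lift _ (FreeSemigroup.of (N + 1)) = _
        rw [FreeSemigroup.lift_of, if_neg (by omega)]
      rw [h2, map_pw, map_mul, map_mul]
      have h3 := (zz_le (hK _ (mem_Fr E n)) a (Nat.zero_le N)).2
      have h4 : FreeSemigroup.lift a (zz K 0) =
        FreeSemigroup.lift a (pw (FreeSemigroup.of 0) K) := rfl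
      rw [h4] at h3
      rw [h3, zz_idem (hK _ (mem_Fr E n)), pw_idem (zz_idem (hK _ (mem_Fr E n)) a N)]
  · -- content
    have hi' : i = N + 1 := by omega
    subst hi'
    have hw' : ∀ j ∈ toL w, j ≤ N := by
      intro j hj
      have h1 := hw j hj
      have h2 : j ≠ N + 1 := by
        rintro rfl
        exact hiw hj
      omega
    have h1 := congrArg (chi hL (Fin.last n)) heq
    rw [hup w hw', chi_last_up, zz_succ (hK _ (mem_Fr E (n + 1))), map_pw, map_mul, map_mul] at h1
    have h2 : a' (N + 1) = Fr.of (Fin.last n) := by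
      simp only [a']
      rw [if_neg (by omega)]
    rw [h2, chi_of_self, L2.mul_tt, L2.tt_mul, pw_idem (L2.idem _)] at h1
    exact L2.ne h1

theorem exists_IrrN {n : ℕ} (hn : 1 ≤ n) (hiso : IsoH E n) (N : ℕ) :
    ∃ a : ℕ → Fr E n, IrrN K a N := by
  induction N with
  | zero =>
    refine ⟨fun _ => Fr.of ⟨0, hn⟩, fun i h1 h2 => ?_⟩
    omega
  | succ N ih =>
    obtain ⟨a, ha⟩ := ih
    have ha' := ha.ext hK hL
    set a' : ℕ → Fr E (n + 1) := fun j =>
      if j ≤ N then Fr.up E (Nat.le_succ n) (a j) else Fr.of (Fin.last n) with ha'def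
    obtain ⟨θ, hθ⟩ := hiso (FreeSemigroup.lift a' (zz K (N + 1)))
    refine ⟨fun j => θ (a' j), fun i hi1 hi2 w h1 h2 heq => ?_⟩
    have h3 : ∀ v : Word, FreeSemigroup.lift (fun j => θ (a' j)) v =
        θ (FreeSemigroup.lift a' v) := by
      intro v
      have h4 : FreeSemigroup.lift (fun j => θ (a' j)) = θ.comp (FreeSemigroup.lift a') := by
        refine FreeSemigroup.hom_ext ?_
        funext j
        change FreeSemigroup.lift _ (FreeSemigroup.of j) =
          θ (FreeSemigroup.lift a' (FreeSemigroup.of j))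
        rw [FreeSemigroup.lift_of, FreeSemigroup.lift_of]
      rw [h4]
      rfl
    rw [h3, h3] at heq
    exact ha' i hi1 hi2 w h1 h2 (hθ _ heq)

theorem not_isoH_of_chainBound {n : ℕ} (hn : 1 ≤ n) {B : ℕ} (hB : ChainBound (Fr E n) B) :
    ¬ IsoH E n := by
  intro hiso
  obtain ⟨a, ha⟩ := exists_IrrN hK hL hn hiso B
  have hK' := hK _ (mem_Fr E n)
  obtain ⟨i, j, hij, heq⟩ := hB (fun i => FreeSemigroup.lift a (zz K i.val))
    (fun i => zz_idem hK' a _) (fun i j hij => zz_le hK' a (le_of_lt hij))
  exact ha.ne hK' hij (Nat.lt_succ_iff.1 j.isLt) heq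

end

theorem powWord_eq (k : ℕ) : powWord k = pw (FreeSemigroup.of 0) k := by
  induction k with
  | zero => rfl
  | succ k ih =>
    rw [pw_succ, ← ih]
    unfold powWord
    rw [List.replicate_succ']
    rfl

theorem Periodic.exists_pw (h : Periodic E) :
    ∃ K : ℕ, ∀ (S : Type) [Semigroup S], Mem E S → ∀ s : S, pw s K * pw s K = pw s K := by
  obtain ⟨k, d, hd, hkd⟩ := h
  rw [powWord_eq, powWord_eq] at hkd
  refine ⟨(k + 1) * d - 1, fun S _ hS s => ?_⟩
  have h1 : pw s k = pw s (k + d) := by
    have h2 := hkd S hS (FreeSemigroup.lift fun _ => s)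
    rw [map_pw, map_pw, FreeSemigroup.lift_of] at h2
    exact h2
  have h2 : ∀ j, k ≤ j → pw s j = pw s (j + d) := by
    intro j hj
    induction j, hj using Nat.le_induction with
    | base => exact h1
    | succ j hj ih => rw [show j + 1 + d = j + d + 1 by ring, pw_succ, pw_succ, ← ih]
  have h3 : ∀ q j, k ≤ j → pw s j = pw s (j + q * d) := by
    intro q
    induction q with
    | zero => intro j _; rw [Nat.zero_mul, Nat.add_zero]
    | succ q ih =>
      intro j hj
      rw [show j + (q + 1) * d = (j + q * d) + d by ring, ← h2 _ (by omega), ← ih j hj]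
  have h4 : k + 1 ≤ (k + 1) * d := Nat.le_mul_of_pos_right _ hd
  rw [← pw_add, h3 (k + 1) ((k + 1) * d - 1) (by omega)]
  congr 1
  omega

theorem L2_mem (h : ContainsSemilattices E) : Mem E L2 :=
  h L2 (fun a b => Bool.or_comm a b) L2.idem

theorem separated_of_chainBound (hP : Periodic E) (hL : ContainsSemilattices E)
    (hB : ∀ n, 1 ≤ n → ∃ B, ChainBound (Fr E n) B) : Separated E := by
  obtain ⟨K, hK⟩ := hP.exists_pw
  rw [separated_iff]
  intro n hn
  obtain ⟨B, hB'⟩ := hB n hn
  exact not_isoH_of_chainBound hK (L2_mem hL) hn hB'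

end Pool.Agent.Lib.MP_b02441_al
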