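import Pool.Agent.Lib.MP_b02441_al.Defs

/-!
# Definitions for MP_b02441_al: periodic varieties, semilattices, chains of idempotents, the
Brandt semigroup
-/

set_option autoImplicit false

namespace Pool.Agent.Lib.MP_b02441_al

/-- The word `x_0 ^ (k + 1)`. -/
def powWord (k : ℕ) : Word := ⟨0, List.replicate k 0⟩

/-- The variety is periodic: it satisfies `x ^ (k + 1) = x ^ (k + 1 + d)` for some `d ≥ 1`. -/
def Periodic (E : Set (Word × Word)) : Prop :=
  ∃ k d : ℕ, 1 ≤ d ∧ Holds E (powWord k) (powWord (k + d))

/-- The variety contains all semilattices: every commutative idempotent semigroup is a member. -/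
def ContainsSemilattices (E : Set (Word × Word)) : Prop :=
  ∀ (S : Type) [Semigroup S], (∀ a b : S, a * b = b * a) → (∀ a : S, a * a = a) → Mem E S

/-- In the semigroup `S`, no strictly descending chain of idempotents has more than `K` members:
every descending sequence `e_0 ≥ e_1 ≥ ⋯ ≥ e_K` of idempotents has a repetition. -/
def ChainBound (S : Type) [Semigroup S] (K : ℕ) : Prop :=
  ∀ e : Fin (K + 1) → S, (∀ i, e i * e i = e i) →
    (∀ i j, i < j → e i * e j = e j ∧ e j * e i = e j) → ∃ i j, i < j ∧ e i = e j

/-- The five-element Brandt semigroup `B_2`: the four `2 × 2` matrix units `e_{ij}` (`unit i j`)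
and the zero matrix (`zero`). -/
inductive B2 : Type
  | zero : B2
  | unit (i j : Bool) : B2

/-- Multiplication of matrix units: `e_{ij} e_{kl} = e_{il}` if `j = k`, and otherwise zero. -/
def B2.mul : B2 → B2 → B2
  | .unit i j, .unit k l => if j = k then .unit i l else .zero
  | _, _ => .zero

instance : Semigroup B2 where
  mul := B2.mul
  mul_assoc := by
    intro a b c
    change B2.mul (B2.mul a b) c = B2.mul a (B2.mul b c)
    rcases a with _ | ⟨i, j⟩
    · rfl
    · rcases b with _ | ⟨k, l⟩
      · rfl
      · rcases c with _ | ⟨p, q⟩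
        · cases j <;> cases k <;> rfl
        · cases j <;> cases k <;> cases l <;> cases p <;> rfl

end Pool.Agent.Lib.MP_b02441_al
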