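import Pool.Agent.Lib.MP_b02441_al.Rel

/-!
# Definitions for MP_b02441_al: locked words
-/

set_option autoImplicit false

namespace Pool.Agent.Lib.MP_b02441_al

/-- The adjacency graph of the word `w`: it has two vertices `Sum.inl x`, `Sum.inr x` (the end and
the beginning) for every letter `x`, and `Sum.inl x` is joined with `Sum.inr y` if `x y` is a factor
of `w`. -/
def Adj (w : Word) (s t : ℕ ⊕ ℕ) : Prop :=
  ∃ (x y : ℕ) (a b : List ℕ), toL w = a ++ x :: y :: b ∧ s = Sum.inl x ∧ t = Sum.inr y

/-- The vertices `s` and `t` lie in the same connected component of the adjacency graph of `w`. -/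
def Conn (w : Word) (s t : ℕ ⊕ ℕ) : Prop := Relation.EqvGen (Adj w) s t

/-- The word `w` is locked: for every letter `x` of `w` the two vertices of `x` lie in the same
connected component of the adjacency graph. -/
def Locked (w : Word) : Prop := ∀ x ∈ toL w, Conn w (Sum.inl x) (Sum.inr x)

/-- The words `u` and `v` contain the same letters. -/
def SameLetters (u v : Word) : Prop := ∀ i, i ∈ toL u ↔ i ∈ toL v

/-- The identities `E` together with the identities `w y = w = y w` (`w ∈ Z`, `y` a letter which
does not occur in `w`), which say that the value of `w` is a zero element. -/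
def withZeros (E : Set (Word × Word)) (Z : Set Word) : Set (Word × Word) :=
  E ∪ {e | ∃ w ∈ Z, ∃ y : ℕ, y ∉ toL w ∧
    (e = (w * FreeSemigroup.of y, w) ∨ e = (FreeSemigroup.of y * w, w))}

end Pool.Agent.Lib.MP_b02441_al
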