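import Pool.Agent.Lib.MP_b02441_al.SqA
import Pool.Agent.Lib.MP_b02441_al.SqDefs

/-!
# Varieties defined by identities between locked words (for MP_b02441_al)
-/

set_option autoImplicit false
set_option linter.unusedVariables false

namespace Pool.Agent.Lib.MP_b02441_al

section

variable {S : Type} [Semigroup S] {L : ℕ}

theorem ev_congr {f g : ℕ → S} {l : List ℕ} (h : ∀ i ∈ l, f i = g i) : ev f l = ev g l := by
  unfold ev
  congr 1
  exact List.map_congr_left fun i hi => by rw [h i hi]

theorem ev_lift (c : ℕ → S) (w : Word) : ev c (toL w) = (FreeSemigroup.lift c w : WithOne S) := by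
  rw [← ev_toL]
  exact ev_congr fun i _ => (FreeSemigroup.lift_of c i).symm

theorem R_mul_Z0 (s' : St) (h : WithOne S) (s : St) : R s' h s * Z0 = Z0 := rfl

theorem prodR {F : ℕ → Function.End (Om S)} {s : St} {c : ℕ → S} :
    ∀ l : List ℕ, l ≠ [] → (∀ i ∈ l, F i = R s (c i : WithOne S) s) →
      (l.map F).prod = R s (ev c l) s := by
  intro l
  induction l with
  | nil => intro h; exact absurd rfl h
  | cons i l ih =>
    intro _ hF
    rw [List.map_cons, List.prod_cons, hF i List.mem_cons_self]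
    by_cases hl : l = []
    · subst hl
      rw [List.map_nil, List.prod_nil, mul_one, ev_singleton]
    · rw [ih hl fun j hj => hF j (List.mem_cons_of_mem _ hj), R_R, ev_cons]

/-- `f` maps an element with the state `s` to an element with the state `s'` -/
def Step (f : Function.End (Om S)) (s' s : St) : Prop :=
  ∃ g g' : WithOne S, f (some (g, s)) = some (g', s')

/-- the type of a state -/
def coarse : St → Fin 3
  | .o => 0
  | .l _ => 1
  | .r _ => 2

theorem nrm_some {g g' : WithOne S} {s s' : St} (h : nrm g s = some (g', s')) : s = s' := by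
  by_cases hz : IsZ g
  · rw [nrm_of hz] at h
    cases h
  · rw [nrm_not hz] at h
    exact (Prod.mk.inj (Option.some.inj h)).2

theorem Step.R {u' u s' s : St} {h : WithOne S} (hs : Step (R u' h u) s' s) : s' = u' ∧ s = u := by
  obtain ⟨g, g', h1⟩ := hs
  by_cases hu : s = u
  · subst hu
    rw [R_some_eq] at h1
    exact ⟨(nrm_some h1).symm, rfl⟩
  · rw [R_some_ne _ _ _ hu] at h1
    cases h1

theorem Step.BB {x : Fin 3 → Fin L → S} {b : Fin L} {s' s : St} (hs : Step (BB x b) s' s) :
    coarse s' = 1 ∧ coarse s = 2 := by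
  obtain ⟨g, g', h1⟩ := hs
  rcases s with _ | a | a
  · rw [BB_o] at h1; cases h1
  · rw [BB_l] at h1; cases h1
  · rw [BB_r] at h1
    rw [← nrm_some h1]
    exact ⟨rfl, rfl⟩

theorem Step.Z0 {s' s : St} (hs : Step (Z0 : Function.End (Om S)) s' s) : False := by
  obtain ⟨g, g', h1⟩ := hs
  cases h1

theorem PP.none {x : Fin 3 → Fin L → S} {f : Function.End (Om S)} (hf : PP x f) :
    f none = none := by
  rcases hf with rfl | ⟨b, rfl⟩ | ⟨s', h, s, rfl, -⟩
  · rfl
  · rfl
  · rfl

section

variable {F : ℕ → Function.End (Om S)}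

theorem prod_none (hF : ∀ i, F i none = none) (l : List ℕ) :
    (l.map F).prod none = none := by
  induction l with
  | nil => rfl
  | cons i l ih =>
    rw [List.map_cons, List.prod_cons]
    change F i ((l.map F).prod none) = none
    rw [ih, hF]

theorem step_of_mem (hF : ∀ i, F i none = none) {a b : List ℕ} {i : ℕ}
    {ω : Om S} (h : ((a ++ i :: b).map F).prod ω ≠ none) : ∃ s' s, Step (F i) s' s := by
  rw [List.map_append, List.prod_append, List.map_cons, List.prod_cons] at h
  change (a.map F).prod (F i ((b.map F).prod ω)) ≠ none at h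
  rcases h1 : (b.map F).prod ω with _ | ⟨g, s⟩
  · rw [h1, hF, prod_none hF] at h
    exact absurd rfl h
  · rcases h2 : F i (some (g, s)) with _ | ⟨g', s'⟩
    · rw [h1, h2, prod_none hF] at h
      exact absurd rfl h
    · exact ⟨s', s, g, g', h2⟩

theorem steps_of_factor (hF : ∀ i, F i none = none) {a b : List ℕ} {i j : ℕ}
    {ω : Om S} (h : ((a ++ i :: j :: b).map F).prod ω ≠ none) :
    ∃ s₁ s₂ s₃, Step (F i) s₁ s₂ ∧ Step (F j) s₂ s₃ := by
  rw [List.map_append, List.prod_append, List.map_cons, List.prod_cons, List.map_cons,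
    List.prod_cons] at h
  change (a.map F).prod (F i (F j ((b.map F).prod ω))) ≠ none at h
  rcases h1 : (b.map F).prod ω with _ | ⟨g, s⟩
  · rw [h1, hF, hF, prod_none hF] at h
    exact absurd rfl h
  · rcases h2 : F j (some (g, s)) with _ | ⟨g', s'⟩
    · rw [h1, h2, hF, prod_none hF] at h
      exact absurd rfl h
    · rcases h3 : F i (some (g', s')) with _ | ⟨g'', s''⟩
      · rw [h1, h2, h3, prod_none hF] at h
        exact absurd rfl h
      · exact ⟨s'', s', s, ⟨g', g'', h3⟩, ⟨g, g', h2⟩⟩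

/-- the value of a vertex of the adjacency graph -/
def vval {α : Type} (F : ℕ → Function.End (Om S)) (τ : St → α) : ℕ ⊕ ℕ → α → Prop
  | .inl i, c => ∃ s' s, Step (F i) s' s ∧ τ s = c
  | .inr i, c => ∃ s' s, Step (F i) s' s ∧ τ s' = c

theorem tau_eq {α : Type} (hF : ∀ i, F i none = none) {w : Word} (hw : Locked w) {ω : Om S}
    (h : ((toL w).map F).prod ω ≠ none) (τ : St → α)
    (hτ : ∀ i ∈ toL w, ∀ s' s t' t, Step (F i) s' s → Step (F i) t' t → τ s' = τ t' ∧ τ s = τ t)
    {i : ℕ} (hi : i ∈ toL w) {s' s : St} (hs : Step (F i) s' s) : τ s' = τ s := by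
  have h1 : ∀ u v : ℕ ⊕ ℕ, Adj w u v → ∀ c, vval F τ u c ↔ vval F τ v c := by
    rintro u v ⟨x, y, a, b, hab, rfl, rfl⟩ c
    have hx : x ∈ toL w := by rw [hab]; simp
    have hy : y ∈ toL w := by rw [hab]; simp
    rw [hab] at h
    obtain ⟨s₁, s₂, s₃, h1, h2⟩ := steps_of_factor hF h
    constructor
    · rintro ⟨t', t, h3, h4⟩
      exact ⟨s₂, s₃, h2, (hτ x hx _ _ _ _ h1 h3).2.trans h4⟩
    · rintro ⟨t', t, h3, h4⟩
      exact ⟨s₁, s₂, h1, (hτ y hy _ _ _ _ h2 h3).1.trans h4⟩
  have h2 : ∀ u v : ℕ ⊕ ℕ, Conn w u v → ∀ c, vval F τ u c ↔ vval F τ v c := by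
    intro u v huv
    induction huv with
    | rel u v huv => exact h1 u v huv
    | refl u => exact fun c => Iff.rfl
    | symm u v _ ih => exact fun c => (ih c).symm
    | trans u v w _ _ ih ih' => exact fun c => (ih c).trans (ih' c)
  obtain ⟨t', t, h3, h4⟩ := (h2 _ _ (hw i hi) (τ s)).1 ⟨s', s, hs, rfl⟩
  exact (hτ i hi _ _ _ _ hs h3).1.trans h4

end

theorem same_state {F : ℕ → Function.End (Om S)} {σ : ℕ → St} {c : ℕ → S} :
    ∀ l : List ℕ, (∀ i ∈ l, F i = R (σ i) (c i : WithOne S) (σ i)) → (l.map F).prod ≠ Z0 →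
      ∀ i ∈ l, ∀ j ∈ l, σ i = σ j := by
  intro l
  induction l with
  | nil => intro _ _ i hi; exact absurd hi List.not_mem_nil
  | cons i l ih =>
    intro hF hne
    have hFi := hF i List.mem_cons_self
    have hne' : (l.map F).prod ≠ Z0 := by
      intro h
      apply hne
      rw [List.map_cons, List.prod_cons, h, hFi, R_mul_Z0]
    have h1 := ih (fun j hj => hF j (List.mem_cons_of_mem _ hj)) hne'
    cases l with
    | nil =>
      intro a ha b hb
      rw [List.mem_singleton] at ha hb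
      rw [ha, hb]
    | cons j l =>
      have hFj := hF j (List.mem_cons_of_mem _ List.mem_cons_self)
      have hij : σ j = σ i := by
        by_contra h
        apply hne
        rw [List.map_cons, List.prod_cons, List.map_cons, List.prod_cons, ← mul_assoc, hFi, hFj,
          R_R_ne _ _ _ _ h, Z0_mul]
      have h2 : ∀ a ∈ i :: j :: l, σ a = σ j := by
        intro a ha
        rcases List.mem_cons.1 ha with rfl | ha
        · exact hij.symm
        · exact h1 a ha j List.mem_cons_self
      intro a ha b hb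
      rw [h2 a ha, h2 b hb]

variable (x : Fin 3 → Fin L → S)

theorem TT_val (φ : Word →ₙ* TT x) (w : Word) :
    (φ w).1 = ((toL w).map fun i => (φ (FreeSemigroup.of i)).1).prod := by
  induction w using FreeSemigroup.recOnMul with
  | ih1 i => rw [toL_of, List.map_cons, List.map_nil, List.prod_cons, List.prod_nil, mul_one]
  | ih2 i w hx hy =>
    rw [map_mul, toL_mul, List.map_append, List.prod_append, ← hx, ← hy]
    rfl

theorem TT_key [Nonempty S] (φ : Word →ₙ* TT x) (w : Word) (hw : Locked w)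
    (hne : (φ w).1 ≠ Z0) : ∃ (s : St) (c : ℕ → S), ∀ i ∈ toL w,
      (φ (FreeSemigroup.of i)).1 = R s (c i : WithOne S) s := by
  classical
  have hP : ∀ v : Word, PP x (φ v).1 := fun v => (φ v).2
  let F : ℕ → Function.End (Om S) := fun i => (φ (FreeSemigroup.of i)).1
  have hF : ∀ i, F i none = none := fun i => (hP _).none
  obtain ⟨ω, hω⟩ : ∃ ω, ((toL w).map F).prod ω ≠ none := by
    by_contra h0
    push Not at h0
    apply hne
    rw [TT_val]
    funext ω
    exact h0 ω
  have hstep : ∀ i ∈ toL w, ∃ s' s, Step (F i) s' s := by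
    intro i hi
    obtain ⟨a, b, hab⟩ := List.append_of_mem hi
    rw [hab] at hω
    exact step_of_mem hF hω
  -- types
  have hc : ∀ i ∈ toL w, ∀ s' s t' t, Step (F i) s' s → Step (F i) t' t →
      coarse s' = coarse t' ∧ coarse s = coarse t := by
    intro i hi s' s t' t h1 h2
    rcases hP (FreeSemigroup.of i) with h | ⟨b, h⟩ | ⟨u', g, u, h, -⟩
    · change F i = Z0 at h
      rw [h] at h1
      exact absurd h1.Z0 id
    · change F i = BB x b at h
      rw [h] at h1 h2
      rw [h1.BB.1, h1.BB.2, h2.BB.1, h2.BB.2]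
      exact ⟨rfl, rfl⟩
    · change F i = R u' g u at h
      rw [h] at h1 h2
      rw [h1.R.1, h1.R.2, h2.R.1, h2.R.2]
      exact ⟨rfl, rfl⟩
  have hc' : ∀ i ∈ toL w, ∀ s' s, Step (F i) s' s → coarse s' = coarse s :=
    fun i hi s' s hs => tau_eq hF hw hω coarse hc hi hs
  -- all letters are mapped to elements of the first kind
  have hR : ∀ i ∈ toL w, ∃ u' g u, F i = R u' g u ∧ (g ≠ 1 ∨ Short u' u) := by
    intro i hi
    obtain ⟨s', s, hs⟩ := hstep i hi
    rcases hP (FreeSemigroup.of i) with h | ⟨b, h⟩ | h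
    · change F i = Z0 at h
      rw [h] at hs
      exact absurd hs.Z0 id
    · change F i = BB x b at h
      have h1 := hc' i hi s' s hs
      rw [h] at hs
      rw [hs.BB.1, hs.BB.2] at h1
      exact absurd h1 (by decide)
    · exact h
  have hs : ∀ i ∈ toL w, ∀ s' s t' t, Step (F i) s' s → Step (F i) t' t →
      (id s' : St) = id t' ∧ (id s : St) = id t := by
    intro i hi s' s t' t h1 h2
    obtain ⟨u', g, u, h, -⟩ := hR i hi
    rw [h] at h1 h2
    exact ⟨h1.R.1.trans h2.R.1.symm, h1.R.2.trans h2.R.2.symm⟩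
  have h1 : ∀ i ∈ toL w, ∃ (s : St) (c : S), F i = R s (c : WithOne S) s := by
    intro i hi
    obtain ⟨s', s, hss⟩ := hstep i hi
    have h2 : s' = s := tau_eq hF hw hω id hs hi hss
    obtain ⟨u', g, u, h, hg⟩ := hR i hi
    rw [h] at hss
    have h3 : u' = u := by rw [← hss.R.1, ← hss.R.2, h2]
    subst h3
    obtain ⟨c, hc⟩ := WithOne.ne_one_iff_exists.1 (hg.resolve_right (Short.irrefl _))
    exact ⟨u', c, by rw [h, hc]⟩
  have h2 : ∀ i, ∃ (s : St) (c : S), i ∈ toL w →
      (φ (FreeSemigroup.of i)).1 = R s (c : WithOne S) s := by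
    intro i
    by_cases hi : i ∈ toL w
    · obtain ⟨s, c, h⟩ := h1 i hi
      exact ⟨s, c, fun _ => h⟩
    · obtain ⟨c⟩ := ‹Nonempty S›
      exact ⟨.o, c, fun h => absurd h hi⟩
  choose σ c hσ using h2
  have h3 := same_state (F := fun i => (φ (FreeSemigroup.of i)).1) (toL w) (fun i hi => hσ i hi)
    (by rw [← TT_val]; exact hne)
  have h0 : w.head ∈ toL w := List.mem_cons_self
  refine ⟨σ w.head, c, fun i hi => ?_⟩
  rw [h3 w.head h0 i hi]
  exact hσ i hi

theorem TT_eval {φ : Word →ₙ* TT x} {w : Word} {s : St} {c : ℕ → S}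
    (h : ∀ i ∈ toL w, (φ (FreeSemigroup.of i)).1 = R s (c i : WithOne S) s) :
    (φ w).1 = R s (FreeSemigroup.lift c w : WithOne S) s := by
  rw [TT_val, prodR _ (toL_ne w) h, ev_lift]

theorem mem_TT [Nonempty S] {E : Set (Word × Word)} {Z : Set Word}
    (hE : ∀ e ∈ E, Locked e.1 ∧ Locked e.2 ∧ SameLetters e.1 e.2)
    (hZ : ∀ w ∈ Z, Locked w) (hS : Mem (withZeros E Z) S) : Mem (withZeros E Z) (TT x) := by
  classical
  intro e he φ
  rcases he with he | ⟨w, hw, y, hy, he⟩
  · obtain ⟨h1, h2, h3⟩ := hE e he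
    have key : ∀ (s : St) (c : ℕ → S),
        (∀ i ∈ toL e.1, (φ (FreeSemigroup.of i)).1 = R s (c i : WithOne S) s) →
        φ e.1 = φ e.2 := by
      intro s c h
      apply Subtype.ext
      rw [TT_eval x h, TT_eval x fun i hi => h i ((h3 i).2 hi),
        hS e (Or.inl he) (FreeSemigroup.lift c)]
    by_cases h4 : (φ e.1).1 = Z0
    · by_cases h5 : (φ e.2).1 = Z0
      · apply Subtype.ext
        rw [h4, h5]
      · obtain ⟨s, c, h⟩ := TT_key x φ e.2 h2 h5
        exact key s c fun i hi => h i ((h3 i).1 hi)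
    · obtain ⟨s, c, h⟩ := TT_key x φ e.1 h1 h4
      exact key s c h
  · have hw0 : (φ w).1 = Z0 := by
      by_contra h0
      obtain ⟨s, c, h⟩ := TT_key x φ w (hZ w hw) h0
      apply h0
      rw [TT_eval x h]
      refine R_zero ⟨FreeSemigroup.lift c w, rfl, fun d => ?_⟩ s s
      let c' : ℕ → S := fun i => if i = y then d else c i
      have hc : FreeSemigroup.lift c' w = FreeSemigroup.lift c w := by
        have h5 : ev c' (toL w) = ev c (toL w) := ev_congr fun i hi => by
          have hne : i ≠ y := by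
            rintro rfl
            exact hy hi
          simp only [c', if_neg hne]
        rw [ev_lift, ev_lift, WithOne.coe_inj] at h5
        exact h5
      have hd : FreeSemigroup.lift c' (FreeSemigroup.of y) = d := by
        rw [FreeSemigroup.lift_of]
        simp only [c', if_true]
      constructor
      · have h6 := hS (w * FreeSemigroup.of y, w) (Or.inr ⟨w, hw, y, hy, Or.inl rfl⟩)
          (FreeSemigroup.lift c')
        change FreeSemigroup.lift c' (w * FreeSemigroup.of y) = FreeSemigroup.lift c' w at h6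
        rw [map_mul, hc, hd] at h6
        exact h6
      · have h6 := hS (FreeSemigroup.of y * w, w) (Or.inr ⟨w, hw, y, hy, Or.inr rfl⟩)
          (FreeSemigroup.lift c')
        change FreeSemigroup.lift c' (FreeSemigroup.of y * w) = FreeSemigroup.lift c' w at h6
        rw [map_mul, hc, hd] at h6
        exact h6
    have hP : PP x (φ (FreeSemigroup.of y)).1 := (φ (FreeSemigroup.of y)).2
    rcases he with rfl | rfl
    · apply Subtype.ext
      change (φ (w * FreeSemigroup.of y)).1 = (φ w).1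
      rw [map_mul]
      change (φ w).1 * (φ (FreeSemigroup.of y)).1 = (φ w).1
      rw [hw0, Z0_mul]
    · apply Subtype.ext
      change (φ (FreeSemigroup.of y * w)).1 = (φ w).1
      rw [map_mul]
      change (φ (FreeSemigroup.of y)).1 * (φ w).1 = (φ w).1
      rw [hw0, hP.mul_Z0]

end

section

variable {E : Set (Word × Word)} {Z : Set Word}

theorem R_oo_inj {S : Type} [Semigroup S] {u v : S}
    (h : R .o (u : WithOne S) .o = R .o (v : WithOne S) .o) : u = v := by
  have h1 := congrFun h (some (1, .o))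
  rw [R_some_eq, R_some_eq, mul_one, mul_one] at h1
  by_cases hu : IsZ (u : WithOne S)
  · by_cases hv : IsZ (v : WithOne S)
    · exact WithOne.coe_inj.1 (hu.unique hv)
    · rw [nrm_of hu, nrm_not hv] at h1
      cases h1
  · by_cases hv : IsZ (v : WithOne S)
    · rw [nrm_not hu, nrm_of hv] at h1
      cases h1
    · rw [nrm_not hu, nrm_not hv] at h1
      have h2 := Option.some.inj h1
      exact WithOne.coe_inj.1 (Prod.mk.inj h2).1

theorem isoH_sq (hE : ∀ e ∈ E, Locked e.1 ∧ Locked e.2 ∧ SameLetters e.1 e.2)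
    (hZ : ∀ w ∈ Z, Locked w) {n : ℕ} (hn : 10 ≤ n) : IsoH (withZeros E Z) n := by
  classical
  set V := withZeros E Z with hV
  obtain ⟨L, rfl⟩ : ∃ L, n = L + 6 := ⟨n - 6, by omega⟩
  let x : Fin 3 → Fin L → Fr V (L + 6 + 1) := fun a b =>
    if h : 3 * b.val + a.val < L + 6 + 1 then Fr.of ⟨3 * b.val + a.val, h⟩ else Fr.of 0
  have hne : Nonempty (Fr V (L + 6 + 1)) := ⟨Fr.of 0⟩
  have hT : Mem V (TT x) := mem_TT x hE hZ (mem_Fr V _)
  let gn : Fin (L + 6) → TT x := fun j =>
    if h : j.val < 3 then ⟨R .o 1 (.l ⟨j.val, h⟩), Or.inr (Or.inr ⟨_, _, _, rfl, Or.inr trivial⟩)⟩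
    else if h' : j.val < 6 then
      ⟨R (.r ⟨j.val - 3, by omega⟩) 1 .o, Or.inr (Or.inr ⟨_, _, _, rfl, Or.inr trivial⟩)⟩
    else ⟨BB x ⟨j.val - 6, by have := j.isLt; omega⟩, Or.inr (Or.inl ⟨_, rfl⟩)⟩
  let A : Fin 3 → Fr V (L + 6) := fun a => Fr.of ⟨a.val, by have := a.isLt; omega⟩
  let C : Fin 3 → Fr V (L + 6) := fun a => Fr.of ⟨3 + a.val, by have := a.isLt; omega⟩
  let B : Fin L → Fr V (L + 6) := fun b => Fr.of ⟨6 + b.val, by have := b.isLt; omega⟩
  let ζ : Fr V (L + 6) →ₙ* TT x := Fr.lift hT gn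
  have hA : ∀ a, (ζ (A a)).1 = R .o 1 (.l a) := by
    intro a
    have h1 : ζ (A a) = gn ⟨a.val, by have := a.isLt; omega⟩ := Fr.lift_of hT gn _
    rw [h1]
    simp only [gn]
    rw [dif_pos a.isLt]
  have hC : ∀ a, (ζ (C a)).1 = R (.r a) 1 .o := by
    intro a
    have h1 : ζ (C a) = gn ⟨3 + a.val, by have := a.isLt; omega⟩ := Fr.lift_of hT gn _
    rw [h1]
    simp only [gn]
    rw [dif_neg (by omega), dif_pos (by have := a.isLt; omega)]
    have h2 : (⟨3 + a.val - 3, by have := a.isLt; omega⟩ : Fin 3) = a := by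
      apply Fin.ext
      simp
    rw [h2]
  have hB : ∀ b, (ζ (B b)).1 = BB x b := by
    intro b
    have h1 : ζ (B b) = gn ⟨6 + b.val, by have := b.isLt; omega⟩ := Fr.lift_of hT gn _
    rw [h1]
    simp only [gn]
    rw [dif_neg (by omega), dif_neg (by omega)]
    have h2 : (⟨6 + b.val - 6, by have := b.isLt; omega⟩ : Fin L) = b := by
      apply Fin.ext
      simp
    rw [h2]
  let ia : Fin (L + 6 + 1) → Fin 3 := fun i => ⟨i.val % 3, Nat.mod_lt _ (by omega)⟩
  let ib : Fin (L + 6 + 1) → Fin L := fun i => ⟨i.val / 3, by have := i.isLt; omega⟩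
  let θ : Fr V (L + 6 + 1) →ₙ* Fr V (L + 6) :=
    Fr.lift (mem_Fr V _) fun i => A (ia i) * B (ib i) * C (ia i)
  have key : ∀ U : Fr V (L + 6 + 1), (ζ (θ U)).1 = R .o (U : WithOne (Fr V (L + 6 + 1))) .o := by
    intro U
    induction U using Fr.induction with
    | h1 i =>
      have h1 : θ (Fr.of i) = A (ia i) * B (ib i) * C (ia i) := Fr.lift_of _ _ _
      rw [h1, map_mul, map_mul]
      change (ζ (A (ia i))).1 * (ζ (B (ib i))).1 * (ζ (C (ia i))).1 = _
      rw [hA, hB, hC, R_B, R_R, one_mul, mul_one]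
      have h2 : x (ia i) (ib i) = Fr.of i := by
        simp only [x]
        have h3 : 3 * (ib i).val + (ia i).val = i.val := by
          change 3 * (i.val / 3) + i.val % 3 = i.val
          omega
        rw [dif_pos (by rw [h3]; exact i.isLt)]
        congr 1
        exact Fin.ext h3
      rw [h2]
    | h2 u v hu hv =>
      rw [map_mul, map_mul]
      change (ζ (θ u)).1 * (ζ (θ v)).1 = _
      rw [hu, hv, R_R, WithOne.coe_mul]
  intro U
  refine ⟨θ, fun U' h => ?_⟩
  apply R_oo_inj
  rw [← key, ← key, h]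

theorem InclEquiv.refl' (S : Type) [Semigroup S] : InclEquiv S S := fun _ _ _ => Iff.rfl

theorem inclEquiv_of_isoH {V : Set (Word × Word)} {n : ℕ} (hn : 1 ≤ n) (hiso : IsoH V n) :
    InclEquiv (Fr V n) (Fr V (n + 1)) := by
  intro u W _
  constructor
  · intro hs φ
    obtain ⟨θ, hθ⟩ := hiso (φ u)
    obtain ⟨w, hw, hw2⟩ := hs (θ.comp φ)
    exact ⟨w, hw, (hθ _ hw2.symm).symm⟩
  · intro hs φ
    obtain ⟨w, hw, hw2⟩ := hs ((Fr.up V (Nat.le_succ n)).comp φ)
    exact ⟨w, hw, Fr.up_injective (Nat.le_succ n) (by omega) hw2⟩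

theorem inclEquiv_of_forall {V : Set (Word × Word)} {m n : ℕ} (hm : 1 ≤ m) (hmn : m ≤ n)
    (hiso : ∀ k, m ≤ k → IsoH V k) : InclEquiv (Fr V m) (Fr V n) := by
  induction n, hmn using Nat.le_induction with
  | base => exact InclEquiv.refl' _
  | succ n hmn ih =>
    intro u W hW
    rw [ih u W hW]
    exact inclEquiv_of_isoH (hm.trans hmn) (hiso n hmn) u W hW

/-- all the free semigroups of rank at least ten are inclusively equivalent -/
theorem inclEquiv_sq (hE : ∀ e ∈ E, Locked e.1 ∧ Locked e.2 ∧ SameLetters e.1 e.2)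
    (hZ : ∀ w ∈ Z, Locked w) {m n : ℕ} (hm : 10 ≤ m) (hn : 10 ≤ n) :
    InclEquiv (Fr (withZeros E Z) m) (Fr (withZeros E Z) n) := by
  rcases Nat.le_total m n with h | h
  · exact inclEquiv_of_forall (by omega) h fun k hk => isoH_sq hE hZ (hm.trans hk)
  · intro u W hW
    exact (inclEquiv_of_forall (by omega) h (fun k hk => isoH_sq hE hZ (hn.trans hk)) u W hW).symm

end

end Pool.Agent.Lib.MP_b02441_al
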