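import Pool.Agent.Lib.MP_b02441_al.BddA
import Pool.Agent.Lib.MP_b02441_al.SqB

/-!
# Varieties without the Brandt semigroup (for MP_b02441_al)
-/

set_option autoImplicit false
set_option linter.unusedVariables false

namespace Pool.Agent.Lib.MP_b02441_al

variable {E : Set (Word × Word)}

/-- `a` is a multiple of `b` -/
def JLe {M : Type} [Monoid M] (a b : M) : Prop := ∃ u v : M, a = u * b * v

section

variable {M : Type} [Monoid M]

theorem JLe.refl (a : M) : JLe a a := ⟨1, 1, by rw [one_mul, mul_one]⟩

theorem JLe.trans {a b c : M} (h : JLe a b) (h' : JLe b c) : JLe a c := by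
  obtain ⟨u, v, rfl⟩ := h
  obtain ⟨u', v', rfl⟩ := h'
  exact ⟨u * u', v' * v, by simp only [mul_assoc]⟩

theorem JLe.mul_left' (a b : M) : JLe (a * b) b := ⟨a, 1, by rw [mul_one]⟩

theorem JLe.mul_right' (a b : M) : JLe (a * b) a := ⟨1, b, by rw [one_mul]⟩

end

theorem B2.some_mul (i j k l : Bool) :
    B2.unit i j * B2.unit k l = if j = k then B2.unit i l else B2.zero := rfl

theorem B2.none_mul (x : B2) : B2.zero * x = B2.zero := rfl

theorem B2.mul_none (x : B2) : x * B2.zero = B2.zero := by
  rcases x with _ | ⟨i, j⟩ <;> rfl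

section

variable {S : Type} [Semigroup S]

/-- A `2 × 2` system of matrix units -/
structure Units (m : Bool → Bool → S) : Prop where
  mul : ∀ i j l, m i j * m j l = m i l
  bad : ¬ JLe ((m false false : S) : WithOne S)
    ((m false false * m true true : S) : WithOne S)

variable {m : Bool → Bool → S}

/-- the elements which do not divide `m false false` -/
def Low (m : Bool → Bool → S) (s : S) : Prop :=
  ¬ JLe ((m false false : S) : WithOne S) (s : WithOne S)

theorem Low.mul_right {s : S} (h : Low m s) (t : S) : Low m (s * t) := by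
  intro h'
  rw [WithOne.coe_mul] at h'
  exact h (h'.trans (JLe.mul_right' _ _))

theorem Low.mul_left {s : S} (h : Low m s) (t : S) : Low m (t * s) := by
  intro h'
  rw [WithOne.coe_mul] at h'
  exact h (h'.trans (JLe.mul_left' _ _))

theorem Units.not_low (hm : Units m) (i j : Bool) : ¬ Low m (m i j) := by
  intro h
  refine h ⟨(m false i : S), (m j false : S), ?_⟩
  rw [← WithOne.coe_mul, ← WithOne.coe_mul, hm.mul, hm.mul]

theorem Units.low (hm : Units m) (i l : Bool) : Low m (m i false * m true l) := by
  have h1 : Low m (m false false * m true true) := hm.bad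
  have h2 := (h1.mul_left (m i false)).mul_right (m true l)
  rwa [← mul_assoc, hm.mul, mul_assoc, hm.mul] at h2

/-- the relation between pairs of elements of `S` and elements of the Brandt semigroup -/
def BRel (m : Bool → Bool → S) (s t : S) : B2 → Prop
  | .zero => Low m s ∨ Low m t
  | .unit i j => s = m i j ∧ t = m (!i) (!j)

theorem BRel.mul (hm : Units m) {s t s' t' : S} {x y : B2} (h : BRel m s t x)
    (h' : BRel m s' t' y) : BRel m (s * s') (t * t') (x * y) := by
  rcases x with _ | ⟨i, j⟩
  · rw [B2.none_mul]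
    rcases h with h | h
    · exact Or.inl (h.mul_right _)
    · exact Or.inr (h.mul_right _)
  · rcases y with _ | ⟨k, l⟩
    · rw [B2.mul_none]
      rcases h' with h' | h'
      · exact Or.inl (h'.mul_left _)
      · exact Or.inr (h'.mul_left _)
    · obtain ⟨rfl, rfl⟩ := h
      obtain ⟨rfl, rfl⟩ := h'
      rw [B2.some_mul]
      by_cases hjk : j = k
      · subst hjk
        rw [if_pos rfl]
        exact ⟨hm.mul _ _ _, hm.mul _ _ _⟩
      · rw [if_neg hjk]
        cases j <;> cases k
        · exact absurd rfl hjk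
        · exact Or.inl (hm.low _ _)
        · exact Or.inr (hm.low _ _)
        · exact absurd rfl hjk

theorem Units.ne_right (hm : Units m) (i k : Bool) : m i false ≠ m k true := by
  intro h1
  have h2 := hm.low i k
  rw [h1, hm.mul] at h2
  exact hm.not_low _ _ h2

theorem Units.ne_left (hm : Units m) (j l : Bool) : m false j ≠ m true l := by
  intro h1
  have h2 := hm.low j l
  rw [← h1, hm.mul] at h2
  exact hm.not_low _ _ h2

theorem Units.inj (hm : Units m) {i j k l : Bool} (h : m i j = m k l) : i = k ∧ j = l := by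
  constructor
  · cases i <;> cases k
    · rfl
    · exact absurd h (hm.ne_left _ _)
    · exact absurd h.symm (hm.ne_left _ _)
    · rfl
  · cases j <;> cases l
    · rfl
    · exact absurd h (hm.ne_right _ _)
    · exact absurd h.symm (hm.ne_right _ _)
    · rfl

theorem BRel.unique (hm : Units m) {s t : S} {x y : B2} (h : BRel m s t x)
    (h' : BRel m s t y) : x = y := by
  rcases x with _ | ⟨i, j⟩
  · rcases y with _ | ⟨k, l⟩
    · rfl
    · obtain ⟨rfl, rfl⟩ := h'
      rcases h with h | h
      · exact absurd h (hm.not_low _ _)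
      · exact absurd h (hm.not_low _ _)
  · obtain ⟨rfl, rfl⟩ := h
    rcases y with _ | ⟨k, l⟩
    · rcases h' with h' | h'
      · exact absurd h' (hm.not_low _ _)
      · exact absurd h' (hm.not_low _ _)
    · obtain ⟨h1, h2⟩ := h'
      obtain ⟨rfl, rfl⟩ := hm.inj h1
      rfl

theorem Units.mem_B2 (hm : Units m) (hS : Mem E S) : Mem E B2 := by
  intro p hp φ
  have hex : ∀ x : B2, ∃ s t : S, BRel m s t x := by
    intro x
    rcases x with _ | ⟨i, j⟩
    · exact ⟨m false false * m true true, m false false, Or.inl (hm.low false true |> fun h => by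
        exact h)⟩
    · exact ⟨m i j, m (!i) (!j), rfl, rfl⟩
  choose f g hfg using hex
  let ψ : Word →ₙ* S := FreeSemigroup.lift fun i => f (φ (FreeSemigroup.of i))
  let χ : Word →ₙ* S := FreeSemigroup.lift fun i => g (φ (FreeSemigroup.of i))
  have key : ∀ w : Word, BRel m (ψ w) (χ w) (φ w) := by
    intro w
    induction w using FreeSemigroup.recOnMul with
    | ih1 i =>
      change BRel m (FreeSemigroup.lift _ (FreeSemigroup.of i))
        (FreeSemigroup.lift _ (FreeSemigroup.of i)) _
      rw [FreeSemigroup.lift_of, FreeSemigroup.lift_of]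
      exact hfg _
    | ih2 i w hx hy =>
      rw [map_mul, map_mul, map_mul]
      exact hx.mul hm hy
  have h1 := key p.1
  rw [hS p hp ψ, hS p hp χ] at h1
  exact h1.unique hm (key p.2)

/-- in a semigroup of a variety without the Brandt semigroup: if `a` divides the idempotent `e`
then so does `a a` -/
theorem jle_sq (hS : Mem E S) (hB : ¬ Mem E B2) {e a : S} (he : e * e = e)
    (h : JLe (e : WithOne S) (a : WithOne S)) : JLe (e : WithOne S) ((a * a : S) : WithOne S) := by
  obtain ⟨x, y, hxy⟩ := h
  obtain ⟨u, hu⟩ : ∃ u : S, y * (e : WithOne S) * x = (u : WithOne S) := by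
    rcases wo_cases x with rfl | ⟨x', rfl⟩ <;> rcases wo_cases y with rfl | ⟨y', rfl⟩
    · exact ⟨e, by rw [one_mul, mul_one]⟩
    · exact ⟨y' * e, by rw [mul_one, WithOne.coe_mul]⟩
    · exact ⟨e * x', by rw [one_mul, WithOne.coe_mul]⟩
    · exact ⟨y' * e * x', by rw [WithOne.coe_mul, WithOne.coe_mul]⟩
  have hee : (e : WithOne S) * e = e := by rw [← WithOne.coe_mul, he]
  have hxuay : x * a * (u : WithOne S) * a * y = e := by
    rw [← hu]
    calc x * a * (y * e * x) * a * y = (x * a * y) * e * (x * a * y) := by
          simp only [mul_assoc]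
      _ = e := by rw [← hxy, hee, hee]
  have huau : u * a * u = u := by
    have : ((u * a * u : S) : WithOne S) = (u : WithOne S) := by
      rw [WithOne.coe_mul, WithOne.coe_mul, ← hu]
      calc y * e * x * a * (y * e * x) = y * (e * (x * a * y) * e) * x := by
            simp only [mul_assoc]
        _ = y * e * x := by rw [← hxy, hee, hee]
    exact WithOne.coe_inj.1 this
  -- the matrix units
  let m : Bool → Bool → S := fun i j =>
    match i, j with
    | false, false => u * a
    | false, true => u
    | true, false => a * u * a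
    | true, true => a * u
  have hmul : ∀ i j l, m i j * m j l = m i l := by
    intro i j l
    cases i <;> cases j <;> cases l
    · change u * a * (u * a) = u * a
      rw [← mul_assoc, huau]
    · change u * a * u = u
      exact huau
    · change u * (a * u * a) = u * a
      rw [← mul_assoc, ← mul_assoc, huau]
    · change u * (a * u) = u
      rw [← mul_assoc, huau]
    · change a * u * a * (u * a) = a * u * a
      rw [mul_assoc a u a, mul_assoc a, ← mul_assoc (u * a) u a, huau]
    · change a * u * a * u = a * u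
      rw [mul_assoc a u a, mul_assoc a, huau]
    · change a * u * (a * u * a) = a * u * a
      rw [mul_assoc a u, ← mul_assoc u (a * u) a, ← mul_assoc u a u, huau, ← mul_assoc]
    · change a * u * (a * u) = a * u
      rw [mul_assoc, ← mul_assoc u, huau]
  have h1 : JLe ((m false false : S) : WithOne S)
      ((m false false * m true true : S) : WithOne S) := by
    by_contra hbad
    exact hB ((Units.mk hmul hbad).mem_B2 hS)
  have h2 : JLe (e : WithOne S) ((m false false : S) : WithOne S) := by
    refine ⟨x * a, y, ?_⟩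
    change (e : WithOne S) = x * a * ((u * a : S) : WithOne S) * y
    rw [WithOne.coe_mul, ← mul_assoc, hxuay]
  refine h2.trans (h1.trans ⟨u, u, ?_⟩)
  change ((u * a * (a * u) : S) : WithOne S) = u * ((a * a : S) : WithOne S) * u
  rw [WithOne.coe_mul, WithOne.coe_mul, WithOne.coe_mul, WithOne.coe_mul]
  simp only [mul_assoc]

theorem jle_mul (hS : Mem E S) (hB : ¬ Mem E B2) {e s t : S} (he : e * e = e)
    (h : JLe (e : WithOne S) (s : WithOne S)) (h' : JLe (e : WithOne S) (t : WithOne S)) :
    JLe (e : WithOne S) ((s * t : S) : WithOne S) := by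
  obtain ⟨u, v, huv⟩ := h
  obtain ⟨u', v', huv'⟩ := h'
  have hee : (e : WithOne S) * e = e := by rw [← WithOne.coe_mul, he]
  obtain ⟨a, ha⟩ : ∃ a : S, (a : WithOne S) = t * (v' * u) * s := by
    rcases wo_cases (v' * u) with h1 | ⟨z, h1⟩
    · exact ⟨t * s, by rw [h1, mul_one, WithOne.coe_mul]⟩
    · exact ⟨t * z * s, by rw [h1, WithOne.coe_mul, WithOne.coe_mul]⟩
  have h1 : JLe (e : WithOne S) (a : WithOne S) := by
    refine ⟨u', v, ?_⟩
    rw [ha]
    calc (e : WithOne S) = e * e := hee.symm
      _ = u' * t * v' * (u * s * v) := by rw [← huv, ← huv']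
      _ = u' * (t * (v' * u) * s) * v := by simp only [mul_assoc]
  refine (jle_sq hS hB he h1).trans ⟨t * (v' * u), (v' * u) * s, ?_⟩
  rw [WithOne.coe_mul, WithOne.coe_mul, ha]
  simp only [mul_assoc]

/-- comparable idempotents in the same class are equal -/
theorem idem_eq_of_jle {K : ℕ} (hK : ∀ s : S, pw s K * pw s K = pw s K) {e f : S}
    (he : e * e = e) (hf : f * f = f) (h1 : e * f = f) (h2 : f * e = f)
    (h : JLe (e : WithOne S) (f : WithOne S)) : e = f := by
  obtain ⟨a, b, hab⟩ := h
  obtain ⟨a', ha'⟩ : ∃ a' : S, (a' : WithOne S) = e * a * f := by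
    rcases wo_cases a with h1 | ⟨z, h1⟩
    · exact ⟨e * f, by rw [h1, mul_one, WithOne.coe_mul]⟩
    · exact ⟨e * z * f, by rw [h1, WithOne.coe_mul, WithOne.coe_mul]⟩
  obtain ⟨b', hb'⟩ : ∃ b' : S, (b' : WithOne S) = f * b * e := by
    rcases wo_cases b with h1 | ⟨z, h1⟩
    · exact ⟨f * e, by rw [h1, mul_one, WithOne.coe_mul]⟩
    · exact ⟨f * z * e, by rw [h1, WithOne.coe_mul, WithOne.coe_mul]⟩
  have hee : (e : WithOne S) * e = e := by rw [← WithOne.coe_mul, he]
  have hff : (f : WithOne S) * f = f := by rw [← WithOne.coe_mul, hf]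
  have hef : (e : WithOne S) * f = f := by rw [← WithOne.coe_mul, h1]
  have hfe : (f : WithOne S) * e = f := by rw [← WithOne.coe_mul, h2]
  have h3 : a' * b' = e := by
    have : ((a' * b' : S) : WithOne S) = (e : WithOne S) := by
      rw [WithOne.coe_mul, ha', hb']
      calc (e : WithOne S) * a * f * (f * b * e) = e * (a * (f * f) * b) * e := by
            simp only [mul_assoc]
        _ = e := by rw [hff, ← hab, hee, hee]
    exact WithOne.coe_inj.1 this
  have h4 : a' * e = a' := by
    have : ((a' * e : S) : WithOne S) = (a' : WithOne S) := by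
      rw [WithOne.coe_mul, ha', mul_assoc, hfe]
    exact WithOne.coe_inj.1 this
  have h5 : a' * f = a' := by
    have : ((a' * f : S) : WithOne S) = (a' : WithOne S) := by
      rw [WithOne.coe_mul, ha', mul_assoc, hff]
    exact WithOne.coe_inj.1 this
  have h6 : e * b' = b' := by
    have : ((e * b' : S) : WithOne S) = (b' : WithOne S) := by
      rw [WithOne.coe_mul, hb', ← mul_assoc, ← mul_assoc, hef]
    exact WithOne.coe_inj.1 this
  have h7 : ∀ k, pw a' k * pw b' k = e := by
    intro k
    induction k with
    | zero => exact h3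
    | succ k ih =>
      rw [pw_succ, pw_succ', mul_assoc, ← mul_assoc a', h3, pw_left h6, ih]
  have h8 : pw a' K = e := by
    calc pw a' K = pw a' K * e := (pw_right h4 K).symm
      _ = pw a' K * (pw a' K * pw b' K) := by rw [h7]
      _ = e := by rw [← mul_assoc, hK, h7]
  have h9 := pw_right h5 K
  rw [h8, h1] at h9
  exact h9.symm

end

section

variable {K : ℕ} (hK : ∀ (S : Type) [Semigroup S], Mem E S → ∀ s : S, pw s K * pw s K = pw s K)

theorem jle_gen (hL : Mem E L2) {n : ℕ} (i : Fin n) (U : Fr E n) (h : chi hL i U = L2.tt) :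
    JLe (U : WithOne (Fr E n)) ((Fr.of i : Fr E n) : WithOne (Fr E n)) := by
  induction U using Fr.induction with
  | h1 j =>
    by_cases hj : j = i
    · rw [hj]; exact JLe.refl _
    · rw [chi_of_ne hL hj] at h
      exact absurd h L2.ne
  | h2 x y hx hy =>
    rw [map_mul] at h
    rw [WithOne.coe_mul]
    rcases L2.cases (chi hL i x) with h1 | h1
    · rw [h1, L2.ff_mul] at h
      exact (JLe.mul_left' _ _).trans (hy h)
    · exact (JLe.mul_right' _ _).trans (hx h1)

theorem jle_of_content (hL : Mem E L2) (hB : ¬ Mem E B2) {n : ℕ} {e : Fr E n} (he : e * e = e)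
    (V : Fr E n) (h : ∀ i, chi hL i V = L2.tt → chi hL i e = L2.tt) :
    JLe (e : WithOne (Fr E n)) (V : WithOne (Fr E n)) := by
  induction V using Fr.induction with
  | h1 j => exact jle_gen hL j e (h j (chi_of_self hL j))
  | h2 x y hx hy =>
    refine jle_mul (mem_Fr E n) hB he (hx fun i hi => h i ?_) (hy fun i hi => h i ?_)
    · rw [map_mul, hi, L2.tt_mul]
    · rw [map_mul, hi, L2.mul_tt]

include hK

theorem chainBound_of_not_B2 (hL : Mem E L2) (hB : ¬ Mem E B2) (n : ℕ) :
    ChainBound (Fr E n) n := by
  classical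
  intro e he hle
  by_contra hcon
  push Not at hcon
  let C : Fin (n + 1) → Finset (Fin n) := fun k => Finset.univ.filter fun i =>
    chi hL i (e k) = L2.tt
  have hne : ∀ U : Fr E n, ∃ i, chi hL i U = L2.tt := by
    intro U
    induction U using Fr.induction with
    | h1 j => exact ⟨j, chi_of_self hL j⟩
    | h2 x y hx hy =>
      obtain ⟨i, hi⟩ := hx
      exact ⟨i, by rw [map_mul, hi, L2.tt_mul]⟩
  have hmono : ∀ i j, i < j → (C i).card < (C j).card := by
    intro i j hij
    refine Finset.card_lt_card ⟨fun l hl => ?_, fun hsub => hcon i j hij ?_⟩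
    · have h1 : chi hL l (e i) = L2.tt := (Finset.mem_filter.1 hl).2
      refine Finset.mem_filter.2 ⟨Finset.mem_univ _, ?_⟩
      rw [← (hle i j hij).1, map_mul, h1, L2.tt_mul]
    · have h1 := jle_of_content hL hB (he i) (e j) fun l hl =>
        (Finset.mem_filter.1 (hsub (Finset.mem_filter.2 ⟨Finset.mem_univ _, hl⟩))).2
      exact idem_eq_of_jle (hK _ (mem_Fr E n)) (he i) (he j) (hle i j hij).1 (hle i j hij).2 h1
  have h1 : ∀ k : ℕ, ∀ hk : k < n + 1, k + 1 ≤ (C ⟨k, hk⟩).card := by
    intro k
    induction k with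
    | zero =>
      intro hk
      obtain ⟨i, hi⟩ := hne (e ⟨0, hk⟩)
      exact Finset.card_pos.2 ⟨i, Finset.mem_filter.2 ⟨Finset.mem_univ _, hi⟩⟩
    | succ k ih =>
      intro hk
      have h2 := ih (by omega)
      have h3 := hmono ⟨k, by omega⟩ ⟨k + 1, hk⟩ (Nat.lt_succ_self k)
      omega
  have h2 := h1 n (Nat.lt_succ_self n)
  have h3 : (C ⟨n, Nat.lt_succ_self n⟩).card ≤ n := by
    have := Finset.card_le_univ (C ⟨n, Nat.lt_succ_self n⟩)
    rwa [Fintype.card_fin] at this
  omega

end

/-- periodic varieties which contain the semilattices but not the Brandt semigroup are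
separated -/
theorem separated_of_not_B2 (hP : Periodic E) (hL : ContainsSemilattices E) (hB : ¬ Mem E B2) :
    Separated E := by
  obtain ⟨K, hK⟩ := hP.exists_pw
  exact separated_of_chainBound hP hL fun n _ => ⟨n, chainBound_of_not_B2 hK (L2_mem hL) hB n⟩

end Pool.Agent.Lib.MP_b02441_al
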