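import Pool.Agent.Lib.MP_b02441_al.CombC

/-!
# The main combinatorial theorem (for MP_b02441_al)
-/

set_option autoImplicit false
set_option linter.unusedVariables false

namespace Pool.Agent.Lib.MP_b02441_al

variable {R : List ℕ → List ℕ → Prop}

/-- `c` is the length of a longest word in `n` letters which is not idempotent (`0` if there is
none) -/
def Cn (R : List ℕ → List ℕ → Prop) (n c : ℕ) : Prop :=
  (∀ w : List ℕ, (∀ x ∈ w, x < n) → c < w.length → KK R w) ∧
    (c = 0 ∨ ∃ w : List ℕ, (∀ x ∈ w, x < n) ∧ w.length = c ∧ ¬ KK R w)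

theorem exists_Cn {n : ℕ}
    (hLF : ∃ c, ∀ w : List ℕ, (∀ x ∈ w, x < n) → c < w.length → KK R w) : ∃ c, Cn R n c := by
  obtain ⟨c, hc⟩ := hLF
  by_cases h : ∃ k, ∃ w : List ℕ, (∀ x ∈ w, x < n) ∧ w.length = k ∧ ¬ KK R w
  · obtain ⟨k, hk, hmax⟩ := exists_max (d := c) (by
      rintro k ⟨w, hw, rfl, hK⟩
      by_contra h
      push Not at h
      exact hK (hc w hw h)) h
    refine ⟨k, ?_, Or.inr hk⟩
    intro w hw hl
    by_contra hK
    have := hmax _ ⟨w, hw, rfl, hK⟩
    omega
  · push Not at h
    refine ⟨0, fun w hw _ => h _ w hw rfl, Or.inl rfl⟩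

theorem FIC.stepA (hR : FIC R) {n c c' : ℕ} (hc : Cn R n c) (hc' : Cn R (n + 1) c') (h : c < c') :
    ¬ IsoL R n := by
  intro hiso
  rcases hc'.2 with h0 | ⟨w, hw, hl, hK⟩
  · omega
  · have hwne : w ≠ [] := by rintro rfl; simp at hl; omega
    obtain ⟨s, hs, hsn, hsi⟩ := hiso (w ++ w) (by simp [hwne]) (by
      intro x hx
      have : x ∈ w := by simpa using hx
      have := hw x this
      omega)
    have h1 : KK R (w.flatMap s) := by
      refine hc.1 _ ?_ ?_
      · intro y hy
        rw [List.mem_flatMap] at hy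
        obtain ⟨x, hx, hy⟩ := hy
        exact hsn x (by have := hw x hx; omega) y hy
      · have := length_flatMap_ge hs w
        omega
    have h2 : R (w.flatMap s) ((w ++ w).flatMap s) := by
      rw [List.flatMap_append]; exact hR.symm h1
    exact hK (hR.symm (hsi w hwne (fun x hx => by have := hw x hx; omega) h2))

theorem not_nodup_decomp : ∀ v : List ℕ, ¬ v.Nodup → ∃ l1 x l2, v = l1 ++ x :: l2 ∧ x ∈ l2 := by
  intro v
  induction v with
  | nil => intro h; simp at h
  | cons y v ih =>
    intro h
    by_cases hy : y ∈ v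
    · exact ⟨[], y, v, rfl, hy⟩
    · have : ¬ v.Nodup := fun hv => h (List.nodup_cons.2 ⟨hy, hv⟩)
      obtain ⟨l1, x, l2, rfl, hx⟩ := ih this
      exact ⟨y :: l1, x, l2, rfl, hx⟩

theorem FIC.stepB (hR : FIC R) {n d : ℕ} (hc : Cn R n d) (hc' : Cn R (n + 1) d) (h : n + 1 ≤ d) :
    ¬ IsoL R n := by
  classical
  intro hiso
  -- a word with full content
  obtain ⟨v, hvn, hvl, hvK, hvfull⟩ : ∃ v : List ℕ, (∀ x ∈ v, x ≤ n) ∧ v.length = d ∧ ¬ KK R v ∧
      ∀ x ≤ n, x ∈ v := by
    rcases hc.2 with h0 | ⟨w, hw, hl, hK⟩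
    · omega
    · obtain ⟨k, ⟨v, hvn, hvl, hvK, hvk⟩, hmax⟩ := exists_max
        (P := fun k => ∃ v : List ℕ, (∀ x ∈ v, x ≤ n) ∧ v.length = d ∧ ¬ KK R v ∧
          v.toFinset.card = k) (d := d) (by
          rintro k ⟨v, _, hl, _, rfl⟩
          have := v.toFinset_card_le
          omega) ⟨_, w, fun x hx => (hw x hx).le, hl, hK, rfl⟩
      refine ⟨v, hvn, hvl, hvK, ?_⟩
      by_contra hne
      push Not at hne
      obtain ⟨y, hyn, hyv⟩ := hne
      have hcard : v.toFinset.card ≤ n := by
        have h1 : v.toFinset ⊆ (Finset.range (n + 1)).erase y := by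
          intro x hx
          rw [List.mem_toFinset] at hx
          rw [Finset.mem_erase, Finset.mem_range]
          exact ⟨fun e => hyv (e ▸ hx), by have := hvn x hx; omega⟩
        have h2 := Finset.card_le_card h1
        rw [Finset.card_erase_of_mem (by rw [Finset.mem_range]; omega), Finset.card_range] at h2
        omega
      have hnd : ¬ v.Nodup := by
        intro hnd
        have := List.toFinset_card_of_nodup hnd
        omega
      obtain ⟨l1, x, l2, rfl, hx⟩ := not_nodup_decomp v hnd
      have hyl1 : y ∉ l1 := fun h => hyv (by simp [h])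
      have hyl2 : y ∉ l2 := fun h => hyv (by simp [h])
      have h3 : ¬ KK R (l1 ++ y :: l2) := by
        intro hk
        apply hvK
        have := hR.KK_sub (s1 y [x]) (s1_ne (by simp)) hk
        rw [List.flatMap_append, List.flatMap_cons, s1_self, flatMap_s1_not_mem hyl1,
          flatMap_s1_not_mem hyl2] at this
        exact this
      have h4 := hmax _ ⟨l1 ++ y :: l2, by
        intro z hz
        rw [List.mem_append, List.mem_cons] at hz
        rcases hz with hz | rfl | hz
        · exact hvn z (by simp [hz])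
        · exact hyn
        · exact hvn z (by simp [hz]), by simpa using hvl, h3, rfl⟩
      have h5 : (l1 ++ x :: l2).toFinset ⊂ (l1 ++ y :: l2).toFinset := by
        rw [Finset.ssubset_iff_of_subset]
        · exact ⟨y, by simp, by rw [List.mem_toFinset]; exact hyv⟩
        · intro z hz
          simp only [List.mem_toFinset, List.mem_append, List.mem_cons] at hz ⊢
          rcases hz with hz | rfl | hz
          · exact Or.inl hz
          · exact Or.inr (Or.inr hx)
          · exact Or.inr (Or.inr hz)
      have := Finset.card_lt_card h5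
      omega
  have hvne : v ≠ [] := by rintro rfl; simp at hvl; omega
  obtain ⟨s, hs, hsn, hsi⟩ := hiso v hvne hvn
  have h1 : ¬ KK R (v.flatMap s) := by
    intro hk
    apply hvK
    refine hsi (v ++ v) (by simp [hvne]) (by simpa using hvn) ?_
    rw [List.flatMap_append]; exact hk
  have hletters : ∀ y ∈ v.flatMap s, y < n := by
    intro y hy
    rw [List.mem_flatMap] at hy
    obtain ⟨x, hx, hy⟩ := hy
    exact hsn x (hvn x hx) y hy
  have hl2 : (v.flatMap s).length ≤ d := by
    by_contra hl
    push Not at hl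
    exact h1 (hc.1 _ hletters hl)
  have hone : ∀ y ≤ n, ∃ c, c < n ∧ s y = [c] := by
    intro y hy
    have h1 : (s y).length = 1 := by
      by_contra hne
      have h2 : 2 ≤ (s y).length := by
        have : 0 < (s y).length := List.length_pos_iff.2 (hs y)
        omega
      have := length_flatMap_gt hs v (hvfull y hy) h2
      omega
    obtain ⟨c, hc⟩ := List.length_eq_one_iff.1 h1
    exact ⟨c, hsn y hy c (by rw [hc]; simp), hc⟩
  obtain ⟨x, hx, y, hy, hxy, hsxy⟩ : ∃ x ≤ n, ∃ y ≤ n, x ≠ y ∧ s x = s y := by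
    obtain ⟨x, hx, y, hy, hxy, h⟩ := Finset.exists_ne_map_eq_of_card_lt_of_maps_to
      (s := Finset.range (n + 1)) (t := Finset.range n) (f := fun y => (s y).headD 0)
      (by simp) (by
        intro y hy
        rw [Finset.mem_coe, Finset.mem_range] at hy
        obtain ⟨c, hc, hsc⟩ := hone y (by omega)
        rw [Finset.mem_coe, Finset.mem_range]
        beta_reduce
        rw [hsc]; exact hc)
    rw [Finset.mem_range] at hx hy
    obtain ⟨c, _, hc⟩ := hone x (by omega)
    obtain ⟨c', _, hc'⟩ := hone y (by omega)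
    refine ⟨x, by omega, y, by omega, hxy, ?_⟩
    rw [hc, hc'] at h ⊢
    simp at h
    rw [h]
  have e : (v.flatMap (s1 x [y])).flatMap s = v.flatMap s := by
    rw [flatMap_flatMap]
    refine flatMap_congr' fun z _ => ?_
    by_cases hz : z = x
    · subst hz; rw [s1_self]; simp [hsxy]
    · rw [s1_of_ne _ hz]; simp
  have h2 : R (v.flatMap (s1 x [y])) v := by
    refine hsi _ (flatMap_ne_nil (s1_ne (by simp)) hvne) ?_ (hR.of_eq e)
    intro z hz
    rcases mem_flatMap_s1 hz with h | h
    · exact hvn z h.1
    · rw [List.mem_singleton] at h; rw [h]; exact hy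
  have h3 := hR.sub (s1 x [x, x]) (s1_ne (by simp)) h2
  have hxn : x ∉ v.flatMap (s1 x [y]) := by
    intro hm
    rcases mem_flatMap_s1 hm with h | h
    · exact h.2 rfl
    · rw [List.mem_singleton] at h; exact hxy h
  rw [flatMap_s1_not_mem hxn] at h3
  have h4 : KK R (v.flatMap (s1 x [x, x])) := by
    refine hc'.1 _ ?_ ?_
    · intro z hz
      rcases mem_flatMap_s1 hz with h | h
      · have := hvn z h.1; omega
      · simp at h; omega
    · have := length_flatMap_gt (s1_ne (a := x) (t := [x, x]) (by simp)) v (hvfull x hx)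
        (by rw [s1_self]; simp)
      omega
  exact hvK (hR.KK_congr (hR.trans (hR.symm h3) h2) h4)

/-- long words are idempotent -/
theorem FIC.uniform (hR : FIC R) {n d : ℕ} (hc' : Cn R (n + 1) d) (h : d ≤ n) :
    ∀ w : List ℕ, d < w.length → KK R w := by
  intro w hw
  have h1 : KK R (List.range (d + 1)) := by
    refine hc'.1 _ ?_ ?_
    · intro x hx
      rw [List.mem_range] at hx; omega
    · simp
  have hne : w.drop d ≠ [] := by
    intro e
    have := List.drop_eq_nil_iff.1 e
    omega
  let σ : ℕ → List ℕ := fun i => if i < d then [w.getD i 0] else w.drop d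
  have hσ : ∀ i, σ i ≠ [] := by
    intro i; simp only [σ]; split_ifs
    · simp
    · exact hne
  have e : (List.range (d + 1)).flatMap σ = w := by
    rw [List.range_succ, List.flatMap_append]
    have e1 : (List.range d).flatMap σ = w.take d := by
      have : ∀ i ∈ List.range d, σ i = [w.getD i 0] := by
        intro i hi
        rw [List.mem_range] at hi
        simp [σ, hi]
      rw [flatMap_congr' this, flatMap_sing]
      apply List.ext_getElem
      · simp; omega
      · intro i h1 h2
        simp at h1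
        have : i < w.length := by omega
        simp [this]
    have e2 : [d].flatMap σ = w.drop d := by
      simp [σ]
    rw [e1, e2, List.take_append_drop]
  rw [← e]
  exact hR.KK_sub σ hσ h1

/-- The main combinatorial theorem. -/
theorem FIC.not_iso (hR : FIC R)
    (hLF : ∀ n, ∃ c, ∀ w : List ℕ, (∀ x ∈ w, x < n) → c < w.length → KK R w)
    (hNS : ¬ ((∃ m, 1 ≤ m ∧ ∀ w : List ℕ, m ≤ w.length → KK R w) ∧ ∀ w a b, ¬ Bad R w a b))
    (n : ℕ) : ¬ IsoL R n := by
  obtain ⟨c, hc⟩ := exists_Cn (hLF n)
  obtain ⟨c', hc'⟩ := exists_Cn (hLF (n + 1))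
  by_cases h1 : c < c'
  · exact hR.stepA hc hc' h1
  · have h2 : c' ≤ c := by omega
    have h3 : c = c' := by
      refine le_antisymm ?_ h2
      rcases hc.2 with h0 | ⟨w, hw, hl, hK⟩
      · omega
      · by_contra h
        push Not at h
        exact hK (hc'.1 w (fun x hx => by have := hw x hx; omega) (by omega))
    subst h3
    by_cases h4 : n + 1 ≤ c
    · exact hR.stepB hc hc' h4
    · have hu := hR.uniform hc' (by omega : c ≤ n)
      by_cases h5 : ∃ w a b, Bad R w a b
      · obtain ⟨w, a, b, hb⟩ := h5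
        exact hR.not_iso_of_bad hu (by omega) hb
      · exfalso
        apply hNS
        push Not at h5
        exact ⟨⟨c + 1, by omega, fun w hw => hu w (by omega)⟩, h5⟩

end Pool.Agent.Lib.MP_b02441_al
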