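import Pool.Agent.Lib.MP_b02441_al.CombD

/-!
# The separated case with bad words (for MP_b02441_al)
-/

set_option autoImplicit false
set_option linter.unusedVariables false

namespace Pool.Agent.Lib.MP_b02441_al

theorem exists_max {P : ℕ → Prop} {d : ℕ} (hb : ∀ k, P k → k ≤ d) (hP : ∃ k, P k) :
    ∃ k, P k ∧ ∀ l, P l → l ≤ k := by
  classical
  obtain ⟨k, hk⟩ := hP
  refine ⟨Nat.findGreatest P d, Nat.findGreatest_spec (hb k hk) hk, fun l hl => ?_⟩
  exact Nat.le_findGreatest (hb l hl) hl

/-- Renaming the letters of a short word. -/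
theorem exists_renaming (Ind : ℕ → Prop) (v : List ℕ) (n : ℕ) (hv : v.length ≤ n)
    (hsupp : ∀ x ≤ n, ¬ Ind x → x ∈ v) (hD : ∀ x ∈ v, ¬ Ind x → x ≤ n) (J : Finset ℕ)
    (hJ : ∀ x ∈ J, x ∈ v ∧ Ind x) (h : ℕ → ℕ) (hinj : Set.InjOn h J)
    (hh : ∀ x ∈ J, h x ≤ n ∧ Ind (h x)) :
    ∃ g : ℕ → ℕ, (∀ x y, x ∈ v → y ∈ v → g x = g y → x = y) ∧ (∀ x ∈ v, g x ≤ n) ∧
      (∀ x ∈ J, g x = h x) ∧ (∀ x ∈ v, ¬ Ind x → g x = x) := by
  classical
  let V := v.toFinset
  have hVc : V.card ≤ n := (v.toFinset_card_le).trans hv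
  let I := (V.filter Ind) \ J
  let T := ((Finset.range (n + 1)).filter Ind) \ (J.image h)
  have hJV : J ⊆ V.filter Ind := by
    intro x hx
    rw [Finset.mem_filter, List.mem_toFinset]; exact hJ x hx
  have hJT : J.image h ⊆ (Finset.range (n + 1)).filter Ind := by
    intro y hy
    obtain ⟨x, hx, rfl⟩ := Finset.mem_image.1 hy
    rw [Finset.mem_filter, Finset.mem_range]
    exact ⟨by have := (hh x hx).1; omega, (hh x hx).2⟩
  have hcard : I.card ≤ T.card := by
    have h1 : I.card = (V.filter Ind).card - J.card := Finset.card_sdiff_of_subset hJV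
    have h2 : T.card = ((Finset.range (n + 1)).filter Ind).card - J.card := by
      rw [← Finset.card_image_of_injOn hinj]
      exact Finset.card_sdiff_of_subset hJT
    have h3 : (V.filter Ind).card + (V.filter (fun x => ¬ Ind x)).card = V.card :=
      Finset.card_filter_add_card_filter_not Ind
    have h4 : ((Finset.range (n + 1)).filter Ind).card +
        ((Finset.range (n + 1)).filter (fun x => ¬ Ind x)).card = n + 1 := by
      rw [Finset.card_filter_add_card_filter_not Ind, Finset.card_range]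
    have h5 : ((Finset.range (n + 1)).filter (fun x => ¬ Ind x)).card ≤
        (V.filter (fun x => ¬ Ind x)).card := by
      refine Finset.card_le_card ?_
      intro x hx
      rw [Finset.mem_filter, Finset.mem_range] at hx
      rw [Finset.mem_filter, List.mem_toFinset]
      exact ⟨hsupp x (by omega) hx.2, hx.2⟩
    omega
  obtain ⟨e⟩ : Nonempty (I ↪ T) := by
    refine Function.Embedding.nonempty_of_card_le ?_
    simpa using hcard
  let g : ℕ → ℕ := fun x => if x ∈ J then h x else if hx : x ∈ I then (e ⟨x, hx⟩ : ℕ) else x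
  have gJ : ∀ x ∈ J, g x = h x := fun x hx => by simp [g, hx]
  have gI : ∀ x (hx : x ∈ I), g x = e ⟨x, hx⟩ := fun x hx => by
    have hxJ : x ∉ J := (Finset.mem_sdiff.1 hx).2
    simp [g, hx, hxJ]
  have gD : ∀ x ∈ v, ¬ Ind x → g x = x := fun x hx hi => by
    have hxJ : x ∉ J := fun hj => hi (hJ x hj).2
    have hxI : x ∉ I := fun hj => hi (by
      have := (Finset.mem_sdiff.1 hj).1
      rw [Finset.mem_filter] at this; exact this.2)
    simp [g, hxI, hxJ]
  -- classification of letters of v
  have hcl : ∀ x ∈ v, x ∈ J ∨ (x ∈ I) ∨ (¬ Ind x) := by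
    intro x hx
    by_cases hi : Ind x
    · by_cases hj : x ∈ J
      · exact Or.inl hj
      · refine Or.inr (Or.inl ?_)
        rw [Finset.mem_sdiff, Finset.mem_filter, List.mem_toFinset]
        exact ⟨⟨hx, hi⟩, hj⟩
    · exact Or.inr (Or.inr hi)
  have eT : ∀ x (hx : x ∈ I), (e ⟨x, hx⟩ : ℕ) ≤ n ∧ Ind (e ⟨x, hx⟩) ∧
      (e ⟨x, hx⟩ : ℕ) ∉ J.image h := by
    intro x hx
    have := (e ⟨x, hx⟩).2
    rw [Finset.mem_sdiff, Finset.mem_filter, Finset.mem_range] at this
    exact ⟨by omega, this.1.2, this.2⟩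
  refine ⟨g, ?_, ?_, gJ, gD⟩
  · intro x y hx hy hxy
    rcases hcl x hx with h1 | h1 | h1 <;> rcases hcl y hy with h2 | h2 | h2
    · rw [gJ x h1, gJ y h2] at hxy
      exact hinj h1 h2 hxy
    · exfalso
      rw [gJ x h1, gI y h2] at hxy
      exact (eT y h2).2.2 (hxy ▸ Finset.mem_image_of_mem h h1)
    · exfalso
      rw [gJ x h1, gD y hy h2] at hxy
      exact h2 (hxy ▸ (hh x h1).2)
    · exfalso
      rw [gI x h1, gJ y h2] at hxy
      exact (eT x h1).2.2 (hxy ▸ Finset.mem_image_of_mem h h2)
    · rw [gI x h1, gI y h2] at hxy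
      have := e.injective (Subtype.ext hxy)
      exact congrArg Subtype.val this
    · exfalso
      rw [gI x h1, gD y hy h2] at hxy
      exact h2 (hxy ▸ (eT x h1).2.1)
    · exfalso
      rw [gD x hx h1, gJ y h2] at hxy
      exact h1 (hxy ▸ (hh y h2).2)
    · exfalso
      rw [gD x hx h1, gI y h2] at hxy
      exact h1 (hxy ▸ (eT y h2).2.1)
    · rw [gD x hx h1, gD y hy h2] at hxy; exact hxy
  · intro x hx
    rcases hcl x hx with h1 | h1 | h1
    · rw [gJ x h1]; exact (hh x h1).1
    · rw [gI x h1]; exact (eT x h1).1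
    · rw [gD x hx h1]; exact hD x hx h1

variable {R : List ℕ → List ℕ → Prop}

theorem merge_map {g : ℕ → ℕ} {w : List ℕ} {a b : ℕ} (hb : b ∈ w)
    (hg : ∀ x y, x ∈ w → y ∈ w → g x = g y → x = y) :
    (w.map g).flatMap (s1 (g b) [g a]) = (w.flatMap (s1 b [a])).map g := by
  rw [← flatMap_sing, ← flatMap_sing, flatMap_flatMap, flatMap_flatMap]
  refine flatMap_congr' fun x hx => ?_
  by_cases h : x = b
  · subst h; simp [s1]
  · have h' : g x ≠ g b := fun e => h (hg x b hx hb e)
    simp [s1, h, h']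

theorem Bad.mem_right {w : List ℕ} {a b : ℕ} (h : Bad R w a b) : b ∈ w := by
  by_contra hb
  have := h.2.2.1
  rw [flatMap_s1_not_mem hb] at this
  exact h.2.1 this

theorem Bad.mem_left (hR : FIC R) {w : List ℕ} {a b : ℕ} (h : Bad R w a b) : a ∈ w := by
  by_contra ha
  have h1 := h.2.2.1
  have e : w.flatMap (s1 b [a]) = w.map (fun x => if x = b then a else x) := by
    rw [← flatMap_sing]
    refine flatMap_congr' fun x _ => ?_
    unfold s1; split_ifs <;> rfl
  rw [e] at h1
  refine h.2.1 (hR.KK_of_map ?_ h1)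
  intro x y hx hy hxy
  by_cases h2 : x = b <;> by_cases h3 : y = b
  · rw [h2, h3]
  · simp only [h2, h3, if_true, if_false] at hxy
    exact absurd (hxy ▸ hy) ha
  · simp only [h2, h3, if_true, if_false] at hxy
    exact absurd (hxy ▸ hx) ha
  · simpa [h2, h3] using hxy

theorem FIC.bad_map (hR : FIC R) {w : List ℕ} {a b : ℕ} (h : Bad R w a b) {g : ℕ → ℕ}
    (hg : ∀ x y, x ∈ w → y ∈ w → g x = g y → x = y) : Bad R (w.map g) (g a) (g b) := by
  have ha := h.mem_left hR
  have hb := h.mem_right
  obtain ⟨hab, hK, hKm, hia, hib⟩ := h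
  have hind : ∀ c ∈ w, Indep R (w ++ w) c → Indep R (w.map g ++ w.map g) (g c) := by
    intro c hc hi t ht
    have e1 : w.map g ++ w.map g = (w ++ w).flatMap (fun x => [g x]) := by
      rw [flatMap_sing, List.map_append]
    have e2 : (w.map g ++ w.map g).flatMap (s1 (g c) t) =
        (w ++ w).flatMap (fun x => if x = c then t else [g x]) := by
      rw [e1, flatMap_flatMap]
      refine flatMap_congr' fun x hx => ?_
      have hxw : x ∈ w := by simpa using hx
      by_cases h : x = c
      · subst h; simp [s1]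
      · have h' : g x ≠ g c := fun e => h (hg x c hxw hc e)
        simp [s1, h, h']
    rw [e2, e1]
    refine hR.indep_sub2 ?_ (fun x => by simp) ?_
    · intro x; beta_reduce; split_ifs
      · exact ht
      · simp
    · intro x _ hx
      have : x ≠ c := fun e => hx (e ▸ hi)
      simp [this]
  refine ⟨fun e => hab (hg a b ha hb e), fun hk => hK (hR.KK_of_map hg hk), ?_, hind a ha hia,
    hind b hb hib⟩
  rw [merge_map hb hg]
  unfold KK at hKm ⊢
  rw [← List.map_append]
  exact hR.map g hKm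

/-- If there is a bad word then there is no isolation. -/
theorem FIC.not_iso_of_bad (hR : FIC R) {d n : ℕ} (hd : ∀ w : List ℕ, d < w.length → KK R w)
    (hdn : d ≤ n) {w0 : List ℕ} {a0 b0 : ℕ} (hbad0 : Bad R w0 a0 b0) : ¬ IsoL R n := by
  classical
  intro hiso
  have hshort : ∀ w, ¬ KK R w → w.length ≤ d := fun w hw => by
    by_contra h; push Not at h; exact hw (hd w h)
  -- a longest bad word
  obtain ⟨l, ⟨w1, a1, b1, hb1, rfl⟩, hmax⟩ := exists_max
    (P := fun l => ∃ w a b, Bad R w a b ∧ w.length = l) (d := d)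
    (by rintro k ⟨w, a, b, hw, rfl⟩; exact hshort w hw.2.1) ⟨_, w0, a0, b0, hbad0, rfl⟩
  -- rename
  have hg1 : ∀ x y, x ∈ w1 → y ∈ w1 → w1.idxOf x = w1.idxOf y → x = y :=
    fun x y hx _ hxy => (List.idxOf_inj hx).1 hxy
  obtain ⟨w, a, b, hbad, hlen, hwn⟩ : ∃ w a b, Bad R w a b ∧ w.length = w1.length ∧
      ∀ x ∈ w, x < n := by
    refine ⟨_, _, _, hR.bad_map hb1 hg1, by simp, ?_⟩
    intro x hx
    rw [List.mem_map] at hx
    obtain ⟨y, hy, rfl⟩ := hx
    have h1 := List.idxOf_lt_length_iff.2 hy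
    have h2 := hshort w1 hb1.2.1
    omega
  rw [← hlen] at hmax
  have ha := hbad.mem_left hR
  have hb := hbad.mem_right
  obtain ⟨hab, hK, hKm, hia, hib⟩ := hbad
  obtain ⟨U, hU⟩ : ∃ U, U = w ++ w := ⟨_, rfl⟩
  rw [← hU] at hia hib
  have hwne : w ≠ [] := by rintro rfl; simp at ha
  have hUne : U ≠ [] := by rw [hU]; simp [hwne]
  have hUn : ∀ x ∈ U, x < n := by
    intro x hx; rw [hU] at hx
    exact hwn x (by simpa using hx)
  have hUw : ∀ x, x ∈ U ↔ x ∈ w := by intro x; rw [hU]; simp
  obtain ⟨s, hs, hsn, hsiso⟩ := hiso U hUne (fun x hx => (hUn x hx).le)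
  -- fact F
  have hF : ∀ v : List ℕ, v ≠ [] → (∀ x ∈ v, x ≤ n) → ¬ KK R v → R (v ++ v) U →
      ¬ KK R (v.flatMap s) := by
    intro v hv hvn hvK hvU hvs
    have h1 : R (v.flatMap s) (U.flatMap s) := by
      have h2 := hR.sub s hs hvU
      rw [List.flatMap_append] at h2
      exact hR.trans (hR.symm hvs) h2
    have h2 := hsiso v hv hvn h1
    exact hvK (hR.trans hvU (hR.symm h2))
  -- renaming words `v` with `v v = U`
  have hren : ∀ v : List ℕ, ¬ KK R v → R (v ++ v) U → ∀ (J : Finset ℕ) (h : ℕ → ℕ),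
      (∀ x ∈ J, x ∈ v ∧ Indep R U x) → Set.InjOn h J → (∀ x ∈ J, h x ≤ n ∧ Indep R U (h x)) →
      ∃ g : ℕ → ℕ, (∀ x y, x ∈ v → y ∈ v → g x = g y → x = y) ∧ (∀ x ∈ v, g x ≤ n) ∧
        (∀ x ∈ J, g x = h x) ∧ R (v.map g ++ v.map g) U := by
    intro v hvK hvU J h hJ hinj hh
    have hsupp : ∀ x, ¬ Indep R U x → x ∈ v := by
      intro x hx
      by_contra hxv
      exact hx (hR.indep_of_eq (hR.symm hvU) (by simpa using hxv))
    obtain ⟨g, hg, hgn, hgJ, hgD⟩ := exists_renaming (fun x => Indep R U x) v n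
      ((hshort v hvK).trans hdn) (fun x _ hx => hsupp x hx) (fun x _ hx => by
        have : x ∈ U := by
          by_contra hxU
          exact hx (hR.indep_of_not_mem hxU)
        exact (hUn x this).le) J hJ h hinj hh
    refine ⟨g, hg, hgn, hgJ, ?_⟩
    rw [← List.map_append]
    refine hR.trans (hR.map g hvU) ?_
    rw [← flatMap_sing]
    refine hR.indep_sub (fun x => by simp) ?_
    intro x hx hxi
    rw [hgD x (hsupp x hxi) hxi]
  -- (i) independent letters go to letters
  have hi : ∀ z ≤ n, Indep R U z → (s z).length = 1 := by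
    intro z hz hzi
    obtain ⟨l, ⟨v, hvK, hvU, ⟨y0, hy0, hy0i⟩, rfl⟩, hvmax⟩ := exists_max
      (P := fun l => ∃ v, ¬ KK R v ∧ R (v ++ v) U ∧ (∃ y ∈ v, Indep R U y) ∧ v.length = l) (d := d)
      (by rintro k ⟨v, hv, _, _, rfl⟩; exact hshort v hv)
      ⟨_, w, hK, hR.of_eq hU.symm, ⟨a, ha, hia⟩, rfl⟩
    by_contra hne
    have h2 : 2 ≤ (s z).length := by
      have : 0 < (s z).length := List.length_pos_iff.2 (hs z)
      omega
    obtain ⟨g, hg, hgn, hgJ, hgU⟩ := hren v hvK hvU {y0} (fun _ => z)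
      (by intro x hx; rw [Finset.mem_singleton] at hx; subst hx; exact ⟨hy0, hy0i⟩)
      (by intro x hx y hy _; simp at hx hy; rw [hx, hy]) (by intro x hx; exact ⟨hz, hzi⟩)
    have hgy : g y0 = z := hgJ y0 (Finset.mem_singleton_self _)
    obtain ⟨v', hv'⟩ : ∃ v', v' = v.map g := ⟨_, rfl⟩
    rw [← hv'] at hgU
    have hv'K : ¬ KK R v' := by rw [hv']; exact fun hk => hvK (hR.KK_of_map hg hk)
    have hzv' : z ∈ v' := by rw [hv', List.mem_map]; exact ⟨y0, hy0, hgy⟩
    have hv'n : ∀ x ∈ v', x ≤ n := by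
      intro x hx; rw [hv', List.mem_map] at hx
      obtain ⟨y, hy, rfl⟩ := hx; exact hgn y hy
    have hv'ne : v' ≠ [] := by rintro rfl; simp at hzv'
    have hv's := hF v' hv'ne hv'n hv'K hgU
    obtain ⟨Fr, hFr⟩ : ∃ Fr, Fr = (List.range (s z).length).map (fun i => i + (n + 1)) := ⟨_, rfl⟩
    have hFrl : Fr.length = (s z).length := by rw [hFr]; simp
    have hFrne : Fr ≠ [] := by intro e; rw [e] at hFrl; simp at hFrl; omega
    let τ : ℕ → List ℕ := fun x => if x ≤ n then s x else [(s z).getD (x - (n + 1)) 0]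
    have hτ : ∀ x, τ x ≠ [] := by
      intro x; simp only [τ]; split_ifs
      · exact hs x
      · simp
    have hFrτ : Fr.flatMap τ = s z := by
      rw [hFr, List.flatMap_map]
      have : ∀ i ∈ List.range (s z).length, τ (i + (n + 1)) = [(s z).getD i 0] := by
        intro i _
        have : ¬ (i + (n + 1) ≤ n) := by omega
        simp [τ, this]
      rw [flatMap_congr' this, flatMap_sing]
      apply List.ext_getElem
      · simp
      · intro i h1 h2
        simp at h1
        simp [h1]
    have hv2τ : (v'.flatMap (s1 z Fr)).flatMap τ = v'.flatMap s := by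
      rw [flatMap_flatMap]
      refine flatMap_congr' fun x hx => ?_
      by_cases hxz : x = z
      · subst hxz; rw [s1_self]; exact hFrτ
      · rw [s1_of_ne _ hxz]; simp [τ, hv'n x hx]
    have hv2K : ¬ KK R (v'.flatMap (s1 z Fr)) := by
      intro hk
      apply hv's
      rw [← hv2τ]
      exact hR.KK_sub τ hτ hk
    have hv2U : R (v'.flatMap (s1 z Fr) ++ v'.flatMap (s1 z Fr)) U := by
      rw [← List.flatMap_append]
      exact hR.trans (hR.sub _ (s1_ne hFrne) hgU) (hzi Fr hFrne)
    have hv2l : v'.length < (v'.flatMap (s1 z Fr)).length := by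
      refine length_flatMap_gt (s1_ne hFrne) v' hzv' ?_
      rw [s1_self, hFrl]; exact h2
    have hmem : n + 1 ∈ v'.flatMap (s1 z Fr) := by
      rw [List.mem_flatMap]
      refine ⟨z, hzv', ?_⟩
      rw [s1_self, hFr, List.mem_map]
      exact ⟨0, by simp; omega, by omega⟩
    have := hvmax _ ⟨_, hv2K, hv2U, ⟨n + 1, hmem, hR.indep_of_not_mem (fun h => by
      have := hUn _ h; omega)⟩, rfl⟩
    rw [hv', List.length_map] at hv2l
    rw [hv'] at this
    omega
  -- (ii) the other letters go to letters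
  have hii : ∀ x, ¬ Indep R U x → (s x).length = 1 := by
    intro x hx
    have hsmall : ∀ y, ¬ Indep R U y → y < n := by
      intro y hy
      by_contra h
      exact hy (hR.indep_of_not_mem (fun hm => h (hUn y hm)))
    have hxw : x ∈ w := by
      by_contra h
      exact hx (hR.indep_of_not_mem (fun hm => h ((hUw x).1 hm)))
    by_contra hne
    have h2 : 2 ≤ (s x).length := by
      have : 0 < (s x).length := List.length_pos_iff.2 (hs x)
      omega
    let σ : ℕ → List ℕ := fun y => if Indep R U y then [y + (n + 1)] else s y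
    have hσ : ∀ y, σ y ≠ [] := by
      intro y; simp only [σ]; split_ifs
      · simp
      · exact hs y
    have hσi : ∀ y, Indep R U y → σ y = [y + (n + 1)] := fun y hy => by simp [σ, hy]
    have hσd : ∀ y, ¬ Indep R U y → σ y = s y := fun y hy => by simp [σ, hy]
    have hlow : ∀ y, ¬ Indep R U y → ∀ c ∈ s y, c < n := fun y hy => hsn y (hsmall y hy).le
    -- not idempotent
    let ρ : ℕ → List ℕ := fun y => if y < n then [y] else s (y - (n + 1))
    have hρ : ∀ y, ρ y ≠ [] := by
      intro y; simp only [ρ]; split_ifs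
      · simp
      · exact hs _
    have hwρ : (w.flatMap σ).flatMap ρ = w.flatMap s := by
      rw [flatMap_flatMap]
      refine flatMap_congr' fun y _ => ?_
      by_cases hy : Indep R U y
      · rw [hσi y hy]
        have : ¬ (y + (n + 1) < n) := by omega
        simp [ρ, this]
      · rw [hσd y hy]
        refine flatMap_id fun c hc => ?_
        simp [ρ, hlow y hy c hc]
    have hwK : ¬ KK R (w.flatMap s) := hF w hwne (fun x hx => (hwn x hx).le) hK (hR.of_eq hU.symm)
    have h3 : ¬ KK R (w.flatMap σ) := by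
      intro hk; apply hwK; rw [← hwρ]; exact hR.KK_sub ρ hρ hk
    have hmer : (w.flatMap σ).flatMap (s1 (b + (n + 1)) [a + (n + 1)]) =
        (w.flatMap (s1 b [a])).flatMap σ := by
      rw [flatMap_flatMap, flatMap_flatMap]
      refine flatMap_congr' fun y _ => ?_
      by_cases hyb : y = b
      · subst hyb
        rw [hσi y hib, s1_self]
        simp [s1, hσi a hia]
      · rw [s1_of_ne _ hyb]
        by_cases hy : Indep R U y
        · rw [hσi y hy]
          simp [s1, hyb, hσi y hy]
        · rw [hσd y hy]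
          have e1 : (s y).flatMap (s1 (b + (n + 1)) [a + (n + 1)]) = s y :=
            flatMap_s1_not_mem (fun hm => by have := hlow y hy _ hm; omega)
          rw [e1]; simp [hσd y hy]
    have hind : ∀ c, c ∈ w → Indep R U c →
        Indep R (w.flatMap σ ++ w.flatMap σ) (c + (n + 1)) := by
      intro c hc hci t ht
      rw [← List.flatMap_append, ← hU]
      have e : (U.flatMap σ).flatMap (s1 (c + (n + 1)) t) =
          U.flatMap (fun y => if y = c then t else σ y) := by
        rw [flatMap_flatMap]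
        refine flatMap_congr' fun y _ => ?_
        by_cases hyc : y = c
        · subst hyc; rw [hσi y hci]; simp [s1]
        · rw [if_neg hyc]
          by_cases hy : Indep R U y
          · rw [hσi y hy]; simp [s1, hyc]
          · rw [hσd y hy]
            exact flatMap_s1_not_mem (fun hm => by have := hlow y hy _ hm; omega)
      rw [e]
      refine hR.indep_sub2 ?_ hσ ?_
      · intro y; beta_reduce; split_ifs
        · exact ht
        · exact hσ y
      · intro y _ hy
        have : y ≠ c := fun e => hy (e ▸ hci)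
        simp [this]
    have hbad' : Bad R (w.flatMap σ) (a + (n + 1)) (b + (n + 1)) := by
      refine ⟨by omega, h3, ?_, hind a ha hia, hind b hb hib⟩
      rw [hmer]; exact hR.KK_sub σ hσ hKm
    have h4 := hmax _ ⟨_, _, _, hbad', rfl⟩
    have h5 := length_flatMap_gt hσ w hxw (by rw [hσd x hx]; exact h2)
    omega
  -- (iii) pigeonhole
  have hone : ∀ y ≤ n, ∃ c, c < n ∧ s y = [c] := by
    intro y hy
    have h1 : (s y).length = 1 := by
      by_cases h : Indep R U y
      · exact hi y hy h
      · exact hii y h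
    obtain ⟨c, hc⟩ := List.length_eq_one_iff.1 h1
    exact ⟨c, hsn y hy c (by rw [hc]; simp), hc⟩
  obtain ⟨x, hx, y, hy, hxy, hsxy⟩ : ∃ x ≤ n, ∃ y ≤ n, x ≠ y ∧ s x = s y := by
    obtain ⟨x, hx, y, hy, hxy, h⟩ := Finset.exists_ne_map_eq_of_card_lt_of_maps_to
      (s := Finset.range (n + 1)) (t := Finset.range n) (f := fun y => (s y).headD 0)
      (by simp) (by
        intro y hy
        rw [Finset.mem_coe, Finset.mem_range] at hy
        obtain ⟨c, hc, hsc⟩ := hone y (by omega)
        rw [Finset.mem_coe, Finset.mem_range]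
        beta_reduce
        rw [hsc]; exact hc)
    rw [Finset.mem_range] at hx hy
    obtain ⟨c, _, hc⟩ := hone x (by omega)
    obtain ⟨c', _, hc'⟩ := hone y (by omega)
    refine ⟨x, by omega, y, by omega, hxy, ?_⟩
    beta_reduce at h
    rw [hc, hc'] at h ⊢
    simp at h
    rw [h]
  have hdep : ∀ x y, x ≤ n → y ≤ n → x ≠ y → s x = s y → Indep R U x := by
    intro x y hx hy hxy hsxy
    have e : (U.flatMap (s1 x [y])).flatMap s = U.flatMap s := by
      rw [flatMap_flatMap]
      refine flatMap_congr' fun z _ => ?_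
      by_cases hz : z = x
      · subst hz; rw [s1_self]; simp [hsxy]
      · rw [s1_of_ne _ hz]; simp
    refine hR.indep_of_letter (y := y) hxy.symm ?_
    refine hsiso _ (flatMap_ne_nil (s1_ne (by simp)) hUne) ?_ (hR.of_eq e)
    intro z hz
    rcases mem_flatMap_s1 hz with h | h
    · exact (hUn z h.1).le
    · rw [List.mem_singleton] at h; rw [h]; exact hy
  have hix := hdep x y hx hy hxy hsxy
  have hiy := hdep y x hy hx hxy.symm hsxy.symm
  obtain ⟨g, hg, hgn, hgJ, hgU⟩ := hren w hK (hR.of_eq hU.symm) {a, b}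
    (fun c => if c = a then x else y) (by
      intro c hc
      rw [Finset.mem_insert, Finset.mem_singleton] at hc
      rcases hc with rfl | rfl
      · exact ⟨ha, hia⟩
      · exact ⟨hb, hib⟩) (by
      intro c hc c' hc' h
      rw [Finset.mem_coe, Finset.mem_insert, Finset.mem_singleton] at hc hc'
      beta_reduce at h
      rcases hc with rfl | rfl <;> rcases hc' with rfl | rfl
      · rfl
      · rw [if_pos rfl, if_neg hab.symm] at h; exact absurd h hxy
      · rw [if_pos rfl, if_neg hab.symm] at h; exact absurd h.symm hxy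
      · rfl) (by
      intro c _
      beta_reduce
      split_ifs
      · exact ⟨hx, hix⟩
      · exact ⟨hy, hiy⟩)
  have hga : g a = x := by
    rw [hgJ a (by simp)]; simp
  have hgb : g b = y := by
    rw [hgJ b (by simp)]; simp [hab.symm]
  have hw'K : ¬ KK R (w.map g) := fun hk => hK (hR.KK_of_map hg hk)
  have hw'n : ∀ z ∈ w.map g, z ≤ n := by
    intro z hz
    rw [List.mem_map] at hz
    obtain ⟨c, hc, rfl⟩ := hz; exact hgn c hc
  have h6 := hF (w.map g) (by simp [hwne]) hw'n hw'K hgU
  apply h6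
  have h7 : KK R ((w.map g).flatMap (s1 (g b) [g a])) := by
    rw [merge_map hb hg]
    unfold KK at hKm ⊢
    rw [← List.map_append]
    exact hR.map g hKm
  have e : ((w.map g).flatMap (s1 (g b) [g a])).flatMap s = (w.map g).flatMap s := by
    rw [flatMap_flatMap]
    refine flatMap_congr' fun z _ => ?_
    by_cases hz : z = g b
    · rw [hz, s1_self, hga, hgb]; simp [hsxy]
    · rw [s1_of_ne _ hz]; simp
  rw [← e]
  exact hR.KK_sub s hs h7

end Pool.Agent.Lib.MP_b02441_al
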