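import Pool.Agent.Lib.MP_b02441_al.FIC

/-!
# The non-separated case (for MP_b02441_al)
-/

set_option autoImplicit false
set_option linter.unusedVariables false

namespace Pool.Agent.Lib.MP_b02441_al

theorem first_occ (p : ℕ → Prop) : ∀ l : List ℕ, (∃ x ∈ l, p x) →
    ∃ q z v, l = q ++ z :: v ∧ p z ∧ ∀ x ∈ q, ¬ p x := by
  classical
  intro l
  induction l with
  | nil => rintro ⟨x, hx, _⟩; simp at hx
  | cons y l ih =>
    rintro ⟨x, hx, hp⟩
    by_cases hy : p y
    · exact ⟨[], y, l, rfl, hy, by simp⟩
    · rcases List.mem_cons.1 hx with rfl | hx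
      · exact absurd hp hy
      · obtain ⟨q, z, v, rfl, hz, hq⟩ := ih ⟨x, hx, hp⟩
        refine ⟨y :: q, z, v, rfl, hz, ?_⟩
        intro x hx
        rcases List.mem_cons.1 hx with rfl | hx
        · exact hy
        · exact hq x hx

theorem last_occ (p : ℕ → Prop) (l : List ℕ) (h : ∃ x ∈ l, p x) :
    ∃ v z q, l = v ++ z :: q ∧ p z ∧ ∀ x ∈ q, ¬ p x := by
  obtain ⟨q, z, v, hl, hz, hq⟩ := first_occ p l.reverse (by simpa using h)
  refine ⟨v.reverse, z, q.reverse, ?_, hz, by simpa using hq⟩
  have := congrArg List.reverse hl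
  rw [List.reverse_reverse] at this
  rw [this]
  simp

/-- iterated doubling -/
def dd (w : List ℕ) : ℕ → List ℕ
  | 0 => w
  | i + 1 => dd w i ++ dd w i

theorem dd_length {w : List ℕ} (hw : w ≠ []) (i : ℕ) : i < (dd w i).length := by
  induction i with
  | zero => exact List.length_pos_iff.2 hw
  | succ i ih => rw [dd, List.length_append]; omega

theorem dd_flatMap (w : List ℕ) (s : ℕ → List ℕ) (i : ℕ) :
    (dd w i).flatMap s = dd (w.flatMap s) i := by
  induction i with
  | zero => rfl
  | succ i ih => rw [dd, dd, List.flatMap_append, ih]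

theorem dd_mem {w : List ℕ} {i x : ℕ} (h : x ∈ dd w i) : x ∈ w := by
  induction i with
  | zero => exact h
  | succ i ih =>
    rw [dd, List.mem_append] at h
    rcases h with h | h <;> exact ih h

variable {R : List ℕ → List ℕ → Prop}

theorem FIC.dd_KK (hR : FIC R) {w : List ℕ} (hw : KK R w) (i : ℕ) : R (dd w i) w := by
  induction i with
  | zero => exact hR.refl _
  | succ i ih => exact hR.trans (hR.app2 ih ih) hw

theorem FIC.ne_nil (hR : FIC R) {u v : List ℕ} (h : R u v) (hu : u ≠ []) : v ≠ [] := by
  rintro rfl
  exact hu (hR.nil (hR.symm h))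

/-- words containing an idempotent factor are idempotent -/
theorem FIC.KK_ideal (hR : FIC R) (hA : ∀ e, e ≠ [] → KK R e → ∀ u, R (e ++ u ++ e) e)
    {e : List ℕ} (he : e ≠ []) (hK : KK R e) (a b : List ℕ) : KK R (a ++ e ++ b) := by
  have h1 := hR.app a b (hA e he hK (b ++ a))
  have e1 : a ++ e ++ b ++ (a ++ e ++ b) = a ++ (e ++ (b ++ a) ++ e) ++ b := by
    simp [List.append_assoc]
  unfold KK
  rw [e1]
  exact h1

/-- the case of idempotents -/
theorem FIC.merge_K (hR : FIC R) (hA : ∀ e, e ≠ [] → KK R e → ∀ u, R (e ++ u ++ e) e)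
    {U U' : List ℕ} {a b : ℕ} (hab : a ≠ b) (hU : U ≠ []) (hU' : U' ≠ []) (hK' : KK R U')
    (hi : Indep R U a) (h : R (U'.flatMap (s1 b [a])) U) : R U' U := by
  classical
  by_cases hb : ∃ x ∈ U', x = a ∨ x = b
  · -- left part
    have hleft : R (U' ++ U) U := by
      obtain ⟨q, z, v, hUe, hz, hq⟩ := first_occ (fun x => x = a ∨ x = b) U' hb
      have hq1 : q.flatMap (s1 b [a]) = q :=
        flatMap_s1_not_mem fun hm => hq b hm (Or.inr rfl)
      have hz1 : s1 b [a] z = [a] := by
        rcases hz with rfl | rfl
        · by_cases hab' : z = b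
          · simp [s1, hab']
          · rw [s1_of_ne _ hab']
        · rw [s1_self]
      have h1 := hR.sub (s1 a (z :: v ++ U)) (s1_ne (by simp)) h
      have h2 := hR.trans h1 (hi (z :: v ++ U) (by simp))
      rw [hUe, List.flatMap_append, List.flatMap_cons, hz1, hq1, List.flatMap_append,
        List.flatMap_append] at h2
      have hq2 : q.flatMap (s1 a (z :: v ++ U)) = q :=
        flatMap_s1_not_mem fun hm => hq a hm (Or.inl rfl)
      rw [hq2] at h2
      have e1 : [a].flatMap (s1 a (z :: v ++ U)) = z :: v ++ U := by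
        rw [List.flatMap_cons, s1_self]; simp
      rw [e1] at h2
      obtain ⟨v2, hv2⟩ : ∃ v2, v2 = (v.flatMap (s1 b [a])).flatMap (s1 a (z :: v ++ U)) :=
        ⟨_, rfl⟩
      rw [← hv2] at h2
      have e2 : q ++ (z :: v ++ U ++ v2) = U' ++ U ++ v2 := by rw [hUe]; simp
      rw [e2] at h2
      -- `U' ++ U ≈ U' ++ (U' ++ U ++ v2) ≈ U' ++ U ++ v2 ≈ U`
      have h3 := hR.appL U' (hR.symm h2)
      have h4 : R (U' ++ (U' ++ U ++ v2)) (U' ++ U ++ v2) := by
        have := hR.appR (U ++ v2) hK'
        simpa [List.append_assoc] using this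
      exact hR.trans h3 (hR.trans h4 h2)
    have hright : R (U ++ U') U := by
      obtain ⟨v, z, q, hUe, hz, hq⟩ := last_occ (fun x => x = a ∨ x = b) U' hb
      have hq1 : q.flatMap (s1 b [a]) = q :=
        flatMap_s1_not_mem fun hm => hq b hm (Or.inr rfl)
      have hz1 : s1 b [a] z = [a] := by
        rcases hz with rfl | rfl
        · by_cases hab' : z = b
          · simp [s1, hab']
          · rw [s1_of_ne _ hab']
        · rw [s1_self]
      have h1 := hR.sub (s1 a (U ++ v ++ [z])) (s1_ne (by simp)) h
      have h2 := hR.trans h1 (hi (U ++ v ++ [z]) (by simp))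
      rw [hUe, List.flatMap_append, List.flatMap_cons, hz1, hq1, List.flatMap_append,
        List.flatMap_append] at h2
      have hq2 : q.flatMap (s1 a (U ++ v ++ [z])) = q :=
        flatMap_s1_not_mem fun hm => hq a hm (Or.inl rfl)
      rw [hq2] at h2
      have e1 : [a].flatMap (s1 a (U ++ v ++ [z])) = U ++ v ++ [z] := by
        rw [List.flatMap_cons, s1_self]; simp
      rw [e1] at h2
      obtain ⟨v2, hv2⟩ : ∃ v2, v2 = (v.flatMap (s1 b [a])).flatMap (s1 a (U ++ v ++ [z])) :=
        ⟨_, rfl⟩
      rw [← hv2] at h2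
      have e2 : v2 ++ (U ++ v ++ [z] ++ q) = v2 ++ U ++ U' := by rw [hUe]; simp
      rw [e2] at h2
      have h3 := hR.appR U' (hR.symm h2)
      have h4 : R (v2 ++ U ++ U' ++ U') (v2 ++ U ++ U') := by
        have := hR.appL (v2 ++ U) hK'
        simpa [List.append_assoc] using this
      exact hR.trans h3 (hR.trans h4 h2)
    have h5 := hR.symm (hA U' hU' hK' U)
    have h6 := hR.appR U' hleft
    exact hR.trans h5 (hR.trans h6 hright)
  · push Not at hb
    rw [flatMap_s1_not_mem (fun hm => (hb b hm).2 rfl)] at h
    exact h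

/-- the general case, when there are no bad words -/
theorem FIC.merge_all (hR : FIC R) (hA : ∀ e, e ≠ [] → KK R e → ∀ u, R (e ++ u ++ e) e)
    {m : ℕ} (hm : ∀ w : List ℕ, m ≤ w.length → KK R w) (hNS : ∀ w a b, ¬ Bad R w a b)
    {U U' : List ℕ} {a b : ℕ} (hab : a ≠ b) (hU : U ≠ []) (hU' : U' ≠ []) (hK : KK R U)
    (hi : Indep R U a) (hib : Indep R U b) (h : R (U'.flatMap (s1 b [a])) U) : R U' U := by
  classical
  by_cases hK' : KK R U'
  · exact hR.merge_K hA hab hU hU' hK' hi h
  · exfalso
    have hex : ∃ i, KK R (dd U' i) := ⟨m, hm _ (dd_length hU' m).le⟩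
    have h1 := Nat.find_spec hex
    have h2 := fun j => Nat.find_min (m := j) hex
    obtain ⟨i, hi'⟩ : ∃ i, Nat.find hex = i + 1 := by
      refine Nat.exists_eq_succ_of_ne_zero ?_
      intro h0
      rw [h0] at h1
      exact hK' h1
    rw [hi'] at h1
    have h3 : ¬ KK R (dd U' i) := h2 i (by omega)
    have hKm : KK R (U'.flatMap (s1 b [a])) := hR.KK_congr (hR.symm h) hK
    have h4 : R ((dd U' (i + 1)).flatMap (s1 b [a])) U := by
      rw [dd_flatMap]
      exact hR.trans (hR.dd_KK hKm _) h
    have h5 : R (dd U' (i + 1)) U :=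
      hR.merge_K hA hab hU (fun e => by
        have := dd_length hU' (i + 1)
        rw [e] at this; simp at this) h1 hi h4
    refine hNS (dd U' i) a b ⟨hab, h3, ?_, ?_, ?_⟩
    · rw [dd_flatMap]
      exact hR.KK_congr (hR.symm (hR.dd_KK hKm _)) hKm
    · exact hR.indep_congr (hR.symm h5) hi
    · exact hR.indep_congr (hR.symm h5) hib

/-- If `R` satisfies NS1 and NS2 then the words over `2 m + 2` letters are isolated by
substitutions to words over `2 m + 1` letters. -/
theorem FIC.iso_of_NS (hR : FIC R) (hA : ∀ e, e ≠ [] → KK R e → ∀ u, R (e ++ u ++ e) e)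
    {m : ℕ} (hm1 : 1 ≤ m) (hm : ∀ w : List ℕ, m ≤ w.length → KK R w)
    (hNS : ∀ w a b, ¬ Bad R w a b) :
    IsoL R (2 * m + 1) := by
  classical
  intro U hU hUn
  by_cases hK : KK R U
  · -- a short word equal to `U`
    obtain ⟨P, hPU, hPl⟩ : ∃ P : List ℕ, R U P ∧ P.length ≤ 2 * m := by
      by_cases hl : U.length ≤ 2 * m
      · exact ⟨U, hR.refl _, hl⟩
      · push Not at hl
        obtain ⟨p, t, q, hUe, hp, hq⟩ : ∃ p t q : List ℕ, U = p ++ t ++ q ∧ p.length = m ∧
            q.length = m := by
          refine ⟨U.take m, (U.drop m).take (U.length - 2 * m), (U.drop m).drop (U.length - 2 * m),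
            ?_, ?_, ?_⟩
          · rw [List.append_assoc, List.take_append_drop, List.take_append_drop]
          · rw [List.length_take]; omega
          · rw [List.length_drop, List.length_drop]; omega
        refine ⟨p ++ q, ?_, by rw [List.length_append]; omega⟩
        have hpn : p ≠ [] := by rintro rfl; simp at hp; omega
        have hqn : q ≠ [] := by rintro rfl; simp at hq; omega
        have h1 := hA p hpn (hm p (by omega)) (t ++ q)
        have h2 := hA q hqn (hm q (by omega)) p
        have h3 := hR.appL (p ++ t) (hR.symm h2)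
        have h4 := hR.appR q h1
        rw [hUe]
        refine hR.trans h3 ?_
        have e : p ++ t ++ (q ++ p ++ q) = p ++ (t ++ q) ++ p ++ q := by simp [List.append_assoc]
        rw [e]; exact h4
    -- two letters not in `P`
    obtain ⟨a, ha, b, hb, hab⟩ : ∃ a ∈ (Finset.range (2 * m + 2)) \ P.toFinset,
        ∃ b ∈ (Finset.range (2 * m + 2)) \ P.toFinset, a ≠ b := by
      rw [← Finset.one_lt_card]
      have h1 := Finset.le_card_sdiff P.toFinset (Finset.range (2 * m + 2))
      rw [Finset.card_range] at h1
      have h2 := P.toFinset_card_le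
      omega
    rw [Finset.mem_sdiff, Finset.mem_range, List.mem_toFinset] at ha hb
    have hia : Indep R U a := hR.indep_of_eq hPU ha.2
    have hib : Indep R U b := hR.indep_of_eq hPU hb.2
    -- the renaming
    let g : ℕ → ℕ := fun y => if y < b then y else y - 1
    have hg : ∀ x y, x ≠ b → y ≠ b → g x = g y → x = y := by
      intro x y hx hy hxy
      simp only [g] at hxy
      split_ifs at hxy <;> omega
    have hgn : ∀ y, y ≠ b → y ≤ 2 * m + 1 → g y < 2 * m + 1 := by
      intro y hy hy'
      simp only [g]; split_ifs <;> omega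
    refine ⟨fun y => [g (if y = b then a else y)], fun x => by simp, ?_, ?_⟩
    · intro x hx y hy
      rw [List.mem_singleton] at hy
      rw [hy]
      split_ifs with h
      · exact hgn a hab (by omega)
      · exact hgn x h hx
    · intro U' hU' hUn' h
      have e : ∀ W : List ℕ, W.flatMap (fun y => [g (if y = b then a else y)]) =
          (W.flatMap (s1 b [a])).map g := by
        intro W
        rw [← flatMap_sing, flatMap_flatMap]
        refine flatMap_congr' fun x _ => ?_
        unfold s1
        split_ifs <;> simp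
      rw [e, e] at h
      have h1 : R (U'.flatMap (s1 b [a])) (U.flatMap (s1 b [a])) := by
        refine hR.of_map (g := g) ?_ h
        intro x y hx hy hxy
        have hnb : ∀ z, z ∈ U'.flatMap (s1 b [a]) ++ U.flatMap (s1 b [a]) → z ≠ b := by
          intro z hz
          rw [List.mem_append] at hz
          rcases hz with hz | hz <;>
          · rcases mem_flatMap_s1 hz with h | h
            · exact h.2
            · rw [List.mem_singleton] at h; rw [h]; exact hab
        exact hg x y (hnb x hx) (hnb y hy) hxy
      have h2 := hR.trans h1 (hib [a] (by simp))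
      exact hR.merge_all hA hm hNS hab hU hU' hK hia hib h2
  · -- `U` is short
    have hl : U.length < m := by
      by_contra h
      push Not at h
      exact hK (hm U h)
    have hginj : ∀ x y, x ∈ U → y ∈ U → U.idxOf x = U.idxOf y → x = y := by
      intro x y hx hy hxy
      exact (List.idxOf_inj hx).1 hxy
    refine ⟨fun x => if x ∈ U then [U.idxOf x] else List.replicate (m + 1) 0, ?_, ?_, ?_⟩
    · intro x
      beta_reduce
      split_ifs <;> simp
    · intro x hx y hy
      beta_reduce at hy
      split_ifs at hy with h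
      · rw [List.mem_singleton] at hy
        have := List.idxOf_lt_length_iff.2 h
        omega
      · rw [List.mem_replicate] at hy
        omega
    · intro U' hU' hUn' h
      have e1 : U.flatMap (fun x => if x ∈ U then [U.idxOf x] else List.replicate (m + 1) 0) =
          U.map U.idxOf := by
        rw [← flatMap_sing]
        exact flatMap_congr' fun x hx => by simp [hx]
      rw [e1] at h
      have hnK : ¬ KK R (U.map U.idxOf) := fun hh => hK (hR.KK_of_map hginj hh)
      by_cases hsub : ∀ x ∈ U', x ∈ U
      · have e2 : U'.flatMap (fun x => if x ∈ U then [U.idxOf x] else List.replicate (m + 1) 0) =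
            U'.map U.idxOf := by
          rw [← flatMap_sing]
          exact flatMap_congr' fun x hx => by simp [hsub x hx]
        rw [e2] at h
        refine hR.of_map ?_ h
        intro x y hx hy hxy
        refine hginj x y ?_ ?_ hxy
        · rcases List.mem_append.1 hx with hx | hx
          · exact hsub x hx
          · exact hx
        · rcases List.mem_append.1 hy with hy | hy
          · exact hsub y hy
          · exact hy
      · exfalso
        push Not at hsub
        obtain ⟨x, hx, hxU⟩ := hsub
        obtain ⟨l1, l2, rfl⟩ := List.append_of_mem hx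
        apply hnK
        refine hR.KK_congr h ?_
        rw [List.flatMap_append, List.flatMap_cons, if_neg hxU, ← List.append_assoc]
        exact hR.KK_ideal hA (by simp) (hm _ (by simp)) _ _

end Pool.Agent.Lib.MP_b02441_al
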