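import Pool.Agent.Lib.MP_b02441_al.Basic

/-!
# The isolation criterion (for MP_b02441_al)
-/

set_option autoImplicit false
set_option linter.unusedVariables false

namespace Pool.Agent.Lib.MP_b02441_al

variable {E : Set (Word × Word)}

/-- Every element of `Fr E (n + 1)` is isolated by a homomorphism to `Fr E n`. -/
def IsoH (E : Set (Word × Word)) (n : ℕ) : Prop :=
  ∀ U : Fr E (n + 1), ∃ θ : Fr E (n + 1) →ₙ* Fr E n, ∀ U', θ U' = θ U → U' = U

/-- the embedding `Fr E m → Fr E n` for `m ≤ n` -/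
def Fr.up (E : Set (Word × Word)) {m n : ℕ} (h : m ≤ n) : Fr E m →ₙ* Fr E n :=
  Fr.lift (mem_Fr E n) fun i => Fr.of (Fin.castLE h i)

/-- the retraction `Fr E n → Fr E m` -/
def Fr.dn (E : Set (Word × Word)) {m n : ℕ} (h : 0 < m) : Fr E n →ₙ* Fr E m :=
  Fr.lift (mem_Fr E m) fun i => if hi : i.val < m then Fr.of ⟨i.val, hi⟩ else Fr.of ⟨0, h⟩

theorem Fr.dn_up {m n : ℕ} (h : m ≤ n) (h0 : 0 < m) (x : Fr E m) :
    Fr.dn E h0 (Fr.up E h x) = x := by
  have : (Fr.dn E h0).comp (Fr.up E h) = MulHom.id _ := by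
    refine Fr.hom_ext fun i => ?_
    change Fr.dn E h0 (Fr.up E h (Fr.of i)) = Fr.of i
    rw [Fr.up, Fr.lift_of, Fr.dn, Fr.lift_of]
    rw [dif_pos (show (Fin.castLE h i).val < m from i.isLt)]
    rfl
  exact DFunLike.congr_fun this x

theorem Fr.up_injective {m n : ℕ} (h : m ≤ n) (h0 : 0 < m) :
    Function.Injective (Fr.up E h) := fun x y hxy => by
  rw [← Fr.dn_up h h0 x, ← Fr.dn_up h h0 y, hxy]

/-- words over `Fin n` as words -/
def emb (n : ℕ) : FreeSemigroup (Fin n) →ₙ* Word := FreeSemigroup.map Fin.val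

theorem lift_emb {n : ℕ} {S : Type} [Semigroup S] (hS : Mem E S) (ψ : Word →ₙ* S)
    (w : FreeSemigroup (Fin n)) :
    ψ (emb n w) = Fr.lift hS (fun i => ψ (FreeSemigroup.of i.val)) (w : Fr E n) := by
  induction w using FreeSemigroup.recOnMul with
  | ih1 i =>
    change ψ (FreeSemigroup.of i.val) = Fr.lift hS _ (Fr.of i : Fr E n)
    rw [Fr.lift_of]
  | ih2 i y hx hy =>
    rw [map_mul, map_mul, hx, hy, Con.coe_mul, map_mul]

theorem isoH_of_inclEquiv {m n : ℕ} (hm : 0 < m) (hmn : m < n)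
    (h : InclEquiv (Fr E m) (Fr E n)) : IsoH E m := by
  intro U
  obtain ⟨u₀, rfl⟩ : ∃ w : FreeSemigroup (Fin (m + 1)), (w : Fr E (m + 1)) = U := by
    induction U using Con.induction_on with
    | H w => exact ⟨w, rfl⟩
  let W : Set Word := {w | ∃ w₀ : FreeSemigroup (Fin (m + 1)), emb (m + 1) w₀ = w ∧
    (w₀ : Fr E (m + 1)) ≠ (u₀ : Fr E (m + 1))}
  by_cases hW : W.Nonempty
  · have h1 : ¬ SatIncl (Fr E n) (emb (m + 1) u₀) W := by
      intro hs
      let φ : Word →ₙ* Fr E n := FreeSemigroup.lift fun i =>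
        if hi : i < m + 1 then Fr.up E hmn (Fr.of ⟨i, hi⟩) else Fr.up E hmn (Fr.of ⟨0, by omega⟩)
      have hφ : ∀ w₀ : FreeSemigroup (Fin (m + 1)),
          φ (emb (m + 1) w₀) = Fr.up E hmn (w₀ : Fr E (m + 1)) := by
        intro w₀
        rw [lift_emb (mem_Fr E n)]
        congr 1
        refine Fr.hom_ext fun i => ?_
        rw [Fr.lift_of]
        change FreeSemigroup.lift _ (FreeSemigroup.of i.val) = _
        rw [FreeSemigroup.lift_of, dif_pos i.isLt]
      obtain ⟨w, ⟨w₀, rfl, hw⟩, hw2⟩ := hs φ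
      rw [hφ, hφ] at hw2
      exact hw (Fr.up_injective hmn (by omega) hw2).symm
    rw [← h _ _ hW] at h1
    unfold SatIncl at h1
    push Not at h1
    obtain ⟨ψ, hψ⟩ := h1
    refine ⟨Fr.lift (mem_Fr E m) (fun i => ψ (FreeSemigroup.of i.val)), fun U' hU' => ?_⟩
    obtain ⟨w₀, rfl⟩ : ∃ w : FreeSemigroup (Fin (m + 1)), (w : Fr E (m + 1)) = U' := by
      induction U' using Con.induction_on with
      | H w => exact ⟨w, rfl⟩
    by_contra hne
    rw [← lift_emb (mem_Fr E m), ← lift_emb (mem_Fr E m)] at hU'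
    exact hψ _ ⟨w₀, rfl, hne⟩ hU'.symm
  · refine ⟨Fr.dn E hm, fun U' _ => ?_⟩
    obtain ⟨w₀, rfl⟩ : ∃ w : FreeSemigroup (Fin (m + 1)), (w : Fr E (m + 1)) = U' := by
      induction U' using Con.induction_on with
      | H w => exact ⟨w, rfl⟩
    by_contra hne
    exact hW ⟨_, w₀, rfl, hne⟩

theorem separated_iff : Separated E ↔ ∀ n, 1 ≤ n → ¬ IsoH E n := by
  constructor
  · intro h n hn hiso
    refine h n (n + 1) hn (by omega) (by omega) ?_
    intro u W _
    constructor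
    · intro hs φ
      obtain ⟨θ, hθ⟩ := hiso (φ u)
      obtain ⟨w, hw, hw2⟩ := hs (θ.comp φ)
      exact ⟨w, hw, (hθ _ hw2.symm).symm⟩
    · intro hs φ
      obtain ⟨w, hw, hw2⟩ := hs ((Fr.up E (Nat.le_succ n)).comp φ)
      exact ⟨w, hw, Fr.up_injective (Nat.le_succ n) (by omega) hw2⟩
  · intro h m n hm hn hmn he
    rcases Nat.lt_or_gt_of_ne hmn with hlt | hlt
    · exact h m hm (isoH_of_inclEquiv hm hlt he)
    · exact h n hn (isoH_of_inclEquiv hn hlt fun u W hW => (he u W hW).symm)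

end Pool.Agent.Lib.MP_b02441_al
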