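import Mathlib

/-!
# Definitions for MP_b02441_al: identical inclusions and free semigroups of varieties
-/

set_option autoImplicit false

namespace Pool.Agent.Lib.MP_b02441_al

/-- The free semigroup `X⁺` of nonempty words over the alphabet `x_0, x_1, x_2, …`. -/
abbrev Word : Type := FreeSemigroup ℕ

/-- The semigroup `S` satisfies the identity `p = q`. -/
def SatId (S : Type) [Semigroup S] (p q : Word) : Prop := ∀ φ : Word →ₙ* S, φ p = φ q

/-- The semigroup `S` satisfies the identical inclusion `u ∈̂ W`. -/
def SatIncl (S : Type) [Semigroup S] (u : Word) (W : Set Word) : Prop :=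
  ∀ φ : Word →ₙ* S, ∃ w ∈ W, φ u = φ w

/-- `S` and `T` satisfy exactly the same identical inclusions. -/
def InclEquiv (S T : Type) [Semigroup S] [Semigroup T] : Prop :=
  ∀ (u : Word) (W : Set Word), W.Nonempty → (SatIncl S u W ↔ SatIncl T u W)

/-- The semigroup `S` belongs to the variety defined by the set `E` of identities. -/
def Mem (E : Set (Word × Word)) (S : Type) [Semigroup S] : Prop := ∀ p ∈ E, SatId S p.1 p.2

/-- The identity `u = v` holds in all semigroups of the variety defined by `E`. -/
def Holds (E : Set (Word × Word)) (u v : Word) : Prop :=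
  ∀ (S : Type) [Semigroup S], Mem E S → SatId S u v

/-- The congruence on the free semigroup with `n` generators which identifies two words when they
have the same value in all semigroups of the variety defined by `E`. -/
def freeCon (E : Set (Word × Word)) (n : ℕ) : Con (FreeSemigroup (Fin n)) where
  r u v := ∀ (S : Type) [Semigroup S], Mem E S → ∀ φ : FreeSemigroup (Fin n) →ₙ* S, φ u = φ v
  iseqv := ⟨fun _ _ _ _ _ => rfl, fun h S _ hS φ => (h S hS φ).symm,
    fun h h' S _ hS φ => (h S hS φ).trans (h' S hS φ)⟩
  mul' := fun h h' S _ hS φ => by rw [map_mul, map_mul, h S hS φ, h' S hS φ]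

/-- The free semigroup `F_n(V)` of rank `n` of the variety `V` defined by `E`. -/
abbrev Fr (E : Set (Word × Word)) (n : ℕ) : Type := (freeCon E n).Quotient

/-- The finitely generated free semigroups of the variety are separated by identical inclusions. -/
def Separated (E : Set (Word × Word)) : Prop :=
  ∀ m n : ℕ, 1 ≤ m → 1 ≤ n → m ≠ n → ¬ InclEquiv (Fr E m) (Fr E n)

/-- The variety is locally finite: its finitely generated free semigroups are finite. -/
def LocallyFinite (E : Set (Word × Word)) : Prop := ∀ n : ℕ, Finite (Fr E n)

/-- The word `x_0 x_1 ⋯ x_m`. -/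
def lin (m : ℕ) : Word := ⟨0, (List.range m).map (· + 1)⟩

/-- The endomorphism of `X⁺` which maps the letter `x_i` to the word `t` and fixes the other
letters. -/
def subst (i : ℕ) (t : Word) : Word →ₙ* Word :=
  FreeSemigroup.lift fun j => if j = i then t else FreeSemigroup.of j

/-- The word `w` is idempotent in the variety: `w w = w` is an identity of the variety. -/
def Idem (E : Set (Word × Word)) (w : Word) : Prop := Holds E (w * w) w

/-- In the variety, the word `u` does not depend on the letter `x_i`. -/
def IndepOf (E : Set (Word × Word)) (u : Word) (i : ℕ) : Prop := ∀ t : Word, Holds E (subst i t u) u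

/-- Condition one: for some `m`, the variety satisfies
`x_0 ⋯ x_m x_{m+1} x_0 ⋯ x_m = x_0 ⋯ x_m`. -/
def NS1 (E : Set (Word × Word)) : Prop :=
  ∃ m : ℕ, Holds E (lin m * FreeSemigroup.of (m + 1) * lin m) (lin m)

/-- Condition two: for every word `w` and letters `x_i ≠ x_j`, if `w w` does not depend on `x_i`
and `x_j`, and the word obtained from `w` by replacing `x_j` with `x_i` is idempotent, then `w` is
idempotent. -/
def NS2 (E : Set (Word × Word)) : Prop :=
  ∀ (w : Word) (i j : ℕ), i ≠ j → IndepOf E (w * w) i → IndepOf E (w * w) j →
    Idem E (subst j (FreeSemigroup.of i) w) → Idem E w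

end Pool.Agent.Lib.MP_b02441_al
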