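import Pool.Agent.Lib.MP_b02441_al.Rel
import Pool.Agent.Lib.MP_b02441_al.SLCase
import Pool.Agent.Lib.MP_b02441_al.CombA
import Pool.Agent.Lib.MP_b02441_al.CombD

/-!
# Separation in locally finite varieties (for MP_b02441_al)
-/

set_option autoImplicit false
set_option linter.unusedVariables false

namespace Pool.Agent.Lib.MP_b02441_al

variable {E : Set (Word × Word)}

/-- the generators, indexed by natural numbers -/
def gen (E : Set (Word × Word)) {n : ℕ} (hn : 0 < n) : ℕ → Fr E n := fun i =>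
  if h : i < n then Fr.of ⟨i, h⟩ else Fr.of ⟨0, hn⟩

theorem gen_of {n : ℕ} (hn : 0 < n) (i : Fin n) : gen E hn i.val = Fr.of i := by
  rw [gen, dif_pos i.isLt]

theorem gen_surj {n : ℕ} (hn : 0 < n) (x : Fr E n) :
    ∃ l : List ℕ, l ≠ [] ∧ (∀ i ∈ l, i < n) ∧ ev (gen E hn) l = (x : WithOne (Fr E n)) := by
  induction x using Fr.induction with
  | h1 i =>
    refine ⟨[i.val], by simp, ?_, ?_⟩
    · intro j hj
      rw [List.mem_singleton] at hj
      rw [hj]; exact i.isLt
    · rw [ev_singleton, gen_of]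
  | h2 x y hx hy =>
    obtain ⟨l, hl, hl2, hl3⟩ := hx
    obtain ⟨l', hl', hl2', hl3'⟩ := hy
    refine ⟨l ++ l', by simp [hl], ?_, ?_⟩
    · intro i hi
      rcases List.mem_append.1 hi with h | h
      · exact hl2 i h
      · exact hl2' i h
    · rw [ev_append, hl3, hl3', WithOne.coe_mul]

theorem ev_gen_iff {n : ℕ} (hn : 0 < n) {u v : List ℕ} (hu : ∀ i ∈ u, i < n)
    (hv : ∀ i ∈ v, i < n) : ev (gen E hn) u = ev (gen E hn) v ↔ RE E u v := by
  constructor
  · intro h S _ hS f
    have h1 : ∀ i < n, Fr.lift hS (fun i : Fin n => f i.val) (gen E hn i) = f i := by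
      intro i hi
      have := gen_of (E := E) hn ⟨i, hi⟩
      change gen E hn i = _ at this
      rw [this, Fr.lift_of]
    rw [← ev_map (Fr.lift hS fun i : Fin n => f i.val) (gen E hn) f fun x hx => h1 x (hu x hx),
      ← ev_map (Fr.lift hS fun i : Fin n => f i.val) (gen E hn) f fun x hx => h1 x (hv x hx), h]
  · intro h
    exact h _ (mem_Fr E n) _

theorem isoL_of_isoH {n : ℕ} (hn : 1 ≤ n) (h : IsoH E n) : IsoL (RE E) n := by
  intro U hU hUn
  have hUn' : ∀ i ∈ U, i < n + 1 := fun i hi => Nat.lt_succ_of_le (hUn i hi)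
  obtain ⟨x, hx⟩ := ev_exists (gen E (Nat.succ_pos n)) hU
  obtain ⟨θ, hθ⟩ := h x
  choose k hk1 hk2 hk3 using fun y : Fr E n => gen_surj (E := E) hn y
  let s : ℕ → List ℕ := fun i => k (θ (gen E (Nat.succ_pos n) i))
  refine ⟨s, fun i => hk1 _, fun i _ => hk2 _, fun U' hU' hUn2 hR => ?_⟩
  have hUn2' : ∀ i ∈ U', i < n + 1 := fun i hi => Nat.lt_succ_of_le (hUn2 i hi)
  obtain ⟨x', hx'⟩ := ev_exists (gen E (Nat.succ_pos n)) hU'
  have h1 : ∀ l : List ℕ, ev (gen E hn) (l.flatMap s) =
      WithOne.mapMulHom θ (ev (gen E (Nat.succ_pos n)) l) := by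
    intro l
    rw [ev_flatMap (gen E hn) (fun i => θ (gen E (Nat.succ_pos n) i)) s fun i _ => hk3 _]
    exact (ev_map θ _ _ fun _ _ => rfl).symm
  have h2 := hR _ (mem_Fr E n) (gen E hn)
  rw [h1, h1, hx, hx', WithOne.mapMulHom_coe, WithOne.mapMulHom_coe, WithOne.coe_inj] at h2
  have h3 := hθ _ h2
  rw [← ev_gen_iff (Nat.succ_pos n) hUn2' hUn', hx, hx', h3]

/-- If `V` is locally finite, contains neither semilattices nor groups, then long words over
finitely many letters are idempotent. -/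
theorem long_idem (hLF : LocallyFinite E) {k : ℕ}
    (hk : ∀ (S : Type) [Semigroup S], Mem E S → ∀ s : S, pw s (k + 1) = pw s k)
    (hA : ∀ e : List ℕ, e ≠ [] → KK (RE E) e → ∀ u, RE E (e ++ u ++ e) e) (n : ℕ) :
    ∃ c, ∀ w : List ℕ, (∀ x ∈ w, x < n) → c < w.length → KK (RE E) w := by
  have hR := RE_fic E
  rcases Nat.eq_zero_or_pos n with rfl | hn
  · refine ⟨0, fun w hw hc => ?_⟩
    have hw0 : w ≠ [] := List.length_pos_iff.1 hc
    obtain ⟨x, hx⟩ := List.exists_mem_of_ne_nil w hw0
    exact absurd (hw x hx) (Nat.not_lt_zero x)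
  have hfin := hLF n
  refine ⟨Nat.card (Fr E n), fun w hw hc => ?_⟩
  -- prefixes
  have hne : ∀ i : ℕ, w.take (i + 1) ≠ [] := by
    intro i h0
    rw [List.take_eq_nil_iff] at h0
    rcases h0 with h0 | h0
    · omega
    · rw [h0] at hc; simp at hc
  choose F hF using fun i : ℕ => ev_exists (gen E hn) (hne i)
  obtain ⟨i, j, hij, hFij⟩ : ∃ i j : Fin (Nat.card (Fr E n) + 1), i < j ∧ F i.val = F j.val := by
    have hfin2 : ¬ Function.Injective fun i : Fin (Nat.card (Fr E n) + 1) => F i.val := by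
      intro hinj
      have := Nat.card_le_card_of_injective _ hinj
      rw [Nat.card_eq_fintype_card, Fintype.card_fin] at this
      omega
    unfold Function.Injective at hfin2
    push Not at hfin2
    obtain ⟨a, b, hab, hne⟩ := hfin2
    rcases lt_or_gt_of_ne hne with h | h
    · exact ⟨a, b, h, hab⟩
    · exact ⟨b, a, h, hab.symm⟩
  have hij' : i.val < j.val := hij
  have hj : j.val + 1 ≤ w.length := by
    have := j.isLt
    omega
  have h1 : ev (gen E hn) (w.take (i.val + 1)) = ev (gen E hn) (w.take (j.val + 1)) := by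
    rw [hF, hF, hFij]
  rw [ev_gen_iff hn (fun x hx => hw x (List.mem_of_mem_take hx))
    (fun x hx => hw x (List.mem_of_mem_take hx))] at h1
  obtain ⟨p, t, r, hp, hwt, ht, hpt⟩ : ∃ p t r : List ℕ, p = w.take (i.val + 1) ∧
      w = p ++ t ++ r ∧ t ≠ [] ∧ p ++ t = w.take (j.val + 1) := by
    refine ⟨w.take (i.val + 1), (w.take (j.val + 1)).drop (i.val + 1), w.drop (j.val + 1), rfl,
      ?_, ?_, ?_⟩
    · have e1 : w.take (i.val + 1) = (w.take (j.val + 1)).take (i.val + 1) := by
        rw [List.take_take]; congr 1; omega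
      rw [e1, List.take_append_drop, List.take_append_drop]
    · intro h0
      rw [List.drop_eq_nil_iff, List.length_take] at h0
      omega
    · have e1 : w.take (i.val + 1) = (w.take (j.val + 1)).take (i.val + 1) := by
        rw [List.take_take]; congr 1; omega
      rw [e1, List.take_append_drop]
  rw [← hp, ← hpt] at h1
  -- `t` to a large power
  have h2 : ∀ K, RE E p (p ++ lp t K) := by
    intro K
    induction K with
    | zero => rw [lp_zero]; exact h1
    | succ K ih =>
      rw [lp_succ']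
      have := hR.appR t ih
      rw [List.append_assoc] at this
      exact hR.trans h1 this
  have hpwk : ∀ (S : Type) [Semigroup S] (f : ℕ → S) (s : S), ev f t = (s : WithOne S) → ∀ K,
      ev f (lp t K) = ((pw s K : S) : WithOne S) := by
    intro S _ f s hs K
    induction K with
    | zero => rw [lp_zero, hs, pw_zero]
    | succ K ih => rw [lp_succ', ev_append, ih, hs, pw_succ, WithOne.coe_mul]
  have h3 : KK (RE E) (lp t k) := by
    intro S _ hS f
    obtain ⟨s, hs⟩ := ev_exists f ht
    rw [ev_append, hpwk S f s hs k, ← WithOne.coe_mul, ← pw_add, WithOne.coe_inj]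
    have h4 : ∀ j, pw s (k + j) = pw s k := by
      intro j
      induction j with
      | zero => rfl
      | succ j ih => rw [← Nat.add_assoc, pw_succ, ih, ← pw_succ, hk S hS]
    rw [Nat.add_assoc]; exact h4 _
  have he0 : lp t k ≠ [] := by
    intro h0
    have := lp_length ht k
    rw [h0] at this; simp at this
  have h5 : RE E w (p ++ lp t k ++ r) := by
    rw [hwt]
    exact hR.trans (hR.symm (hR.appR r h1)) (hR.appR r (h2 k))
  refine hR.KK_congr (hR.symm h5) ?_
  have h6 := hA _ he0 h3 (r ++ p)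
  have h7 := hR.app p r h6
  have e : p ++ lp t k ++ r ++ (p ++ lp t k ++ r) = p ++ (lp t k ++ (r ++ p) ++ lp t k) ++ r := by
    simp
  unfold KK
  rw [e]; exact h7

/-- **Classification for locally finite varieties.** -/
theorem separated_iff_of_locallyFinite (hLF : LocallyFinite E) :
    Separated E ↔ ¬ (NS1 E ∧ NS2 E) := by
  have hR := RE_fic E
  rw [separated_iff]
  constructor
  · rintro h ⟨h1, h2⟩
    obtain ⟨⟨m, hm1, hm⟩, hA⟩ := h1.list
    have h3 := hR.iso_of_NS hA hm1 hm (NS2_iff.1 h2)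
    refine h (2 * m + 1) (by omega) ?_
    -- from lists to homomorphisms
    generalize hn' : 2 * m + 1 = n at h3
    have hn : 0 < n := by omega
    intro x
    obtain ⟨U, hU1, hU2, hU3⟩ := gen_surj (E := E) (Nat.succ_pos n) x
    obtain ⟨s, hs1, hs2, hs3⟩ := h3 U hU1 fun i hi => Nat.le_of_lt_succ (hU2 i hi)
    choose g hg using fun i => ev_exists (gen E hn) (hs1 i)
    let θ : Fr E (n + 1) →ₙ* Fr E n := Fr.lift (mem_Fr E n) fun i => g i.val
    have h4 : ∀ l : List ℕ, (∀ i ∈ l, i < n + 1) → ev (gen E hn) (l.flatMap s) =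
        WithOne.mapMulHom θ (ev (gen E (Nat.succ_pos n)) l) := by
      intro l hl
      rw [ev_flatMap (gen E hn) g s fun i _ => hg i]
      refine (ev_map θ _ _ fun i hi => ?_).symm
      have := gen_of (E := E) (Nat.succ_pos n) ⟨i, hl i hi⟩
      change gen E _ i = _ at this
      rw [this]
      exact Fr.lift_of _ _ _
    refine ⟨θ, fun x' hx' => ?_⟩
    obtain ⟨U', hU1', hU2', hU3'⟩ := gen_surj (E := E) (Nat.succ_pos n) x'
    have h5 : RE E (U'.flatMap s) (U.flatMap s) := by
      rw [← ev_gen_iff hn, h4 _ hU2', h4 _ hU2, hU3, hU3', WithOne.mapMulHom_coe,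
        WithOne.mapMulHom_coe, hx']
      · intro i hi
        obtain ⟨j, hj, hij⟩ := List.mem_flatMap.1 hi
        exact hs2 j (Nat.le_of_lt_succ (hU2' j hj)) i hij
      · intro i hi
        obtain ⟨j, hj, hij⟩ := List.mem_flatMap.1 hi
        exact hs2 j (Nat.le_of_lt_succ (hU2 j hj)) i hij
    have h6 := hs3 U' hU1' (fun i hi => Nat.le_of_lt_succ (hU2' i hi)) h5
    rw [← ev_gen_iff (Nat.succ_pos n) hU2' hU2, hU3, hU3', WithOne.coe_inj] at h6
    exact h6
  · intro hNS n hn hiso
    by_cases hL : Mem E L2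
    · exact not_isoH_of_L2 hLF hL hn hiso
    by_cases hk : ∃ k, ∀ (S : Type) [Semigroup S], Mem E S → ∀ s : S, pw s (k + 1) = pw s k
    · obtain ⟨k, hk⟩ := hk
      have hA : ∀ e : List ℕ, e ≠ [] → KK (RE E) e → ∀ u, RE E (e ++ u ++ e) e := by
        intro e he hK u S _ hS f
        obtain ⟨a, ha⟩ := ev_exists f he
        have ha2 : a * a = a := by
          have := hK S hS f
          rwa [ev_append, ha, ← WithOne.coe_mul, WithOne.coe_inj] at this
        by_cases hu : u = []
        · rw [hu, List.append_nil]; exact hK S hS f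
        · obtain ⟨b, hb⟩ := ev_exists f hu
          rw [ev_append, ev_append, ha, hb, ← WithOne.coe_mul, ← WithOne.coe_mul,
            ete_of hk hL hS ha2 b]
      refine hR.not_iso (long_idem hLF hk hA) ?_ n (isoL_of_isoH hn hiso)
      rintro ⟨h1, h2⟩
      exact hNS ⟨NS1_of h1 hA, NS2_iff.2 h2⟩
    · push Not at hk
      obtain ⟨G, _, γ, hG, hγ⟩ := exists_group hLF hk
      exact not_isoH_of_group hLF hG hγ hn hiso

end Pool.Agent.Lib.MP_b02441_al
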