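import Mathlib

/-!
# Finite semigroups: idempotents and maximal subgroups (for MP_b02441_al)
-/

set_option autoImplicit false
set_option linter.unusedVariables false

namespace Pool.Agent.Lib.MP_b02441_al

/-- `pw s k = s ^ (k + 1)` -/
def pw {S : Type} [Semigroup S] (s : S) : ℕ → S
  | 0 => s
  | k + 1 => pw s k * s

section

variable {S : Type} [Semigroup S]

@[simp] theorem pw_zero (s : S) : pw s 0 = s := rfl

theorem pw_succ (s : S) (k : ℕ) : pw s (k + 1) = pw s k * s := rfl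

theorem pw_add (s : S) (a b : ℕ) : pw s (a + b + 1) = pw s a * pw s b := by
  induction b with
  | zero => rfl
  | succ b ih =>
    rw [show a + (b + 1) + 1 = (a + b + 1) + 1 by ring, pw_succ, ih, pw_succ, mul_assoc]

theorem pw_succ' (s : S) (k : ℕ) : pw s (k + 1) = s * pw s k := by
  have := pw_add s 0 k
  rwa [pw_zero, Nat.zero_add] at this

theorem map_pw {T : Type} [Semigroup T] (φ : S →ₙ* T) (s : S) (k : ℕ) :
    φ (pw s k) = pw (φ s) k := by
  induction k with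
  | zero => rfl
  | succ k ih => rw [pw_succ, pw_succ, map_mul, ih]

theorem pw_idem {e : S} (h : e * e = e) (k : ℕ) : pw e k = e := by
  induction k with
  | zero => rfl
  | succ k ih => rw [pw_succ, ih, h]

theorem pw_mem {T : Set S} (hT : ∀ x ∈ T, ∀ y ∈ T, x * y ∈ T) {s : S} (hs : s ∈ T) (k : ℕ) :
    pw s k ∈ T := by
  induction k with
  | zero => exact hs
  | succ k ih => exact hT _ ih _ hs

theorem pw_left {e s : S} (h : e * s = s) (k : ℕ) : e * pw s k = pw s k := by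
  induction k with
  | zero => exact h
  | succ k ih => rw [pw_succ, ← mul_assoc, ih]

theorem pw_right {e s : S} (h : s * e = s) (k : ℕ) : pw s k * e = pw s k := by
  cases k with
  | zero => exact h
  | succ k => rw [pw_succ, mul_assoc, h]

theorem exists_idem_in [Finite S] (T : Set S) (hT : T.Nonempty)
    (hmul : ∀ x ∈ T, ∀ y ∈ T, x * y ∈ T) : ∃ e ∈ T, e * e = e := by
  let _ : TopologicalSpace S := ⊥
  have : DiscreteTopology S := ⟨rfl⟩
  exact exists_idempotent_in_compact_subsemigroup (fun r => continuous_of_discreteTopology) T hT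
    (Set.toFinite T).isCompact hmul

theorem exists_pw_idem [Finite S] (s : S) : ∃ k, pw s k * pw s k = pw s k := by
  obtain ⟨e, ⟨k, rfl⟩, he⟩ := exists_idem_in (Set.range (pw s)) ⟨s, 0, rfl⟩ (by
    rintro _ ⟨a, rfl⟩ _ ⟨b, rfl⟩
    exact ⟨a + b + 1, pw_add s a b⟩)
  exact ⟨k, he⟩

/-- `e` is a minimal idempotent of `T`. -/
structure MinIdem (T : Set S) (e : S) : Prop where
  mem : e ∈ T
  idem : e * e = e
  min : ∀ f ∈ T, f * f = f → e * f = f → f * e = f → f = e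

theorem exists_minIdem [Finite S] (T : Set S) (hmul : ∀ x ∈ T, ∀ y ∈ T, x * y ∈ T)
    {f : S} (hf : f ∈ T) (hff : f * f = f) : ∃ e, MinIdem T e ∧ f * e = e ∧ e * f = e := by
  let D : S → Set S := fun g => {h | h ∈ T ∧ h * h = h ∧ g * h = h ∧ h * g = h}
  obtain ⟨e, he, hmin⟩ := (Set.toFinite (D f)).exists_minimalFor D _ ⟨f, hf, hff, hff, hff⟩
  have hsub : ∀ g, g ∈ D e → D g ⊆ D e := by
    rintro g ⟨hg1, hg2, hg3, hg4⟩ h ⟨h1, h2, h3, h4⟩
    refine ⟨h1, h2, ?_, ?_⟩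
    · rw [← h3, ← mul_assoc, hg3]
    · rw [← h4, mul_assoc, hg4]
  obtain ⟨he1, he2, he3, he4⟩ := he
  refine ⟨e, ⟨he1, he2, fun g hg1 hg2 hg3 hg4 => ?_⟩, he3, he4⟩
  have hgD : g ∈ D e := ⟨hg1, hg2, hg3, hg4⟩
  have hgf : g ∈ D f := by
    refine ⟨hg1, hg2, ?_, ?_⟩
    · rw [← hg3, ← mul_assoc, he3]
    · rw [← hg4, mul_assoc, he4]
  have h1 := hmin hgf (hsub g hgD)
  have h2 : e ∈ D g := h1 ⟨he1, he2, he2, he2⟩
  rw [← hg4]
  exact h2.2.2.1

theorem MinIdem.exists_pw [Finite S] {T : Set S} (hmul : ∀ x ∈ T, ∀ y ∈ T, x * y ∈ T) {e : S}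
    (he : MinIdem T e) {s : S} (hs : s ∈ T) : ∃ k, pw (e * s * e) k = e := by
  obtain ⟨k, hk⟩ := exists_pw_idem (e * s * e)
  refine ⟨k, he.min _ ?_ hk ?_ ?_⟩
  · exact pw_mem hmul (hmul _ (hmul _ he.mem _ hs) _ he.mem) k
  · exact pw_left (by rw [← mul_assoc, ← mul_assoc, he.idem]) k
  · exact pw_right (by rw [mul_assoc, he.idem]) k

/-- The maximal subgroup at `e`. -/
def HH (e : S) : Set S :=
  {s | e * s = s ∧ s * e = s ∧ ∃ t, e * t = t ∧ t * e = t ∧ s * t = e ∧ t * s = e}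

theorem HH_self {e : S} (he : e * e = e) : e ∈ HH e := ⟨he, he, e, he, he, he, he⟩

theorem HH_mul {e s t : S} (hs : s ∈ HH e) (ht : t ∈ HH e) : s * t ∈ HH e := by
  obtain ⟨hs1, hs2, s', hs3, hs4, hs5, hs6⟩ := hs
  obtain ⟨ht1, ht2, t', ht3, ht4, ht5, ht6⟩ := ht
  refine ⟨by rw [← mul_assoc, hs1], by rw [mul_assoc, ht2], t' * s', by rw [← mul_assoc, ht3],
    by rw [mul_assoc, hs4], ?_, ?_⟩
  · rw [mul_assoc, ← mul_assoc t, ht5, hs3, hs5]
  · rw [mul_assoc, ← mul_assoc s', hs6, ht1, ht6]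

/-- an idempotent of `HH e` equals `e` -/
theorem HH_idem {e s : S} (hs : s ∈ HH e) (h : s * s = s) : s = e := by
  obtain ⟨hs1, hs2, s', hs3, hs4, hs5, hs6⟩ := hs
  calc s = e * s := hs1.symm
    _ = (s' * s) * s := by rw [hs6]
    _ = s' * (s * s) := mul_assoc _ _ _
    _ = s' * s := by rw [h]
    _ = e := hs6

theorem HH_of_pw {e s : S} (h1 : e * s = s) (h2 : s * e = s) (he : e * e = e) {k : ℕ}
    (hk : pw s k = e) : s ∈ HH e := by
  have h3 : pw s (k + k + 1) = e := by rw [pw_add, hk, he]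
  have h4 := pw_succ s (k + k)
  have h5 := pw_succ' s (k + k)
  refine ⟨h1, h2, pw s (k + k), pw_left h1 _, pw_right h2 _, ?_, ?_⟩
  · rw [← h5, h3]
  · rw [← h4, h3]

theorem MinIdem.mem_HH [Finite S] {T : Set S} (hmul : ∀ x ∈ T, ∀ y ∈ T, x * y ∈ T) {e : S}
    (he : MinIdem T e) {s : S} (hs : s ∈ T) : e * s * e ∈ HH e := by
  obtain ⟨k, hk⟩ := he.exists_pw hmul hs
  exact HH_of_pw (by rw [← mul_assoc, ← mul_assoc, he.idem]) (by rw [mul_assoc, he.idem]) he.idem hk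

theorem HH_map {T : Type} [Semigroup T] (φ : S →ₙ* T) {e s : S} (hs : s ∈ HH e) :
    φ s ∈ HH (φ e) := by
  obtain ⟨h1, h2, t, h3, h4, h5, h6⟩ := hs
  refine ⟨by rw [← map_mul, h1], by rw [← map_mul, h2], φ t, by rw [← map_mul, h3],
    by rw [← map_mul, h4], by rw [← map_mul, h5], by rw [← map_mul, h6]⟩

theorem HH_card_le {T : Type} [Semigroup T] [Finite T] (φ : S →ₙ* T) {e : S}
    (hφ : ∀ s, φ s = φ e → s = e) : Nat.card (HH e) ≤ Nat.card (HH (φ e)) := by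
  let F : HH e → HH (φ e) := fun s => ⟨φ s.1, HH_map φ s.2⟩
  refine Nat.card_le_card_of_injective F ?_
  rintro ⟨s, hs⟩ ⟨s', hs'⟩ h
  have hh : φ s = φ s' := congrArg Subtype.val h
  obtain ⟨h1, h2, t, h3, h4, h5, h6⟩ := hs'
  have h7 : φ (t * s) = φ e := by rw [map_mul, hh, ← map_mul, h6]
  have h8 : t * s = e := hφ _ h7
  refine Subtype.ext ?_
  change s = s'
  calc s = e * s := hs.1.symm
    _ = (s' * t) * s := by rw [h5]
    _ = s' * (t * s) := mul_assoc _ _ _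
    _ = s' * e := by rw [h8]
    _ = s' := h2

end

end Pool.Agent.Lib.MP_b02441_al
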