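import Pool.Agent.Lib.MP_b02441_al.Crit
import Pool.Agent.Lib.MP_b02441_al.Sgp

/-!
# Locally finite varieties with nontrivial groups (for MP_b02441_al)
-/

set_option autoImplicit false
set_option linter.unusedVariables false

namespace Pool.Agent.Lib.MP_b02441_al

variable {E : Set (Word × Word)}

theorem Mem.prod {S T : Type} [Semigroup S] [Semigroup T] (hS : Mem E S) (hT : Mem E T) :
    Mem E (S × T) := by
  intro p hp φ
  refine Prod.ext ?_ ?_
  · exact hS p hp ((MulHom.fst S T).comp φ)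
  · exact hT p hp ((MulHom.snd S T).comp φ)

/-- the homomorphism which extends a homomorphism of `Fr E n` to `Fr E (n + 1)` -/
def Fr.snoc {n : ℕ} {S : Type} [Semigroup S] (hS : Mem E S) (f : Fin n → S) (b : S) :
    Fr E (n + 1) →ₙ* S :=
  Fr.lift hS (Fin.snoc (α := fun _ => S) f b)

theorem Fr.snoc_last {n : ℕ} {S : Type} [Semigroup S] (hS : Mem E S) (f : Fin n → S) (b : S) :
    Fr.snoc hS f b (Fr.of (Fin.last n)) = b := by
  rw [Fr.snoc, Fr.lift_of, Fin.snoc_last]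

theorem Fr.snoc_castSucc {n : ℕ} {S : Type} [Semigroup S] (hS : Mem E S) (f : Fin n → S) (b : S)
    (i : Fin n) : Fr.snoc hS f b (Fr.of i.castSucc) = f i := by
  rw [Fr.snoc, Fr.lift_of, Fin.snoc_castSucc]

theorem Fr.snoc_up {n : ℕ} {S : Type} [Semigroup S] (hS : Mem E S) (f : Fin n → S) (b : S)
    (x : Fr E n) : Fr.snoc hS f b (Fr.up E (Nat.le_succ n) x) = Fr.lift hS f x := by
  have : (Fr.snoc hS f b).comp (Fr.up E (Nat.le_succ n)) = Fr.lift hS f := by
    refine Fr.hom_ext fun i => ?_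
    change Fr.snoc hS f b (Fr.up E (Nat.le_succ n) (Fr.of i)) = _
    rw [Fr.up, Fr.lift_of, Fr.lift_of]
    exact Fr.snoc_castSucc hS f b i
  exact DFunLike.congr_fun this x

theorem Fr.lift_of_self {n : ℕ} (x : Fr E n) : Fr.lift (mem_Fr E n) (fun i => Fr.of i) x = x := by
  have : Fr.lift (mem_Fr E n) (fun i => (Fr.of i : Fr E n)) = MulHom.id _ := by
    refine Fr.hom_ext fun i => ?_
    rw [Fr.lift_of]; rfl
  exact DFunLike.congr_fun this x

theorem Fr.lift_one {n : ℕ} {G : Type} [Group G] (hG : Mem E G) (x : Fr E n) :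
    Fr.lift hG (fun _ => (1 : G)) x = 1 := by
  induction x using Fr.induction with
  | h1 i => rw [Fr.lift_of]
  | h2 x y hx hy => rw [map_mul, hx, hy, one_mul]

theorem growth {n : ℕ} [Finite (Fr E n)] [Finite (Fr E (n + 1))] {G : Type} [Group G]
    (hG : Mem E G) {γ : G} (hγ : γ ≠ 1) {f : Fr E n} (hf : f * f = f) :
    ∃ e : Fr E (n + 1), e * e = e ∧ Nat.card (HH f) < Nat.card (HH e) := by
  let ι : Fr E n →ₙ* Fr E (n + 1) := Fr.up E (Nat.le_succ n)
  let π1 : Fr E (n + 1) →ₙ* Fr E n := Fr.snoc (mem_Fr E n) (fun i => Fr.of i) f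
  let π2 : Fr E (n + 1) →ₙ* G := Fr.snoc hG (fun _ => 1) γ
  have h1 : ∀ x, π1 (ι x) = x := fun x => by
    change Fr.snoc _ _ _ (Fr.up E (Nat.le_succ n) x) = x
    rw [Fr.snoc_up, Fr.lift_of_self]
  have h2 : ∀ x, π2 (ι x) = 1 := fun x => by
    change Fr.snoc _ _ _ (Fr.up E (Nat.le_succ n) x) = 1
    rw [Fr.snoc_up, Fr.lift_one]
  have h3 : π1 (Fr.of (Fin.last n)) = f := Fr.snoc_last _ _ _
  have h4 : π2 (Fr.of (Fin.last n)) = γ := Fr.snoc_last _ _ _
  have hf' : ι f * ι f = ι f := by rw [← map_mul, hf]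
  let M : Set (Fr E (n + 1)) := {s | ι f * s = s ∧ s * ι f = s ∧ π1 s ∈ HH f}
  have hM : ∀ x ∈ M, ∀ y ∈ M, x * y ∈ M := by
    rintro x ⟨hx1, hx2, hx3⟩ y ⟨hy1, hy2, hy3⟩
    exact ⟨by rw [← mul_assoc, hx1], by rw [mul_assoc, hy2], by rw [map_mul]; exact HH_mul hx3 hy3⟩
  have hfM : ι f ∈ M := ⟨hf', hf', by rw [h1]; exact HH_self hf⟩
  obtain ⟨e, he, hfe, hef⟩ := exists_minIdem M hM hfM hf'
  have e1 : π1 e = f := HH_idem he.mem.2.2 (by rw [← map_mul, he.idem])
  have e2 : π2 e = 1 := by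
    have : π2 e * π2 e = π2 e := by rw [← map_mul, he.idem]
    exact mul_eq_left.1 this
  let y : Fr E (n + 1) := ι f * Fr.of (Fin.last n) * ι f
  have hy : y ∈ M := by
    refine ⟨?_, ?_, ?_⟩
    · change ι f * (ι f * _ * ι f) = _
      rw [← mul_assoc, ← mul_assoc, hf']
    · change (ι f * _ * ι f) * ι f = _
      rw [mul_assoc, hf']
    · change π1 (ι f * _ * ι f) ∈ _
      rw [map_mul, map_mul, h1, h3, hf, hf]
      exact HH_self hf
  have hιM : ∀ h ∈ HH f, ι h ∈ M := fun h hh =>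
    ⟨by rw [← map_mul, hh.1], by rw [← map_mul, hh.2.1], by rw [h1]; exact hh⟩
  let y' : Bool → Fr E (n + 1) := fun b => if b then y else ι f
  have hy' : ∀ b, y' b ∈ M := by
    intro b; cases b
    · exact hfM
    · exact hy
  have hy'1 : ∀ b, π1 (y' b) = f := by
    intro b; cases b
    · exact h1 f
    · change π1 (ι f * _ * ι f) = _
      rw [map_mul, map_mul, h1, h3, hf, hf]
  have hy'2 : ∀ b, π2 (y' b) = if b then γ else 1 := by
    intro b; cases b
    · exact h2 f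
    · change π2 (ι f * _ * ι f) = _
      rw [map_mul, map_mul, h2, h4, one_mul, mul_one]; rfl
  let F : HH f × Bool → HH e := fun x =>
    ⟨e * (ι x.1.1 * y' x.2) * e, he.mem_HH hM (hM _ (hιM _ x.1.2) _ (hy' _))⟩
  have hF : Function.Injective F := by
    rintro ⟨⟨h, hh⟩, b⟩ ⟨⟨h', hh'⟩, b'⟩ heq
    have heq' : e * (ι h * y' b) * e = e * (ι h' * y' b') * e := congrArg Subtype.val heq
    have a1 := congrArg π1 heq'
    have a2 := congrArg π2 heq'
    simp only [map_mul, h1, h2, hy'1, hy'2, e1, e2, one_mul, mul_one] at a1 a2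
    rw [hh.2.1, hh'.2.1, hh.1, hh'.1, hh.2.1, hh'.2.1] at a1
    subst a1
    have : b = b' := by
      cases b <;> cases b' <;> simp at a2 ⊢
      · exact hγ a2.symm
      · exact hγ a2
    rw [this]
  have hcard := Nat.card_le_card_of_injective F hF
  rw [Nat.card_prod] at hcard
  have hpos : 0 < Nat.card (HH f) := by
    have : Nonempty (HH f) := ⟨⟨f, HH_self hf⟩⟩
    exact Nat.card_pos
  have h2' : Nat.card Bool = 2 := by simp
  rw [h2'] at hcard
  exact ⟨e, he.idem, by omega⟩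

theorem not_isoH_of_group (hLF : LocallyFinite E) {G : Type} [Group G] (hG : Mem E G) {γ : G}
    (hγ : γ ≠ 1) {n : ℕ} (hn : 1 ≤ n) : ¬ IsoH E n := by
  intro hiso
  have := hLF n
  have := hLF (n + 1)
  obtain ⟨f₀, -, hf₀⟩ := exists_idem_in (S := Fr E n) Set.univ ⟨Fr.of ⟨0, hn⟩, trivial⟩
    (fun _ _ _ _ => trivial)
  obtain ⟨f, hf, hmax⟩ := (Set.toFinite {f : Fr E n | f * f = f}).exists_maximalFor
    (fun f => Nat.card (HH f)) _ ⟨f₀, hf₀⟩
  obtain ⟨e, he, hcard⟩ := growth hG hγ hf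
  obtain ⟨θ, hθ⟩ := hiso e
  have h1 := HH_card_le θ (e := e) hθ
  have h2 : θ e * θ e = θ e := by rw [← map_mul, he]
  have h3 := hmax (j := θ e) h2 (by change Nat.card (HH f) ≤ Nat.card (HH (θ e)); omega)
  change Nat.card (HH (θ e)) ≤ Nat.card (HH f) at h3
  omega

end Pool.Agent.Lib.MP_b02441_al
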