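import Pool.Agent.Lib.MP_b02441_al.Crit
import Pool.Agent.Lib.MP_b02441_al.Rel

/-!
# A semigroup of labelled partial maps (for MP_b02441_al)

`S` a semigroup, `x a b ∈ S` for `a < 3`, `b < L`. The states are `o`, `l a`, `r a`. The semigroup
consists of the maps `R s' h s` (from the state `s` to the state `s'`, with the label `h`), of the
maps `BB b` (from `r a` to `l a` with the label `x a b`, for all `a`) and of the zero map.
-/

set_option autoImplicit false
set_option linter.unusedVariables false

namespace Pool.Agent.Lib.MP_b02441_al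

/-- the states -/
inductive St : Type
  | o : St
  | l : Fin 3 → St
  | r : Fin 3 → St

section

variable (S : Type) [Semigroup S] {L : ℕ}

/-- the set on which the maps act -/
abbrev Om : Type := Option (WithOne S × St)

variable {S}

/-- `g` is the zero element of `S` -/
def IsZ (g : WithOne S) : Prop := ∃ z : S, g = (z : WithOne S) ∧ ∀ s : S, z * s = z ∧ s * z = z

theorem wo_cases (g : WithOne S) : g = 1 ∨ ∃ s : S, g = (s : WithOne S) := by
  by_cases h : g = 1
  · exact Or.inl h
  · obtain ⟨s, hs⟩ := WithOne.ne_one_iff_exists.1 h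
    exact Or.inr ⟨s, hs.symm⟩

theorem IsZ.left {g : WithOne S} (hg : IsZ g) (h : WithOne S) : IsZ (h * g) := by
  obtain ⟨z, rfl, hz⟩ := hg
  rcases wo_cases h with rfl | ⟨s, rfl⟩
  · rw [one_mul]; exact ⟨z, rfl, hz⟩
  · rw [← WithOne.coe_mul, (hz s).2]; exact ⟨z, rfl, hz⟩

theorem IsZ.right {g : WithOne S} (hg : IsZ g) (h : WithOne S) : IsZ (g * h) := by
  obtain ⟨z, rfl, hz⟩ := hg
  rcases wo_cases h with rfl | ⟨s, rfl⟩
  · rw [mul_one]; exact ⟨z, rfl, hz⟩
  · rw [← WithOne.coe_mul, (hz s).1]; exact ⟨z, rfl, hz⟩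

theorem IsZ.unique {g h : WithOne S} (hg : IsZ g) (hh : IsZ h) : g = h := by
  obtain ⟨z, rfl, hz⟩ := hg
  obtain ⟨z', rfl, hz'⟩ := hh
  rw [← (hz z').1, (hz' z).2]

theorem wo_mul_ne_one {g h : WithOne S} (hg : g ≠ 1 ∨ h ≠ 1) : g * h ≠ 1 := by
  rcases wo_cases g with rfl | ⟨s, rfl⟩
  · rw [one_mul]
    rcases hg with hg | hg
    · exact absurd rfl hg
    · exact hg
  · rcases wo_cases h with rfl | ⟨t, rfl⟩
    · rw [mul_one]; exact WithOne.coe_ne_one
    · rw [← WithOne.coe_mul]; exact WithOne.coe_ne_one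

open Classical in
/-- the element `(g, s)`, or nothing if `g` is the zero of `S` -/
noncomputable def nrm (g : WithOne S) (s : St) : Om S := if IsZ g then none else some (g, s)

open Classical in
/-- from the state `s` to the state `s'`, with the label `h` -/
noncomputable def R (s' : St) (h : WithOne S) (s : St) : Function.End (Om S) := fun ω =>
  ω.bind fun p => if p.2 = s then nrm (h * p.1) s' else none

/-- from the states `r a` to the states `l a` -/
noncomputable def BB (x : Fin 3 → Fin L → S) (b : Fin L) : Function.End (Om S) := fun ω =>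
  ω.bind fun p => match p.2 with
    | .r a => nrm ((x a b : WithOne S) * p.1) (.l a)
    | _ => none

/-- the zero map -/
def Z0 : Function.End (Om S) := fun _ => none

theorem nrm_of {g : WithOne S} (h : IsZ g) (s : St) : nrm g s = none := if_pos h
theorem nrm_not {g : WithOne S} (h : ¬ IsZ g) (s : St) : nrm g s = some (g, s) := if_neg h

theorem R_none (s' : St) (h : WithOne S) (s : St) : R s' h s none = none := rfl
theorem R_some_eq (s' : St) (h g : WithOne S) (s : St) : R s' h s (some (g, s)) = nrm (h * g) s' :=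
  if_pos rfl
theorem R_some_ne (s' : St) (h g : WithOne S) {s t : St} (hst : t ≠ s) :
    R s' h s (some (g, t)) = none := if_neg hst

variable (x : Fin 3 → Fin L → S)

theorem BB_none (b : Fin L) : BB x b none = none := rfl
theorem BB_r (b : Fin L) (g : WithOne S) (a : Fin 3) :
    BB x b (some (g, .r a)) = nrm ((x a b : WithOne S) * g) (.l a) := rfl
theorem BB_l (b : Fin L) (g : WithOne S) (a : Fin 3) : BB x b (some (g, .l a)) = none := rfl
theorem BB_o (b : Fin L) (g : WithOne S) : BB x b (some (g, .o)) = none := rfl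

theorem R_R (s' s t : St) (h k : WithOne S) : R s' h s * R s k t = R s' (h * k) t := by
  funext ω
  change R s' h s (R s k t ω) = R s' (h * k) t ω
  rcases ω with _ | ⟨g, u⟩
  · rfl
  · by_cases hu : u = t
    · subst hu
      rw [R_some_eq, R_some_eq]
      by_cases hz : IsZ (k * g)
      · rw [nrm_of hz, R_none, nrm_of]
        rw [mul_assoc]
        exact hz.left h
      · rw [nrm_not hz, R_some_eq, mul_assoc]
    · rw [R_some_ne _ _ _ hu, R_some_ne _ _ _ hu, R_none]

theorem R_R_ne (s' : St) {s t' : St} (t : St) (h k : WithOne S) (hst : t' ≠ s) :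
    R s' h s * R t' k t = Z0 := by
  funext ω
  change R s' h s (R t' k t ω) = none
  rcases ω with _ | ⟨g, u⟩
  · rfl
  · by_cases hu : u = t
    · subst hu
      rw [R_some_eq]
      by_cases hz : IsZ (k * g)
      · rw [nrm_of hz, R_none]
      · rw [nrm_not hz, R_some_ne _ _ _ hst]
    · rw [R_some_ne _ _ _ hu, R_none]

theorem B_R (b : Fin L) (a : Fin 3) (h : WithOne S) (s : St) :
    BB x b * R (.r a) h s = R (.l a) ((x a b : WithOne S) * h) s := by
  funext ω
  change BB x b (R (.r a) h s ω) = R (.l a) ((x a b : WithOne S) * h) s ω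
  rcases ω with _ | ⟨g, u⟩
  · rfl
  · by_cases hu : u = s
    · subst hu
      rw [R_some_eq, R_some_eq]
      by_cases hz : IsZ (h * g)
      · rw [nrm_of hz, BB_none, nrm_of]
        rw [mul_assoc]
        exact hz.left _
      · rw [nrm_not hz, BB_r, mul_assoc]
    · rw [R_some_ne _ _ _ hu, R_some_ne _ _ _ hu, BB_none]

theorem B_R_ne (b : Fin L) {s' : St} (hs : ∀ a, s' ≠ .r a) (h : WithOne S) (s : St) :
    BB x b * R s' h s = Z0 := by
  funext ω
  change BB x b (R s' h s ω) = none
  rcases ω with _ | ⟨g, u⟩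
  · rfl
  · by_cases hu : u = s
    · subst hu
      rw [R_some_eq]
      by_cases hz : IsZ (h * g)
      · rw [nrm_of hz, BB_none]
      · rw [nrm_not hz]
        rcases s' with _ | a | a
        · rfl
        · rfl
        · exact absurd rfl (hs a)
    · rw [R_some_ne _ _ _ hu, BB_none]

theorem R_B (b : Fin L) (a : Fin 3) (h : WithOne S) (s' : St) :
    R s' h (.l a) * BB x b = R s' (h * (x a b : WithOne S)) (.r a) := by
  funext ω
  change R s' h (.l a) (BB x b ω) = R s' (h * (x a b : WithOne S)) (.r a) ω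
  rcases ω with _ | ⟨g, _ | a' | a'⟩
  · rfl
  · rw [BB_o, R_none, R_some_ne]
    intro h0
    cases h0
  · rw [BB_l, R_none, R_some_ne]
    intro h0
    cases h0
  · rw [BB_r]
    by_cases ha : a' = a
    · subst ha
      rw [R_some_eq]
      by_cases hz : IsZ ((x a' b : WithOne S) * g)
      · rw [nrm_of hz, R_none, nrm_of]
        rw [mul_assoc]
        exact hz.left h
      · rw [nrm_not hz, R_some_eq, mul_assoc]
    · rw [R_some_ne (s := .r a)]
      · by_cases hz : IsZ ((x a' b : WithOne S) * g)
        · rw [nrm_of hz, R_none]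
        · rw [nrm_not hz, R_some_ne]
          intro h0
          exact ha (St.l.inj h0)
      · intro h0
        exact ha (St.r.inj h0)

theorem R_B_ne (b : Fin L) {s : St} (hs : ∀ a, s ≠ .l a) (h : WithOne S) (s' : St) :
    R s' h s * BB x b = Z0 := by
  funext ω
  change R s' h s (BB x b ω) = none
  rcases ω with _ | ⟨g, _ | a' | a'⟩
  · rfl
  · rfl
  · rfl
  · rw [BB_r]
    by_cases hz : IsZ ((x a' b : WithOne S) * g)
    · rw [nrm_of hz, R_none]
    · rw [nrm_not hz, R_some_ne]
      exact Ne.symm (hs a')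

theorem B_B (b b' : Fin L) : BB x b * BB x b' = Z0 := by
  funext ω
  change BB x b (BB x b' ω) = none
  rcases ω with _ | ⟨g, _ | a' | a'⟩
  · rfl
  · rfl
  · rfl
  · rw [BB_r]
    by_cases hz : IsZ ((x a' b' : WithOne S) * g)
    · rw [nrm_of hz, BB_none]
    · rw [nrm_not hz, BB_l]

theorem R_zero {h : WithOne S} (hh : IsZ h) (s' s : St) : R s' h s = Z0 := by
  funext ω
  change R s' h s ω = none
  rcases ω with _ | ⟨g, u⟩
  · rfl
  · by_cases hu : u = s
    · subst hu
      rw [R_some_eq, nrm_of (hh.right g)]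
    · rw [R_some_ne _ _ _ hu]

/-- the pairs of states which are joined by labels equal to one -/
def Short : St → St → Prop
  | .o, .l _ => True
  | .r _, .o => True
  | .r _, .l _ => True
  | _, _ => False

theorem Short.irrefl (s : St) : ¬ Short s s := by
  rcases s with _ | a | a
  · exact id
  · exact id
  · exact id

theorem Short.trans {s t u : St} (h : Short s t) (h' : Short t u) : Short s u := by
  rcases s with _ | a | a <;> rcases t with _ | a' | a' <;> rcases u with _ | a'' | a'' <;>
    first | exact trivial | exact absurd h id | exact absurd h' id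

/-- the elements of the semigroup -/
def PP (f : Function.End (Om S)) : Prop :=
  f = Z0 ∨ (∃ b, f = BB x b) ∨ ∃ s' h s, f = R s' h s ∧ (h ≠ 1 ∨ Short s' s)

variable {x}

theorem PP.mul_Z0 {f : Function.End (Om S)} (hf : PP x f) : f * Z0 = Z0 := by
  rcases hf with rfl | ⟨b, rfl⟩ | ⟨s', h, s, rfl, -⟩
  · rfl
  · rfl
  · rfl

theorem Z0_mul (f : Function.End (Om S)) : Z0 * f = Z0 := rfl

theorem PP.mul {f g : Function.End (Om S)} (hf : PP x f) (hg : PP x g) : PP x (f * g) := by
  rcases hf with rfl | ⟨b, rfl⟩ | ⟨s', h, s, rfl, hs⟩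
  · exact Or.inl (Z0_mul g)
  · rcases hg with rfl | ⟨b', rfl⟩ | ⟨t', k, t, rfl, ht⟩
    · exact Or.inl rfl
    · exact Or.inl (B_B x b b')
    · by_cases h1 : ∃ a, t' = .r a
      · obtain ⟨a, rfl⟩ := h1
        rw [B_R]
        exact Or.inr (Or.inr ⟨_, _, _, rfl, Or.inl (wo_mul_ne_one (Or.inl WithOne.coe_ne_one))⟩)
      · push Not at h1
        exact Or.inl (B_R_ne x b h1 k t)
  · rcases hg with rfl | ⟨b', rfl⟩ | ⟨t', k, t, rfl, ht⟩
    · exact Or.inl rfl
    · by_cases h1 : ∃ a, s = .l a
      · obtain ⟨a, rfl⟩ := h1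
        rw [R_B]
        exact Or.inr (Or.inr ⟨_, _, _, rfl, Or.inl (wo_mul_ne_one (Or.inr WithOne.coe_ne_one))⟩)
      · push Not at h1
        exact Or.inl (R_B_ne x b' h1 h s')
    · by_cases h1 : t' = s
      · subst h1
        rw [R_R]
        refine Or.inr (Or.inr ⟨_, _, _, rfl, ?_⟩)
        by_cases h2 : h = 1
        · by_cases h3 : k = 1
          · right
            exact (hs.resolve_left (not_not.2 h2)).trans (ht.resolve_left (not_not.2 h3))
          · exact Or.inl (wo_mul_ne_one (Or.inr h3))
        · exact Or.inl (wo_mul_ne_one (Or.inl h2))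
      · exact Or.inl (R_R_ne s' t h k h1)

/-- elements with a nonzero square -/
theorem PP.loop {f : Function.End (Om S)} (hf : PP x f) (h : f * f ≠ Z0) :
    ∃ (s : St) (c : S), f = R s (c : WithOne S) s := by
  rcases hf with rfl | ⟨b, rfl⟩ | ⟨s', g, s, rfl, hs⟩
  · exact absurd (Z0_mul _) h
  · exact absurd (B_B x b b) h
  · have h1 : s' = s := by
      by_contra h2
      exact h (R_R_ne s' s g g h2)
    subst h1
    have h2 : g ≠ 1 := hs.resolve_right (Short.irrefl _)
    obtain ⟨c, hc⟩ := WithOne.ne_one_iff_exists.1 h2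
    exact ⟨s', c, by rw [hc]⟩

variable (x)

/-- the semigroup -/
def TT : Subsemigroup (Function.End (Om S)) where
  carrier := {f | PP x f}
  mul_mem' := fun h1 h2 => PP.mul h1 h2

end

end Pool.Agent.Lib.MP_b02441_al
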