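import Pool.Agent.Lib.MP_b02441_al.BrA

/-!
# Varieties defined by identities between locked words and one-letter identities
(for MP_b02441_al)
-/

set_option autoImplicit false
set_option linter.unusedVariables false

namespace Pool.Agent.Lib.MP_b02441_al

variable {E : Set (Word × Word)} {Z : Set Word}

/-- completely regular varieties which contain the semilattices are separated -/
theorem separated_of_CR {d : ℕ} (hd : 1 ≤ d) (h : Holds E (powWord 0) (powWord d))
    (hL : ContainsSemilattices E) : Separated E := by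
  refine separated_of_not_B2 ⟨0, d, hd, by rw [Nat.zero_add]; exact h⟩ hL fun hB => ?_
  have h2 := h B2 hB (FreeSemigroup.lift fun _ => B2.unit false true)
  rw [powWord_eq, powWord_eq, map_pw, map_pw, FreeSemigroup.lift_of] at h2
  obtain ⟨c, rfl⟩ : ∃ c, d = c + 1 := ⟨d - 1, by omega⟩
  have h3 : ∀ c, pw (B2.unit false true) (c + 1) = B2.zero := by
    intro c
    induction c with
    | zero => rfl
    | succ c ih => rw [pw_succ, ih]; rfl
  rw [h3] at h2
  exact B2.noConfusion h2

/-- identities between words with the same letters hold in semilattices -/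
theorem containsSemilattices_of (h : ∀ e ∈ E, SameLetters e.1 e.2) : ContainsSemilattices E := by
  classical
  intro S _ hc hi e he φ
  -- the value of a word in a semilattice is determined by its letters
  have h1 : ∀ (w : Word) (j : ℕ), j ∈ toL w → φ w * φ (FreeSemigroup.of j) = φ w := by
    intro w
    induction w using FreeSemigroup.recOnMul with
    | ih1 i =>
      intro j hj
      rw [toL_of, List.mem_singleton] at hj
      subst hj
      exact hi _
    | ih2 i w hx hy =>
      intro j hj
      rw [toL_mul, List.mem_append] at hj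
      rw [map_mul]
      rcases hj with hj | hj
      · rw [mul_assoc, hc (φ w), ← mul_assoc, hx j hj]
      · rw [mul_assoc, hy j hj]
  have h2 : ∀ (u w : Word), (∀ j ∈ toL w, j ∈ toL u) → φ u * φ w = φ u := by
    intro u w
    induction w using FreeSemigroup.recOnMul with
    | ih1 i =>
      intro hj
      exact h1 u i (hj i (by rw [toL_of]; exact List.mem_singleton_self i))
    | ih2 i w hx hy =>
      intro hj
      rw [map_mul, ← mul_assoc, hx fun j h => hj j ?_, hy fun j h => hj j ?_]
      · rw [toL_mul]; exact List.mem_append_right _ h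
      · rw [toL_mul]; exact List.mem_append_left _ h
  have h3 := h2 e.1 e.2 fun j hj => (h e he j).2 hj
  have h4 := h2 e.2 e.1 fun j hj => (h e he j).1 hj
  rw [← h3, hc, h4]

theorem toL_powWord (k : ℕ) : toL (powWord k) = List.replicate (k + 1) 0 := rfl

theorem sameLetters_powWord (a b : ℕ) : SameLetters (powWord a) (powWord b) := by
  intro i
  rw [toL_powWord, toL_powWord, List.mem_replicate, List.mem_replicate]
  omega

theorem locked_powWord (a : ℕ) : Locked (powWord (a + 1)) := by
  intro i hi
  rw [toL_powWord, List.mem_replicate] at hi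
  obtain ⟨-, rfl⟩ := hi
  exact Relation.EqvGen.rel _ _ ⟨0, 0, [], List.replicate a 0, rfl, rfl, rfl⟩

/-- equivalent sets of identities -/
theorem freeCon_congr {E F : Set (Word × Word)}
    (h : ∀ (S : Type) [Semigroup S], Mem E S ↔ Mem F S) (n : ℕ) : freeCon E n = freeCon F n := by
  refine Con.ext fun u v => ⟨fun h1 S _ hS φ => h1 S ((h S).2 hS) φ,
    fun h1 S _ hS φ => h1 S ((h S).1 hS) φ⟩

theorem inclEquiv_congr {E F : Set (Word × Word)}
    (h : ∀ (S : Type) [Semigroup S], Mem E S ↔ Mem F S) {m n : ℕ}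
    (h1 : InclEquiv (Fr F m) (Fr F n)) : InclEquiv (Fr E m) (Fr E n) := by
  have key : ∀ c c' : ∀ n : ℕ, Con (FreeSemigroup (Fin n)), c = c' →
      InclEquiv (c' m).Quotient (c' n).Quotient → InclEquiv (c m).Quotient (c n).Quotient := by
    rintro c c' rfl h
    exact h
  exact key (freeCon E) (freeCon F) (funext (freeCon_congr h)) h1

/-- in trivial varieties all free semigroups are equivalent -/
theorem inclEquiv_of_trivial {V : Set (Word × Word)}
    (h : ∀ (S : Type) [Semigroup S], Mem V S → ∀ s t : S, s = t) {m n : ℕ} (hm : 1 ≤ m)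
    (hn : 1 ≤ n) : InclEquiv (Fr V m) (Fr V n) := by
  intro u W hW
  obtain ⟨w, hw⟩ := hW
  exact ⟨fun _ φ => ⟨w, hw, h _ (mem_Fr V n) _ _⟩, fun _ φ => ⟨w, hw, h _ (mem_Fr V m) _ _⟩⟩

theorem map_const_eq {S : Type} [Semigroup S] (s : S) (w : Word) :
    ∃ k, FreeSemigroup.lift (fun _ => s) w = pw s k := by
  induction w using FreeSemigroup.recOnMul with
  | ih1 i => exact ⟨0, by rw [FreeSemigroup.lift_of]; rfl⟩
  | ih2 i w hx hy =>
    obtain ⟨a, ha⟩ := hx
    obtain ⟨b, hb⟩ := hy
    exact ⟨a + b + 1, by rw [map_mul, ha, hb, pw_add]⟩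

/-- completely regular semigroups in which a word is zero are trivial -/
theorem trivial_of_zero {d : ℕ} (hd : 1 ≤ d)
    (h : ∀ (S : Type) [Semigroup S], Mem E S → ∀ s : S, pw s d = s) (hZ : Z.Nonempty)
    (S : Type) [Semigroup S] (hS : Mem (withZeros E Z) S) (s t : S) : s = t := by
  classical
  have hE : Mem E S := fun e he => hS e (Or.inl he)
  obtain ⟨w, hw⟩ := hZ
  -- a power of `s` is zero
  have h1 : ∀ s : S, ∃ k, ∀ t : S, pw s k * t = pw s k ∧ t * pw s k = pw s k := by
    intro s
    obtain ⟨k, hk⟩ := map_const_eq s w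
    refine ⟨k, fun t => ?_⟩
    obtain ⟨y, hy⟩ : ∃ y : ℕ, y ∉ toL w := by
      obtain ⟨y, hy⟩ := Infinite.exists_notMem_finset (toL w).toFinset
      exact ⟨y, fun h => hy (List.mem_toFinset.2 h)⟩
    let c : ℕ → S := fun j => if j = y then t else s
    have hc : FreeSemigroup.lift c w = pw s k := by
      rw [← hk]
      refine lift_congr fun i hi => ?_
      have hne : i ≠ y := by
        rintro rfl
        exact hy hi
      exact if_neg hne
    have h2 := hS (w * FreeSemigroup.of y, w) (Or.inr ⟨w, hw, y, hy, Or.inl rfl⟩)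
      (FreeSemigroup.lift c)
    have h3 := hS (FreeSemigroup.of y * w, w) (Or.inr ⟨w, hw, y, hy, Or.inr rfl⟩)
      (FreeSemigroup.lift c)
    simp only [map_mul, FreeSemigroup.lift_of, hc, c, if_pos] at h2 h3
    exact ⟨h2, h3⟩
  -- `s` is a power of `s` with large exponent
  have h2 : ∀ (s : S) (q : ℕ), s = pw s (q * d) := by
    intro s q
    induction q with
    | zero => rw [Nat.zero_mul]; rfl
    | succ q ih =>
      obtain ⟨c, rfl⟩ : ∃ c, d = c + 1 := ⟨d - 1, by omega⟩
      have h3 := h S hE s
      rw [show (q + 1) * (c + 1) = q * (c + 1) + c + 1 by ring, pw_add, ← ih, ← pw_succ', h3]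
  have h3 : ∀ s : S, ∀ t : S, s * t = s ∧ t * s = s := by
    intro s t
    obtain ⟨k, hk⟩ := h1 s
    have h4 : s = pw s k := by
      have h5 := h2 s (k + 1)
      have h6 : k + 1 ≤ (k + 1) * d := Nat.le_mul_of_pos_right _ hd
      obtain ⟨l, hl⟩ : ∃ l, (k + 1) * d = k + l + 1 := ⟨(k + 1) * d - k - 1, by omega⟩
      rw [hl, pw_add, (hk _).1] at h5
      exact h5
    rw [h4]
    exact hk t
  rw [← (h3 s t).1, (h3 t s).2]

/-- the main dichotomy -/
theorem sq_dichotomy (hE : ∀ e ∈ E, (Locked e.1 ∧ Locked e.2 ∧ SameLetters e.1 e.2) ∨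
      ∃ a b : ℕ, e = (powWord a, powWord b)) (hZ : ∀ w ∈ Z, Locked w) :
    (Z = ∅ ∧ (∃ d : ℕ, 1 ≤ d ∧ Holds E (powWord 0) (powWord d)) ∧
      Separated (withZeros E Z)) ∨
    ∀ m n : ℕ, 10 ≤ m → 10 ≤ n → InclEquiv (Fr (withZeros E Z) m) (Fr (withZeros E Z) n) := by
  classical
  by_cases hA : ∃ d : ℕ, 1 ≤ d ∧ Holds E (powWord 0) (powWord d)
  · obtain ⟨d, hd, hh⟩ := hA
    by_cases hZ' : Z = ∅
    · left
      refine ⟨hZ', ⟨d, hd, hh⟩, ?_⟩
      have h1 : withZeros E Z = E := by
        unfold withZeros
        rw [hZ']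
        ext e
        constructor
        · rintro (h | ⟨w, hw, -⟩)
          · exact h
          · exact absurd hw (Set.notMem_empty _)
        · exact Or.inl
      rw [h1]
      refine separated_of_CR hd hh (containsSemilattices_of fun e he => ?_)
      rcases hE e he with h2 | ⟨a, b, rfl⟩
      · exact h2.2.2
      · exact sameLetters_powWord a b
    · right
      intro m n hm hn
      refine inclEquiv_of_trivial (fun S _ hS s t => ?_) (by omega) (by omega)
      refine trivial_of_zero hd (fun S _ hS s => ?_) (Set.nonempty_iff_ne_empty.2 hZ') S hS s t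
      have h2 := hh S hS (FreeSemigroup.lift fun _ => s)
      rw [powWord_eq, powWord_eq, map_pw, map_pw, FreeSemigroup.lift_of] at h2
      exact h2.symm
  · right
    intro m n hm hn
    let F : Set (Word × Word) := {e | e ∈ E ∧ e.1 ≠ e.2}
    have hF : ∀ e ∈ F, Locked e.1 ∧ Locked e.2 ∧ SameLetters e.1 e.2 := by
      rintro e ⟨he, hne⟩
      rcases hE e he with h2 | ⟨a, b, rfl⟩
      · exact h2
      · have hab : a ≠ b := by
          rintro rfl
          exact hne rfl
        have ha : a ≠ 0 := by
          rintro rfl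
          refine hA ⟨b, by omega, fun S _ hS => hS _ he⟩
        have hb : b ≠ 0 := by
          rintro rfl
          refine hA ⟨a, by omega, fun S _ hS φ => (hS _ he φ).symm⟩
        obtain ⟨a', rfl⟩ : ∃ a', a = a' + 1 := ⟨a - 1, by omega⟩
        obtain ⟨b', rfl⟩ : ∃ b', b = b' + 1 := ⟨b - 1, by omega⟩
        exact ⟨locked_powWord a', locked_powWord b', sameLetters_powWord _ _⟩
    refine inclEquiv_congr (F := withZeros F Z) (fun S _ => ?_) (inclEquiv_sq hF hZ hm hn)
    constructor
    · rintro hS e (he | he)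
      · exact hS e (Or.inl he.1)
      · exact hS e (Or.inr he)
    · rintro hS e (he | he)
      · by_cases hne : e.1 = e.2
        · intro φ
          rw [hne]
        · exact hS e (Or.inl ⟨he, hne⟩)
      · exact hS e (Or.inr he)

theorem separated_sq_iff (hE : ∀ e ∈ E, (Locked e.1 ∧ Locked e.2 ∧ SameLetters e.1 e.2) ∨
      ∃ a b : ℕ, e = (powWord a, powWord b)) (hZ : ∀ w ∈ Z, Locked w) :
    (Separated (withZeros E Z) ↔ Z = ∅ ∧ ∃ d : ℕ, 1 ≤ d ∧ Holds E (powWord 0) (powWord d)) ∧
    (¬ Separated (withZeros E Z) → ∀ m n : ℕ, 10 ≤ m → 10 ≤ n →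
      InclEquiv (Fr (withZeros E Z) m) (Fr (withZeros E Z) n)) := by
  have hdich := sq_dichotomy hE hZ
  refine ⟨⟨fun h => ?_, fun h => ?_⟩, fun h => ?_⟩
  · rcases hdich with h1 | h1
    · exact ⟨h1.1, h1.2.1⟩
    · exact absurd (h1 10 11 le_rfl (by omega)) (h 10 11 (by omega) (by omega) (by omega))
  · obtain ⟨h0, d, hd, hh⟩ := h
    have h1 : withZeros E Z = E := by
      unfold withZeros
      rw [h0]
      ext e
      constructor
      · rintro (h | ⟨w, hw, -⟩)
        · exact h
        · exact absurd hw (Set.notMem_empty _)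
      · exact Or.inl
    rw [h1]
    refine separated_of_CR hd hh (containsSemilattices_of fun e he => ?_)
    rcases hE e he with h2 | ⟨a, b, rfl⟩
    · exact h2.2.2
    · exact sameLetters_powWord a b
  · rcases hdich with h1 | h1
    · exact absurd h1.2.2 h
    · exact h1

end Pool.Agent.Lib.MP_b02441_al
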