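import Pool.Agent.Lib.MP_b02441_al.GrpCase

/-!
# The trichotomy for locally finite varieties (for MP_b02441_al)
-/

set_option autoImplicit false
set_option linter.unusedVariables false

namespace Pool.Agent.Lib.MP_b02441_al

variable {E : Set (Word × Word)}

/-- the two-element semilattice -/
def L2 : Type := Bool

instance : Semigroup L2 where
  mul a b := Bool.or a b
  mul_assoc a b c := Bool.or_assoc a b c

/-- the top element -/
def L2.tt : L2 := true

/-- the bottom element -/
def L2.ff : L2 := false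

theorem L2.mul_tt (a : L2) : a * L2.tt = L2.tt := Bool.or_true a
theorem L2.tt_mul (a : L2) : L2.tt * a = L2.tt := Bool.true_or a
theorem L2.mul_ff (a : L2) : a * L2.ff = a := Bool.or_false a
theorem L2.ff_mul (a : L2) : L2.ff * a = a := Bool.false_or a
theorem L2.idem (a : L2) : a * a = a := Bool.or_self a
theorem L2.cases (a : L2) : a = L2.ff ∨ a = L2.tt := by
  cases a
  · exact Or.inl rfl
  · exact Or.inr rfl
theorem L2.ne : L2.ff ≠ L2.tt := Bool.false_ne_true
theorem L2.eq_ff_of_mul {a b : L2} (h : a * b = L2.ff) : a = L2.ff ∧ b = L2.ff := by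
  rcases L2.cases a with h1 | h1 <;> rcases L2.cases b with h2 | h2
  · exact ⟨h1, h2⟩
  · rw [h2, L2.mul_tt] at h; exact absurd h.symm L2.ne
  · rw [h1, L2.tt_mul] at h; exact absurd h.symm L2.ne
  · rw [h1, L2.tt_mul] at h; exact absurd h.symm L2.ne

theorem pw_mem_HH {S : Type} [Semigroup S] {e s : S} (hs : s ∈ HH e) (k : ℕ) : pw s k ∈ HH e :=
  pw_mem (T := HH e) (fun _ hx _ hy => HH_mul hx hy) hs k

theorem HH_aper {S : Type} [Semigroup S] {e s : S} (hs : s ∈ HH e) {k : ℕ}
    (h : pw s (k + 1) = pw s k) : s = e := by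
  obtain ⟨-, -, t, -, -, -, h6⟩ := pw_mem_HH hs k
  calc s = e * s := hs.1.symm
    _ = (t * pw s k) * s := by rw [h6]
    _ = t * pw s (k + 1) := by rw [mul_assoc, pw_succ]
    _ = t * pw s k := by rw [h]
    _ = e := h6

/-- If `V` contains neither the two-element semilattice nor nontrivial groups -/
theorem ete_of {k : ℕ} (hk : ∀ (S : Type) [Semigroup S], Mem E S → ∀ s : S, pw s (k + 1) = pw s k)
    (hL : ¬ Mem E L2) {S : Type} [Semigroup S] (hS : Mem E S) {e : S} (he : e * e = e) (t : S) :
    e * t * e = e := by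
  unfold Mem SatId at hL
  push Not at hL
  obtain ⟨p, hp, φ, hφ⟩ := hL
  classical
  have hes : e * (e * t * e) = e * t * e := by rw [← mul_assoc, ← mul_assoc, he]
  have hse : (e * t * e) * e = e * t * e := by rw [mul_assoc, he]
  let ψ : Word →ₙ* S := FreeSemigroup.lift fun i =>
    if φ (FreeSemigroup.of i) = L2.tt then e * t * e else e
  have key : ∀ w : Word, (φ w = L2.ff → ψ w = e) ∧
      (φ w = L2.tt → ∃ j, ψ w = pw (e * t * e) j) := by
    intro w
    induction w using FreeSemigroup.recOnMul with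
    | ih1 i =>
      constructor
      · intro h
        change FreeSemigroup.lift _ _ = _
        rw [FreeSemigroup.lift_of, if_neg]
        rw [h]; exact L2.ne
      · intro h
        refine ⟨0, ?_⟩
        change FreeSemigroup.lift _ _ = _
        rw [FreeSemigroup.lift_of, if_pos h]; rfl
    | ih2 i w hx hy =>
      rcases L2.cases (φ (FreeSemigroup.of i)) with h1 | h1 <;> rcases L2.cases (φ w) with h2 | h2
      · refine ⟨fun _ => ?_, fun h => ?_⟩
        · rw [map_mul, hx.1 h1, hy.1 h2, he]
        · rw [map_mul, h1, h2, L2.mul_ff] at h; exact absurd h L2.ne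
      · refine ⟨fun h => ?_, fun _ => ?_⟩
        · rw [map_mul] at h
          have := L2.eq_ff_of_mul h
          exact absurd (this.2.symm.trans h2) L2.ne
        · obtain ⟨j, hj⟩ := hy.2 h2
          exact ⟨j, by rw [map_mul, hx.1 h1, hj, pw_left hes]⟩
      · refine ⟨fun h => ?_, fun _ => ?_⟩
        · rw [map_mul] at h
          have := L2.eq_ff_of_mul h
          exact absurd (this.1.symm.trans h1) L2.ne
        · obtain ⟨j, hj⟩ := hx.2 h1
          exact ⟨j, by rw [map_mul, hy.1 h2, hj, pw_right hse]⟩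
      · refine ⟨fun h => ?_, fun _ => ?_⟩
        · rw [map_mul] at h
          have := L2.eq_ff_of_mul h
          exact absurd (this.1.symm.trans h1) L2.ne
        · obtain ⟨j, hj⟩ := hx.2 h1
          obtain ⟨j', hj'⟩ := hy.2 h2
          exact ⟨j + j' + 1, by rw [map_mul, hj, hj', pw_add]⟩
  have hpq := hS p hp ψ
  have : ∃ j, pw (e * t * e) j = e := by
    rcases L2.cases (φ p.1) with h1 | h1
    · rcases L2.cases (φ p.2) with h2 | h2
      · exact absurd (h1.trans h2.symm) hφ
      · obtain ⟨j, hj⟩ := (key p.2).2 h2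
        exact ⟨j, by rw [← hj, ← hpq, (key p.1).1 h1]⟩
    · rcases L2.cases (φ p.2) with h2 | h2
      · obtain ⟨j, hj⟩ := (key p.1).2 h1
        exact ⟨j, by rw [← hj, hpq, (key p.2).1 h2]⟩
      · exact absurd (h1.trans h2.symm) hφ
  obtain ⟨j, hj⟩ := this
  exact HH_aper (HH_of_pw hes hse he hj) (hk S hS _)

theorem exists_group (hLF : LocallyFinite E)
    (hk : ∀ k, ∃ (S : Type) (_ : Semigroup S), Mem E S ∧ ∃ s : S, pw s (k + 1) ≠ pw s k) :
    ∃ (G : Type) (_ : Group G) (γ : G), Mem E G ∧ γ ≠ 1 := by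
  have := hLF 1
  let g : Fr E 1 := Fr.of 0
  have hg : ∀ k, pw g (k + 1) ≠ pw g k := by
    intro k h
    obtain ⟨S, _, hS, s, hs⟩ := hk k
    apply hs
    have := congrArg (Fr.lift hS fun _ => s) h
    rw [map_pw, map_pw, Fr.lift_of] at this
    exact this
  have hex : ∃ d, 1 ≤ d ∧ ∃ k, pw g (k + d) = pw g k := by
    obtain ⟨a, b, hab, h⟩ := Finite.exists_ne_map_eq_of_infinite (pw g)
    rcases Nat.lt_or_gt_of_ne hab with hlt | hlt
    · exact ⟨b - a, by omega, a, by rw [show a + (b - a) = b by omega, h]⟩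
    · exact ⟨a - b, by omega, b, by rw [show b + (a - b) = a by omega, h]⟩
  classical
  obtain ⟨hp1, k₀, hk₀⟩ := Nat.find_spec hex
  have hmin : ∀ d, 1 ≤ d → (∃ k, pw g (k + d) = pw g k) → Nat.find hex ≤ d := fun d h1 h2 =>
    Nat.find_min' hex ⟨h1, h2⟩
  generalize hp : Nat.find hex = p at hp1 hk₀ hmin
  have hp2 : 2 ≤ p := by
    by_contra hlt
    have : p = 1 := by omega
    subst this
    exact hg k₀ hk₀
  -- shifting
  have hshift : ∀ k d, pw g (k + d) = pw g k → ∀ K, k ≤ K → pw g (K + d) = pw g K := by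
    intro k d h K hK
    induction K, hK using Nat.le_induction with
    | base => exact h
    | succ K hK ih => rw [show K + 1 + d = (K + d) + 1 by ring, pw_succ, ih, pw_succ]
  have hmul : ∀ q K, k₀ ≤ K → pw g (K + q * p) = pw g K := by
    intro q
    induction q with
    | zero => intro K _; rw [Nat.zero_mul, Nat.add_zero]
    | succ q ih =>
      intro K hK
      rw [show K + (q + 1) * p = (K + q * p) + p by ring, hshift k₀ p hk₀ _ (by omega), ih K hK]
  have hdvd : ∀ k d, pw g (k + d) = pw g k → p ∣ d := by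
    intro k d h
    by_contra hnd
    have hr : 1 ≤ d % p := Nat.one_le_iff_ne_zero.2 fun h0 => hnd (Nat.dvd_of_mod_eq_zero h0)
    have hr2 : d % p < p := Nat.mod_lt _ (by omega)
    have h1 := hshift k d h (k + k₀) (by omega)
    have h2 := hmul (d / p) (k + k₀ + d % p) (by omega)
    have h3 : k + k₀ + d % p + d / p * p = k + k₀ + d := by
      have := Nat.mod_add_div d p
      rw [Nat.mul_comm] at this
      omega
    rw [h3, h1] at h2
    have := hmin (d % p) hr ⟨k + k₀, h2.symm⟩
    omega
  have hcast : ∀ K K', pw g K = pw g K' → ((K + 1 : ℕ) : ZMod p) = ((K' + 1 : ℕ) : ZMod p) := by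
    have haux : ∀ K K', K ≤ K' → pw g K = pw g K' →
        ((K + 1 : ℕ) : ZMod p) = ((K' + 1 : ℕ) : ZMod p) := by
      intro K K' hle h
      have := hdvd K (K' - K) (by rw [show K + (K' - K) = K' by omega, h])
      obtain ⟨c, hc⟩ := this
      rw [show K' + 1 = K + 1 + p * c by omega]
      push_cast
      rw [ZMod.natCast_self]; ring
    intro K K' h
    rcases Nat.le_total K K' with hle | hle
    · exact haux K K' hle h
    · exact (haux K' K hle h.symm).symm
  have : NeZero p := ⟨by omega⟩
  refine ⟨Multiplicative (ZMod p), inferInstance, Multiplicative.ofAdd 1, ?_, ?_⟩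
  · intro pq hpq φ
    let ψ : Word →ₙ* Fr E 1 := FreeSemigroup.lift fun i =>
      pw g ((Multiplicative.toAdd (φ (FreeSemigroup.of i))).val + (p - 1))
    have key : ∀ w : Word, ∃ K, ψ w = pw g K ∧
        ((K + 1 : ℕ) : ZMod p) = Multiplicative.toAdd (φ w) := by
      intro w
      induction w using FreeSemigroup.recOnMul with
      | ih1 i =>
        refine ⟨_, FreeSemigroup.lift_of _ _, ?_⟩
        rw [show ∀ c : ℕ, c + (p - 1) + 1 = c + p by intro c; omega]
        push_cast
        rw [ZMod.natCast_self, add_zero, ZMod.natCast_zmod_val]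
      | ih2 i w hx hy =>
        obtain ⟨K, hK1, hK2⟩ := hx
        obtain ⟨K', hK1', hK2'⟩ := hy
        refine ⟨K + K' + 1, by rw [map_mul, hK1, hK1', pw_add], ?_⟩
        rw [map_mul, toAdd_mul, ← hK2, ← hK2']
        push_cast; ring
    obtain ⟨K, hK1, hK2⟩ := key pq.1
    obtain ⟨K', hK1', hK2'⟩ := key pq.2
    have h1 : pw g K = pw g K' := by
      rw [← hK1, ← hK1']; exact mem_Fr E 1 pq hpq ψ
    have h2 := hcast K K' h1
    rw [hK2, hK2'] at h2
    exact Multiplicative.toAdd.injective h2
  · intro h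
    have h1 : (1 : ZMod p) = 0 := congrArg Multiplicative.toAdd h
    have : Fact (1 < p) := ⟨by omega⟩
    exact one_ne_zero h1

end Pool.Agent.Lib.MP_b02441_al
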