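import Pool.Agent.Lib.MP_b02441_al.SqC
import Pool.Agent.Lib.MP_b02441_al.Fin

/-!
# Varieties in which a word with a free letter is zero (for MP_b02441_al)
-/

set_option autoImplicit false
set_option linter.unusedVariables false

namespace Pool.Agent.Lib.MP_b02441_al

section

variable {T : Type} [Semigroup T]

theorem pow_coe_eq (s : T) (k : ℕ) : (s : WithOne T) ^ (k + 1) = ((pw s k : T) : WithOne T) := by
  induction k with
  | zero => rw [zero_add, pow_one]; rfl
  | succ k ih => rw [pow_succ, ih, ← WithOne.coe_mul, ← pw_succ]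

/-- the beginning `a` of `W = a t`, or nothing -/
def pre (a : T) (b : Bool) : WithOne T := if b then (a : WithOne T) else 1

/-- the part of `W W = a t a t` between two offsets -/
def seg (a t : T) : Bool → Bool → T
  | false, true => a
  | true, false => t
  | false, false => a * t
  | true, true => t * a

/-- the number of turns -/
def turn : Bool → Bool → ℕ
  | false, true => 0
  | _, _ => 1

theorem pre_seg (a t : T) (b b' : Bool) :
    pre a b * ((seg a t b b' : T) : WithOne T) =
      ((a * t : T) : WithOne T) ^ turn b b' * pre a b' := by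
  cases b <;> cases b' <;> simp [pre, seg, turn, WithOne.coe_mul, mul_assoc]

/-- the number of turns along a word -/
def turns (off : ℕ ⊕ ℕ → Bool) (l : List ℕ) : ℕ :=
  (l.map fun i => turn (off (.inr i)) (off (.inl i))).sum

theorem pre_ev (a t : T) (off : ℕ ⊕ ℕ → Bool) :
    ∀ (l : List ℕ) (i : ℕ), (∀ (y z : ℕ) (u v : List ℕ), i :: l = u ++ y :: z :: v →
      off (.inl y) = off (.inr z)) → ∃ b : Bool,
      pre a (off (.inr i)) * ev (fun k => seg a t (off (.inr k)) (off (.inl k))) (i :: l) =
        ((a * t : T) : WithOne T) ^ turns off (i :: l) * pre a b := by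
  intro l
  induction l with
  | nil =>
    intro i h
    refine ⟨off (.inl i), ?_⟩
    rw [ev_singleton, pre_seg]
    simp [turns]
  | cons k l ih =>
    intro i h
    have hik : off (.inl i) = off (.inr k) := h i k [] l rfl
    obtain ⟨b, h1⟩ := ih k (fun y z u v huv => h y z (i :: u) v (by rw [huv]; rfl))
    refine ⟨b, ?_⟩
    rw [ev_cons, ← mul_assoc, pre_seg, hik, mul_assoc, h1, ← mul_assoc, ← pow_add]
    simp only [turns, List.map_cons, List.sum_cons]
    rw [hik]

theorem turns_le (off : ℕ ⊕ ℕ → Bool) {x : ℕ} (h1 : off (.inr x) = false)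
    (h2 : off (.inl x) = true) (l : List ℕ) : turns off l + l.count x ≤ l.length := by
  induction l with
  | nil => simp [turns]
  | cons i l ih =>
    have h3 : turn (off (.inr i)) (off (.inl i)) ≤ 1 := by
      cases off (.inr i) <;> cases off (.inl i) <;> simp [turn]
    have h4 : turns off (i :: l) = turn (off (.inr i)) (off (.inl i)) + turns off l := by
      simp [turns]
    rw [h4, List.length_cons, List.count_cons]
    by_cases hi : i = x
    · subst hi
      rw [h1, h2]
      simp only [turn, beq_self_eq_true, if_true]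
      omega
    · simp only [beq_iff_eq, hi, if_false]
      omega

/-- if a word with a free letter which occurs twice is zero, then `(a t) ^ (|w| - 1) = 0` -/
theorem pow_zero_of_free {w : Word} {x : ℕ} (hx : 2 ≤ (toL w).count x)
    (hfree : ¬ Conn w (Sum.inl x) (Sum.inr x)) {z : T}
    (hw : ∀ φ : Word →ₙ* T, φ w = z) (hz : ∀ s : T, z * s = z ∧ s * z = z) (a t : T) :
    pw (a * t) ((toL w).length - 2) = z := by
  classical
  let off : ℕ ⊕ ℕ → Bool := fun s => decide (Conn w (Sum.inl x) s)
  have h1 : off (.inr x) = false := decide_eq_false hfree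
  have h2 : off (.inl x) = true := decide_eq_true (Relation.EqvGen.refl _)
  have h3 : ∀ (y z : ℕ) (u v : List ℕ), w.head :: w.tail = u ++ y :: z :: v →
      off (.inl y) = off (.inr z) := by
    intro y z u v huv
    have h4 : Conn w (Sum.inl y) (Sum.inr z) :=
      Relation.EqvGen.rel _ _ ⟨y, z, u, v, huv, rfl, rfl⟩
    have h5 : Conn w (Sum.inl x) (Sum.inl y) ↔ Conn w (Sum.inl x) (Sum.inr z) :=
      ⟨fun h => h.trans _ _ _ h4, fun h => h.trans _ _ _ (h4.symm _ _)⟩
    simp only [off, h5]
  obtain ⟨b, hb⟩ := pre_ev a t off w.tail w.head h3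
  have h4 : ev (fun k => seg a t (off (.inr k)) (off (.inl k))) (toL w) = (z : WithOne T) := by
    rw [ev_lift, hw]
  change pre a _ * ev _ (toL w) = _ ^ turns off (toL w) * _ at hb
  rw [h4] at hb
  have hz' : ∀ (a : T) (b : Bool), pre a b * (z : WithOne T) = z := by
    intro a b
    cases b
    · simp [pre]
    · simp [pre, ← WithOne.coe_mul, (hz a).2]
  rw [hz'] at hb
  have h5 : ((a * t : T) : WithOne T) ^ (turns off (toL w) + 1) = z := by
    rw [pow_succ]
    cases b
    · simp only [pre, Bool.false_eq_true, if_false, mul_one] at hb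
      rw [← hb, ← WithOne.coe_mul, (hz _).1]
    · simp only [pre, if_true] at hb
      have h6 : ((a * t : T) : WithOne T) ^ turns off (toL w) * ((a * t : T) : WithOne T) =
          ((a * t : T) : WithOne T) ^ turns off (toL w) * (a : WithOne T) * (t : WithOne T) := by
        rw [mul_assoc, ← WithOne.coe_mul a t]
      rw [h6, ← hb, ← WithOne.coe_mul, (hz _).1]
  have h6 := turns_le off h1 h2 (toL w)
  obtain ⟨c, hc⟩ : ∃ c, (toL w).length - 2 + 1 = turns off (toL w) + 1 + c :=
    ⟨(toL w).length - 2 + 1 - (turns off (toL w) + 1), by omega⟩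
  have h7 : ((pw (a * t) ((toL w).length - 2) : T) : WithOne T) = z := by
    rw [← pow_coe_eq, hc, pow_add, h5]
    cases c with
    | zero => rw [pow_zero, mul_one]
    | succ c => rw [pow_coe_eq, ← WithOne.coe_mul, (hz _).1]
  exact WithOne.coe_inj.1 h7

end

section

variable {E : Set (Word × Word)}

theorem flatMap_s1 {s : ℕ → List ℕ} {i n : ℕ} {a : ℕ} {t : List ℕ} (hi : i ≤ n)
    (hs : s i = a :: t) {U : List ℕ} (hU : ∀ j ∈ U, j ≤ n) :
    (U.flatMap (s1 i [i, n + 1])).flatMap
      (fun j => if j = i then [a] else if j = n + 1 then t else s j) = U.flatMap s := by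
  rw [List.flatMap_assoc]
  refine flatMap_congr' fun j hj => ?_
  by_cases hji : j = i
  · subst hji
    have : n + 1 ≠ j := by omega
    rw [s1_self, hs]
    simp [this]
  · have : j ≠ n + 1 := by have := hU j hj; omega
    rw [s1_of_ne _ hji]
    simp [hji, this]

/-- the general obstruction -/
theorem separated_of_collapse (h : ∀ n : ℕ, 1 ≤ n → ∃ u : Word, (∀ j ∈ toL u, j ≤ n) ∧
    (∀ i j : ℕ, i ≤ n → j ≤ n → i ≠ j → ¬ Holds E (subst i (FreeSemigroup.of j) u) u) ∧
    (∀ i ≤ n, ∃ v : Word, (∀ j ∈ toL v, j ≤ n) ∧ ¬ Holds E v u ∧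
      Holds E (subst i (FreeSemigroup.of i * FreeSemigroup.of (n + 1)) v)
        (subst i (FreeSemigroup.of i * FreeSemigroup.of (n + 1)) u))) :
    Separated E := by
  rw [separated_iff]
  intro n hn hiso
  obtain ⟨u, hu, h1, h2⟩ := h n hn
  obtain ⟨s, hs1, hs2, hs3⟩ := isoL_of_isoH hn hiso (toL u) (toL_ne u) hu
  by_cases hlong : ∃ i ≤ n, ∃ a t, t ≠ [] ∧ s i = a :: t
  · obtain ⟨i, hi, a, t, ht, hs⟩ := hlong
    obtain ⟨v, hv, hvu, hvu'⟩ := h2 i hi
    rw [← RE_toL, toL_subst, toL_subst, toL_mul, toL_of, toL_of] at hvu'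
    have h3 := (RE_fic E).sub (fun j => if j = i then [a] else if j = n + 1 then t else s j)
      (fun j => by
        split_ifs
        · simp
        · exact ht
        · exact hs1 j) hvu'
    rw [List.singleton_append, flatMap_s1 hi hs hv, flatMap_s1 hi hs hu] at h3
    exact hvu (RE_toL.1 (hs3 (toL v) (toL_ne v) hv h3))
  · have h3 : ∀ i, ∃ b, i ≤ n → s i = [b] := by
      intro i
      by_cases hi : i ≤ n
      · cases hs : s i with
        | nil => exact absurd hs (hs1 i)
        | cons a t =>
          refine ⟨a, fun _ => ?_⟩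
          by_cases ht : t = []
          · rw [ht]
          · exact absurd ⟨i, hi, a, t, ht, hs⟩ hlong
      · exact ⟨0, fun h => absurd h hi⟩
    choose b hb using h3
    have hbn : ∀ i, i ≤ n → b i < n := by
      intro i hi
      refine hs2 i hi (b i) ?_
      rw [hb i hi]
      exact List.mem_singleton_self _
    obtain ⟨i, j, hij, hbij⟩ := Fintype.exists_ne_map_eq_of_card_lt
      (fun i : Fin (n + 1) => (⟨b i.val, hbn i.val (Nat.lt_succ_iff.1 i.isLt)⟩ : Fin n))
      (by simp)
    have hi := Nat.lt_succ_iff.1 i.isLt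
    have hj := Nat.lt_succ_iff.1 j.isLt
    have hne : i.val ≠ j.val := fun h => hij (Fin.ext h)
    have hb' : b i.val = b j.val := congrArg Fin.val hbij
    refine h1 i.val j.val hi hj hne ?_
    rw [← RE_toL]
    refine hs3 _ (toL_ne _) ?_ ?_
    · intro k hk
      rw [toL_subst, List.mem_flatMap] at hk
      obtain ⟨l, hl, hkl⟩ := hk
      by_cases hli : l = i.val
      · rw [hli, s1_self, toL_of, List.mem_singleton] at hkl
        omega
      · rw [s1_of_ne _ hli, List.mem_singleton] at hkl
        rw [hkl]
        exact hu l hl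
    · have h4 : (toL (subst i.val (FreeSemigroup.of j.val) u)).flatMap s = (toL u).flatMap s := by
        rw [toL_subst, List.flatMap_assoc]
        refine flatMap_congr' fun k hk => ?_
        by_cases hki : k = i.val
        · rw [hki, s1_self, toL_of]
          simp [hb _ hi, hb _ hj, hb']
        · rw [s1_of_ne _ hki]
          simp
      rw [h4]
      exact (RE_fic E).refl _

end

end Pool.Agent.Lib.MP_b02441_al
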