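import Pool.Agent.Lib.MP_b02441_al.ZeroA

/-!
# Varieties defined by one word being zero (for MP_b02441_al)
-/

set_option autoImplicit false
set_option linter.unusedVariables false

namespace Pool.Agent.Lib.MP_b02441_al

/-- Every letter which occurs in `w` occurs at least twice, and `w` is not a product of two words
without common letters. -/
def Doubled (w : Word) : Prop :=
  (∀ i ∈ toL w, 2 ≤ (toL w).count i) ∧
    ∀ u v : Word, w = u * v → ∃ i, i ∈ toL u ∧ i ∈ toL v

/-- instances of doubled words in sorted words -/
theorem Doubled.const {w : Word} (hw : Doubled w) (f : ℕ → Word)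
    (hs : (toL (FreeSemigroup.lift f w)).Pairwise (· ≤ ·)) :
    ∃ c, ∀ d ∈ toL (FreeSemigroup.lift f w), d = c := by
  rw [toL_lift] at hs ⊢
  -- the image of a letter is constant
  have h1 : ∀ i ∈ toL w, ∀ d ∈ toL (f i), d = (f i).head := by
    intro i hi
    have h2 := hw.1 i hi
    obtain ⟨a, b, hab⟩ := List.append_of_mem hi
    have hcount : i ∈ a ∨ i ∈ b := by
      by_contra hcon
      push Not at hcon
      rw [hab, List.count_append, List.count_cons_self, List.count_eq_zero_of_not_mem hcon.1,
        List.count_eq_zero_of_not_mem hcon.2] at h2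
      omega
    have key : ∀ p q r : List ℕ, toL w = p ++ i :: q ++ i :: r → ∀ d ∈ toL (f i),
        ∀ e ∈ toL (f i), d ≤ e := by
      intro p q r hpqr d hd e he
      rw [hpqr] at hs
      simp only [List.flatMap_append, List.flatMap_cons] at hs
      rw [List.append_assoc, List.append_assoc] at hs
      have h3 := (List.pairwise_append.1 hs).2.1
      exact (List.pairwise_append.1 h3).2.2 d hd e
        (List.mem_append_right _ (List.mem_append_left _ he))
    have hle : ∀ d ∈ toL (f i), ∀ e ∈ toL (f i), d ≤ e := by
      rcases hcount with h3 | h3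
      · obtain ⟨p, q, hpq⟩ := List.append_of_mem h3
        exact key p q b (by rw [hab, hpq])
      · obtain ⟨p, q, hpq⟩ := List.append_of_mem h3
        exact key a p q (by rw [hab, hpq]; simp)
    intro d hd
    have h0 : (f i).head ∈ toL (f i) := List.mem_cons_self
    exact le_antisymm (hle d hd _ h0) (hle _ h0 d hd)
  -- the constants do not decrease
  have hmono : ∀ a b : List ℕ, toL w = a ++ b → ∀ i ∈ a, ∀ j ∈ b, (f i).head ≤ (f j).head := by
    intro a b hab i hi j hj
    rw [hab, List.flatMap_append] at hs
    exact (List.pairwise_append.1 hs).2.2 _ (List.mem_flatMap.2 ⟨i, hi, List.mem_cons_self⟩) _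
      (List.mem_flatMap.2 ⟨j, hj, List.mem_cons_self⟩)
  -- they are all equal
  have hconst : ∀ (b a : List ℕ), a ≠ [] → toL w = a ++ b →
      (∀ i ∈ a, (f i).head = (f w.head).head) → ∀ i ∈ toL w, (f i).head = (f w.head).head := by
    intro b
    induction b with
    | nil =>
      intro a ha hab h i hi
      rw [List.append_nil] at hab
      exact h i (hab ▸ hi)
    | cons k b ih =>
      intro a ha hab h
      refine ih (a ++ [k]) (by simp) (by rw [hab]; simp) ?_
      intro i hi
      rcases List.mem_append.1 hi with hi | hi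
      · exact h i hi
      · rw [List.mem_singleton] at hi
        subst hi
        obtain ⟨u, hu⟩ := toL_surj ha
        obtain ⟨v, hv⟩ := toL_surj (List.cons_ne_nil i b)
        have huv : w = u * v := by
          have h3 : toL w = toL (u * v) := by rw [toL_mul, hu, hv, hab]
          have h4 : w.head = (u * v).head ∧ w.tail = (u * v).tail := List.cons.inj h3
          exact FreeSemigroup.ext h4.1 h4.2
        obtain ⟨j, hj1, hj2⟩ := hw.2 u v huv
        rw [hu] at hj1
        rw [hv] at hj2
        have h3 := h j hj1
        -- `w.head` is in `a`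
        have h0 : w.head ∈ a := by
          cases a with
          | nil => exact absurd rfl ha
          | cons c a =>
            have h4 : w.head = c := (List.cons.inj hab).1
            rw [h4]
            exact List.mem_cons_self
        have h4 : (f w.head).head ≤ (f i).head := hmono a (i :: b) hab _ h0 i List.mem_cons_self
        have h5 : (f i).head ≤ (f j).head := by
          rcases List.mem_cons.1 hj2 with rfl | hj2
          · exact le_refl _
          · exact hmono (a ++ [i]) b (by rw [hab]; simp) i (by simp) j hj2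
        exact le_antisymm (h5.trans h3.le) h4
  have h2 := hconst w.tail [w.head] (by simp) rfl (by simp)
  refine ⟨(f w.head).head, fun d hd => ?_⟩
  obtain ⟨i, hi, hdi⟩ := List.mem_flatMap.1 hd
  rw [h1 i hi d hdi, h2 i hi]

/-- sorted words with few repetitions -/
def Srt (k : ℕ) (l : List ℕ) : Prop := l.Pairwise (· ≤ ·) ∧ ∀ c, l.count c ≤ k

theorem Srt.left {k : ℕ} {a b : List ℕ} (h : Srt k (a ++ b)) : Srt k a := by
  refine ⟨(List.pairwise_append.1 h.1).1, fun c => ?_⟩
  have := h.2 c
  rw [List.count_append] at this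
  omega

theorem Srt.right {k : ℕ} {a b : List ℕ} (h : Srt k (a ++ b)) : Srt k b := by
  refine ⟨(List.pairwise_append.1 h.1).2.1, fun c => ?_⟩
  have := h.2 c
  rw [List.count_append] at this
  omega

theorem length_flatMap_le (f : ℕ → Word) (l : List ℕ) :
    l.length ≤ (l.flatMap fun i => toL (f i)).length := by
  induction l with
  | nil => simp
  | cons i l ih =>
    rw [List.flatMap_cons, List.length_append, List.length_cons]
    have : 1 ≤ (toL (f i)).length := by
      change 1 ≤ (f i).tail.length + 1
      omega
    omega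

theorem Doubled.not_srt {w : Word} (hw : Doubled w) (f : ℕ → Word) :
    ¬ Srt ((toL w).length - 1) (toL (FreeSemigroup.lift f w)) := by
  intro h
  obtain ⟨c, hc⟩ := hw.const f h.1
  have h1 : (toL (FreeSemigroup.lift f w)).count c = (toL (FreeSemigroup.lift f w)).length :=
    List.count_eq_length.2 fun d hd => (hc d hd).symm
  have h2 := h.2 c
  rw [h1] at h2
  have h3 := length_flatMap_le f (toL w)
  rw [← toL_lift] at h3
  have h4 : 1 ≤ (toL w).length := by
    change 1 ≤ w.tail.length + 1
    omega
  omega

/-- the Rees congruence -/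
def srtCon (k : ℕ) : Con Word where
  r u v := u = v ∨ (¬ Srt k (toL u) ∧ ¬ Srt k (toL v))
  iseqv := by
    refine ⟨fun u => Or.inl rfl, ?_, ?_⟩
    · rintro u v (h | h)
      · exact Or.inl h.symm
      · exact Or.inr ⟨h.2, h.1⟩
    · rintro u v w (rfl | h) (rfl | h')
      · exact Or.inl rfl
      · exact Or.inr h'
      · exact Or.inr h
      · exact Or.inr ⟨h.1, h'.2⟩
  mul' := by
    rintro u v u' v' (rfl | h) (rfl | h')
    · exact Or.inl rfl
    · exact Or.inr ⟨fun h1 => h'.1 (Srt.right (a := toL u) (b := toL u') h1),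
        fun h1 => h'.2 (Srt.right (a := toL u) (b := toL v') h1)⟩
    · exact Or.inr ⟨fun h1 => h.1 (Srt.left (a := toL u) (b := toL u') h1),
        fun h1 => h.2 (Srt.left (a := toL v) (b := toL u') h1)⟩
    · exact Or.inr ⟨fun h1 => h.1 (Srt.left (a := toL u) (b := toL u') h1),
        fun h1 => h.2 (Srt.left (a := toL v) (b := toL v') h1)⟩

theorem Srt.mono {k k' : ℕ} (hk : k ≤ k') {l : List ℕ} (h : Srt k l) : Srt k' l :=
  ⟨h.1, fun c => (h.2 c).trans hk⟩

theorem mem_srt {Z : Set Word} (hZ : ∀ w ∈ Z, Doubled w) {k : ℕ}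
    (hk : ∀ w ∈ Z, k ≤ (toL w).length - 1) : Mem (withZeros ∅ Z) (srtCon k).Quotient := by
  have hlift : ∀ φ : Word →ₙ* (srtCon k).Quotient, ∃ f : ℕ → Word,
      ∀ v : Word, φ v = ((FreeSemigroup.lift f v : Word) : (srtCon k).Quotient) := by
    intro φ
    have hsurj : ∀ x : (srtCon k).Quotient, ∃ v : Word, (v : (srtCon k).Quotient) = x := by
      intro x
      induction x using Con.induction_on with
      | H v => exact ⟨v, rfl⟩
    choose f hf using fun i : ℕ => hsurj (φ (FreeSemigroup.of i))
    refine ⟨f, fun v => ?_⟩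
    induction v using FreeSemigroup.recOnMul with
    | ih1 x => rw [FreeSemigroup.lift_of]; exact (hf x).symm
    | ih2 x y hx hy => rw [map_mul, map_mul, hx, hy, Con.coe_mul]
  intro e he φ
  obtain ⟨f, hf⟩ := hlift φ
  rcases he with he | ⟨w', hw', y, hy, he⟩
  · exact absurd he (Set.notMem_empty _)
  · have h1 : ¬ Srt k (toL (FreeSemigroup.lift f w')) :=
      fun h => (hZ w' hw').not_srt f (h.mono (hk w' hw'))
    rcases he with rfl | rfl
    · change φ (w' * FreeSemigroup.of y) = φ w'
      rw [hf, hf]
      refine (Con.eq _).2 (Or.inr ⟨fun h2 => h1 ?_, h1⟩)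
      rw [map_mul, toL_mul] at h2
      exact h2.left
    · change φ (FreeSemigroup.of y * w') = φ w'
      rw [hf, hf]
      refine (Con.eq _).2 (Or.inr ⟨fun h2 => h1 ?_, h1⟩)
      rw [map_mul, toL_mul] at h2
      exact h2.right

/-- the word `x_0 ^ (K + 1) x_1 ^ (K + 1) ⋯ x_n ^ (K + 1)` -/
def pows (K : ℕ) : ℕ → Word
  | 0 => pw (FreeSemigroup.of 0) K
  | n + 1 => pows K n * pw (FreeSemigroup.of (n + 1)) K

theorem toL_pw_of (i K : ℕ) : toL (pw (FreeSemigroup.of i) K) = List.replicate (K + 1) i := by
  induction K with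
  | zero => rfl
  | succ K ih => rw [pw_succ, toL_mul, ih, toL_of, List.replicate_succ' (n := K + 1)]

theorem mem_pows {K n i : ℕ} : i ∈ toL (pows K n) ↔ i ≤ n := by
  induction n with
  | zero =>
    rw [pows, toL_pw_of, List.mem_replicate]
    omega
  | succ n ih =>
    rw [pows, toL_mul, toL_pw_of, List.mem_append, ih, List.mem_replicate]
    omega

theorem srt_pows (K n : ℕ) : Srt (K + 1) (toL (pows K n)) := by
  induction n with
  | zero =>
    rw [pows, toL_pw_of]
    refine ⟨List.pairwise_replicate.2 (Or.inr (le_refl _)), fun c => ?_⟩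
    rw [List.count_replicate]
    split_ifs <;> omega
  | succ n ih =>
    rw [pows, toL_mul, toL_pw_of]
    refine ⟨List.pairwise_append.2 ⟨ih.1, List.pairwise_replicate.2 (Or.inr (le_refl _)),
      fun a ha b hb => ?_⟩, fun c => ?_⟩
    · rw [mem_pows] at ha
      rw [List.mem_replicate] at hb
      omega
    · rw [List.count_append, List.count_replicate]
      split_ifs with h
      · have hc : n + 1 = c := by simpa using h
        subst hc
        rw [List.count_eq_zero_of_not_mem (by rw [mem_pows]; omega)]
        omega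
      · have := ih.2 c
        omega

theorem not_holds_pows {Z : Set Word} (hZ : ∀ w ∈ Z, Doubled w) {w : Word} (hwZ : w ∈ Z)
    (hmin : ∀ w' ∈ Z, (toL w).length ≤ (toL w').length) (n : ℕ) :
    ¬ Holds (withZeros ∅ Z) w (pows ((toL w).length - 2) n) := by
  intro h
  have hw := hZ w hwZ
  have h0 : 2 ≤ (toL w).length := by
    have h1 := hw.1 w.head List.mem_cons_self
    exact h1.trans List.count_le_length
  obtain ⟨k, hk⟩ : ∃ k, (toL w).length = k + 2 := ⟨(toL w).length - 2, by omega⟩
  have h1 := h _ (mem_srt hZ (k := (toL w).length - 1) fun w' hw' => by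
    have := hmin w' hw'
    omega) (Con.mkMulHom _)
  have h2 : (srtCon ((toL w).length - 1)) w (pows ((toL w).length - 2) n) := (Con.eq _).1 h1
  have h3 := srt_pows ((toL w).length - 2) n
  rw [show (toL w).length - 2 + 1 = (toL w).length - 1 by omega] at h3
  have h4 := hw.not_srt FreeSemigroup.of
  have hid : FreeSemigroup.lift FreeSemigroup.of w = w := by
    have h5 : FreeSemigroup.lift (FreeSemigroup.of : ℕ → Word) = MulHom.id _ := by
      refine FreeSemigroup.hom_ext ?_
      funext j
      change FreeSemigroup.lift _ (FreeSemigroup.of j) = FreeSemigroup.of j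
      rw [FreeSemigroup.lift_of]
    rw [h5]
    rfl
  rw [hid] at h4
  rcases h2 with h2 | h2
  · rw [h2] at h4
    exact h4 (h2 ▸ h3)
  · exact h2.2 h3

end Pool.Agent.Lib.MP_b02441_al
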