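import Pool.Agent.Lib.MP_b02441_al.ZeroB

/-!
# Varieties defined by one word being zero: the classification (for MP_b02441_al)
-/

set_option autoImplicit false
set_option linter.unusedVariables false

namespace Pool.Agent.Lib.MP_b02441_al

theorem exists_zero {E : Set (Word × Word)} {Z : Set Word} {w : Word} (hw : w ∈ Z) {S : Type}
    [Semigroup S] (hS : Mem (withZeros E Z) S) (φ₀ : Word →ₙ* S) :
    ∃ z : S, (∀ φ : Word →ₙ* S, φ w = z) ∧ ∀ s : S, z * s = z ∧ s * z = z := by
  classical
  have h1 : ∀ φ : Word →ₙ* S, ∀ s : S, φ w * s = φ w ∧ s * φ w = φ w := by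
    intro φ s
    obtain ⟨y, hy⟩ : ∃ y : ℕ, y ∉ toL w := by
      obtain ⟨y, hy⟩ := Infinite.exists_notMem_finset (toL w).toFinset
      exact ⟨y, fun h => hy (List.mem_toFinset.2 h)⟩
    let c : ℕ → S := fun j => if j = y then s else φ (FreeSemigroup.of j)
    have hc : FreeSemigroup.lift c w = φ w := by
      have h2 : FreeSemigroup.lift c w =
          FreeSemigroup.lift (fun j => φ (FreeSemigroup.of j)) w := by
        refine lift_congr fun i hi => ?_
        have hne : i ≠ y := by
          rintro rfl
          exact hy hi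
        exact if_neg hne
      have h3 : FreeSemigroup.lift (fun j => φ (FreeSemigroup.of j)) = φ := by
        refine FreeSemigroup.hom_ext ?_
        funext j
        change FreeSemigroup.lift _ (FreeSemigroup.of j) = φ (FreeSemigroup.of j)
        rw [FreeSemigroup.lift_of]
      rw [h2, h3]
    have h2 := hS (w * FreeSemigroup.of y, w) (Or.inr ⟨w, hw, y, hy, Or.inl rfl⟩)
      (FreeSemigroup.lift c)
    have h3 := hS (FreeSemigroup.of y * w, w) (Or.inr ⟨w, hw, y, hy, Or.inr rfl⟩)
      (FreeSemigroup.lift c)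
    simp only [map_mul, FreeSemigroup.lift_of, hc, c, if_pos] at h2 h3
    exact ⟨h2, h3⟩
  refine ⟨φ₀ w, fun φ => ?_, h1 φ₀⟩
  rw [← (h1 φ (φ₀ w)).1, (h1 φ₀ (φ w)).2]

theorem map_pows_zero {S : Type} [Semigroup S] {z : S} (hz : ∀ s : S, z * s = z ∧ s * z = z)
    (ψ : Word →ₙ* S) {K i : ℕ} (h : ψ (pw (FreeSemigroup.of i) K) = z) {n : ℕ} (hi : i ≤ n) :
    ψ (pows K n) = z := by
  induction n with
  | zero =>
    have : i = 0 := by omega
    subst this
    exact h
  | succ n ih =>
    rw [pows, map_mul]
    rcases Nat.lt_or_ge n i with h1 | h1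
    · have : i = n + 1 := by omega
      subst this
      rw [h, (hz _).2]
    · rw [ih h1, (hz _).1]

/-- if a shortest word has a free letter, the variety is separated -/
theorem separated_of_free {Z : Set Word} (hZ : ∀ w ∈ Z, Doubled w) {w : Word} (hwZ : w ∈ Z)
    (hmin : ∀ w' ∈ Z, (toL w).length ≤ (toL w').length) (hfree : ¬ Locked w) :
    Separated (withZeros ∅ Z) := by
  classical
  unfold Locked at hfree
  push Not at hfree
  obtain ⟨x, hx, hx'⟩ := hfree
  have hcount := (hZ w hwZ).1 x hx
  set K := (toL w).length - 2 with hK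
  refine separated_of_collapse fun n hn => ⟨pows K n, fun j hj => mem_pows.1 hj, ?_, ?_⟩
  · intro i j hi hj hij hh
    refine not_holds_pows hZ hwZ hmin n ?_
    intro S _ hS φ
    obtain ⟨z, hz1, hz2⟩ := exists_zero hwZ hS φ
    rw [hz1 φ]
    -- replace `x_i` by zero
    have h1 := hh S hS (FreeSemigroup.lift fun k => if k = i then z else φ (FreeSemigroup.of k))
    have h2 : (FreeSemigroup.lift fun k => if k = i then z else φ (FreeSemigroup.of k))
        (pows K n) = z := by
      refine map_pows_zero hz2 _ (i := i) ?_ hi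
      rw [map_pw, FreeSemigroup.lift_of, if_pos rfl]
      exact pw_idem (hz2 z).1 K
    rw [h2] at h1
    have h3 := hh S hS φ
    rw [← h3, ← h1]
    -- both homomorphisms agree on the substituted word
    have h4 : ∀ v : Word, (FreeSemigroup.lift fun k => if k = i then z else
        φ (FreeSemigroup.of k)) (subst i (FreeSemigroup.of j) v) =
        φ (subst i (FreeSemigroup.of j) v) := by
      intro v
      induction v using FreeSemigroup.recOnMul with
      | ih1 k =>
        unfold subst
        rw [FreeSemigroup.lift_of]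
        by_cases hk : k = i
        · rw [if_pos hk, FreeSemigroup.lift_of, if_neg (Ne.symm hij)]
        · rw [if_neg hk, FreeSemigroup.lift_of, if_neg hk]
      | ih2 k v hx hy => rw [map_mul, map_mul, map_mul, hx, hy]
    exact h4 _
  · intro i hi
    refine ⟨FreeSemigroup.lift (fun _ => FreeSemigroup.of 0) w, ?_, ?_, ?_⟩
    · intro j hj
      rw [toL_lift, List.mem_flatMap] at hj
      obtain ⟨k, -, hk⟩ := hj
      rw [toL_of, List.mem_singleton] at hk
      omega
    · intro hh
      refine not_holds_pows hZ hwZ hmin n ?_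
      intro S _ hS φ
      obtain ⟨z, hz1, hz2⟩ := exists_zero hwZ hS φ
      rw [hz1 φ, ← hh S hS φ]
      exact (hz1 (φ.comp (FreeSemigroup.lift fun _ => FreeSemigroup.of 0))).symm
    · intro S _ hS φ
      obtain ⟨z, hz1, hz2⟩ := exists_zero hwZ hS φ
      have h1 : φ (subst i (FreeSemigroup.of i * FreeSemigroup.of (n + 1))
          (FreeSemigroup.lift (fun _ => FreeSemigroup.of 0) w)) = z :=
        hz1 ((φ.comp (subst i (FreeSemigroup.of i * FreeSemigroup.of (n + 1)))).comp
          (FreeSemigroup.lift fun _ => FreeSemigroup.of 0))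
      rw [h1]
      refine (map_pows_zero hz2 (φ.comp (subst i (FreeSemigroup.of i *
        FreeSemigroup.of (n + 1)))) (i := i) ?_ hi).symm
      change φ (subst i _ (pw (FreeSemigroup.of i) K)) = z
      rw [map_pw, map_pw]
      unfold subst
      rw [FreeSemigroup.lift_of, if_pos rfl, map_mul]
      exact pow_zero_of_free hcount hx' hz1 hz2 _ _

/-- sets of doubled words -/
theorem separated_zero_set {Z : Set Word} (hZ : ∀ w ∈ Z, Doubled w) :
    ((∃ w ∈ Z, ¬ Locked w ∧ ∀ w' ∈ Z, (toL w).length ≤ (toL w').length) →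
      Separated (withZeros ∅ Z)) ∧
    ((∀ w ∈ Z, Locked w) → ∀ m n : ℕ, 10 ≤ m → 10 ≤ n →
      InclEquiv (Fr (withZeros ∅ Z) m) (Fr (withZeros ∅ Z) n)) :=
  ⟨fun ⟨w, hw, hl, hmin⟩ => separated_of_free hZ hw hmin hl, fun h m n hm hn =>
    inclEquiv_sq (fun e he => absurd he (Set.notMem_empty _)) h hm hn⟩

end Pool.Agent.Lib.MP_b02441_al
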